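import Pool.Agent.H12.TL.Defs

/-!
# Module ORB: 2k summands represent every class modulo p^(τ+1), p odd

PROOF. Let `m = p^(τ+1)`, `k = p^τ k0`, `H` the set of `k`-th powers of units modulo `m` (a subgroup of the units, cyclic of
order `p^τ (p-1)`), `h = card H = (p-1)/gcd(k0, p-1) >= (p-1)/k0`. `H ∩ {x ≡ 1 mod p} = {1}`, because `h` divides `p-1`, prime
to `p`, while the units `≡ 1` modulo `p` form a group of order `p^τ`. Let `A_j` be the set of classes modulo `m` which are sums
of `j` `k`-th powers (`0 = 0^k` allowed; `A_0 = {0}`, `A_j ⊆ A_(j+1)`). `A_j` is invariant under multiplication by `H`. If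
`A_(j+1) = A_j` then `A_j` is closed under adding `1 = 1^k`, so it is everything. Otherwise there is a new element `y <> 0`,
with its whole `H`-orbit, which has exactly `h` elements: if `η y = y` with `η ∈ H`, `y = p^i y'`, `i <= τ`, `y'` prime to `p`,
then `η ≡ 1` modulo `p^(τ+1-i)`, so modulo `p`, so `η = 1`. Hence `card A_j >= min (m, 1 + j h)`. With `j = 2k`:
`2 k h >= 2 p^τ (p-1) >= p^(τ+1) - 1` as `2(p-1) >= p`. So `A_(2k)` is everything.
-/

set_option autoImplicit false

namespace Pool.Agent.H12.TL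

open Finset
open Pool.Agent.H26.LDP (e)

section
variable {m : ℕ} [NeZero m]

open Classical in
/-- the classes which are sums of `j` powers -/
private noncomputable def AA (m : ℕ) [NeZero m] (k j : ℕ) : Finset (ZMod m) :=
  Finset.univ.filter fun c => ∃ r : Fin j → ZMod m, ∑ i, r i ^ k = c

private theorem mem_AA {k j : ℕ} {c : ZMod m} :
    c ∈ AA m k j ↔ ∃ r : Fin j → ZMod m, ∑ i, r i ^ k = c := by
  classical
  unfold AA
  rw [Finset.mem_filter]
  exact ⟨fun h => h.2, fun h => ⟨Finset.mem_univ _, h⟩⟩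

private theorem AA_zero (k : ℕ) {j : ℕ} (hk : 1 ≤ k) : (0 : ZMod m) ∈ AA m k j := by
  rw [mem_AA]
  refine ⟨fun _ => 0, ?_⟩
  rw [Finset.sum_eq_zero]
  intro i _
  exact zero_pow (by omega)

private theorem AA_add {k j : ℕ} {c : ZMod m} (hc : c ∈ AA m k j) (x : ZMod m) :
    c + x ^ k ∈ AA m k (j + 1) := by
  rw [mem_AA] at hc ⊢
  obtain ⟨r, hr⟩ := hc
  refine ⟨Fin.snoc r x, ?_⟩
  rw [Fin.sum_univ_castSucc]
  simp only [Fin.snoc_castSucc, Fin.snoc_last]
  rw [hr]

private theorem AA_succ {k j : ℕ} (hk : 1 ≤ k) {c : ZMod m} (hc : c ∈ AA m k j) :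
    c ∈ AA m k (j + 1) := by
  have h := AA_add hc 0
  rwa [zero_pow (by omega), add_zero] at h

private theorem AA_mul {k j : ℕ} {c : ZMod m} (t : ZMod m) (hc : c ∈ AA m k j) :
    t ^ k * c ∈ AA m k j := by
  rw [mem_AA] at hc ⊢
  obtain ⟨r, hr⟩ := hc
  refine ⟨fun i => t * r i, ?_⟩
  rw [← hr, Finset.mul_sum]
  exact Finset.sum_congr rfl fun i _ => mul_pow _ _ _

/-- one step of the growth -/
private theorem AA_grow {k j h : ℕ} (hk : 1 ≤ k) (H : Finset (ZMod m)ˣ)
    (hH : ∀ η ∈ H, ∃ t : ZMod m, (η : ZMod m) = t ^ k) (hHc : H.card = h)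
    (hinv : ∀ η ∈ H, ∃ t : ZMod m, ((η⁻¹ : (ZMod m)ˣ) : ZMod m) = t ^ k)
    (hfree : ∀ η ∈ H, ∀ η' ∈ H, ∀ y : ZMod m, y ≠ 0 → (η : ZMod m) * y = η' * y → η = η')
    (ih : AA m k j = Finset.univ ∨ 1 + j * h ≤ (AA m k j).card) :
    AA m k (j + 1) = Finset.univ ∨ 1 + (j + 1) * h ≤ (AA m k (j + 1)).card := by
  classical
  have hsub : AA m k j ⊆ AA m k (j + 1) := fun c hc => AA_succ hk hc
  rcases ih with h1 | h1
  · left
    rw [h1] at hsub
    exact Finset.univ_subset_iff.1 hsub
  by_cases heq : AA m k (j + 1) ⊆ AA m k j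
  · left
    have h2 : ∀ n : ℕ, (n : ZMod m) ∈ AA m k j := by
      intro n
      induction n with
      | zero =>
        rw [Nat.cast_zero]
        exact AA_zero k hk
      | succ n ihn =>
        have h3 := AA_add ihn 1
        rw [one_pow] at h3
        rw [Nat.cast_succ]
        exact heq h3
    refine Finset.univ_subset_iff.1 fun c _ => hsub ?_
    have h3 := h2 c.val
    rwa [ZMod.natCast_val, ZMod.cast_id] at h3
  · right
    obtain ⟨y, hy1, hy2⟩ := Finset.not_subset.1 heq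
    have hy0 : y ≠ 0 := by
      rintro rfl
      exact hy2 (AA_zero k hk)
    have h3 : (AA m k j) ∪ (H.image fun η : (ZMod m)ˣ => (η : ZMod m) * y) ⊆ AA m k (j + 1) := by
      refine Finset.union_subset hsub ?_
      intro c hc
      rw [Finset.mem_image] at hc
      obtain ⟨η, hη, rfl⟩ := hc
      obtain ⟨t, ht⟩ := hH η hη
      rw [ht]
      exact AA_mul t hy1
    have h4 : Disjoint (AA m k j) (H.image fun η : (ZMod m)ˣ => (η : ZMod m) * y) := by
      rw [Finset.disjoint_right]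
      intro c hc hc2
      rw [Finset.mem_image] at hc
      obtain ⟨η, hη, rfl⟩ := hc
      obtain ⟨t, ht⟩ := hinv η hη
      have h5 := AA_mul t hc2
      rw [← ht, ← mul_assoc, Units.inv_mul, one_mul] at h5
      exact hy2 h5
    have h5 : (H.image fun η : (ZMod m)ˣ => (η : ZMod m) * y).card = h := by
      rw [Finset.card_image_of_injOn, hHc]
      intro η hη η' hη' he
      exact hfree η hη η' hη' y hy0 he
    have h6 := Finset.card_le_card h3
    rw [Finset.card_union_of_disjoint h4, h5] at h6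
    calc 1 + (j + 1) * h = (1 + j * h) + h := by ring
      _ ≤ (AA m k j).card + h := Nat.add_le_add_right h1 h
      _ ≤ _ := h6

end

theorem orbit (k p τ : ℕ) (hk : 1 ≤ k) (hp : p.Prime) (h2 : p ≠ 2) (h1 : p ^ τ ∣ k) (h3 : ¬ p ^ (τ + 1) ∣ k) (n : ℕ) :
    ∃ r : Fin (k + k) → ℕ, pw k r ≡ n [MOD p ^ (τ + 1)] := by
  classical
  have : Fact p.Prime := ⟨hp⟩
  have : NeZero (p ^ (τ + 1)) := ⟨(pow_pos hp.pos _).ne'⟩
  have : IsCyclic (ZMod (p ^ (τ + 1)))ˣ := ZMod.isCyclic_units_of_prime_pow p hp h2 (τ + 1)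
  set m : ℕ := p ^ (τ + 1) with hm
  have hφ : Fintype.card (ZMod m)ˣ = p ^ τ * (p - 1) := by
    rw [ZMod.card_units_eq_totient, hm, Nat.totient_prime_pow_succ hp]
  -- the group of the powers
  set H : Finset (ZMod m)ˣ := Finset.univ.image fun x : (ZMod m)ˣ => x ^ k with hH
  have hHcard : p ^ τ * (p - 1) ≤ k * H.card := by
    rw [← hφ, ← Finset.card_univ, hH]
    refine Finset.card_le_mul_card_image _ k ?_
    intro b hb
    rw [Finset.mem_image] at hb
    obtain ⟨x0, _, rfl⟩ := hb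
    refine le_trans ?_ (IsCyclic.card_pow_eq_one_le (α := (ZMod m)ˣ) (n := k) hk)
    refine Finset.card_le_card_of_injOn (fun x => x * x0⁻¹) ?_ ?_
    · intro x hx
      have hx' := (Finset.mem_filter.1 (Finset.mem_coe.1 hx)).2
      refine Finset.mem_coe.2 (Finset.mem_filter.2 ⟨Finset.mem_univ _, ?_⟩)
      show (x * x0⁻¹) ^ k = 1
      rw [mul_pow, hx', inv_pow, mul_inv_cancel]
    · intro x _ x' _ hxx
      exact mul_right_cancel hxx
  have hcopm : ∀ a : ℕ, a.Coprime m ↔ a.Coprime p := fun a => by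
    rw [hm]
    exact Nat.coprime_pow_right_iff (by omega) a p
  -- the action is free
  have hord : ∀ η ∈ H, η ^ (p - 1) = 1 := by
    intro η hη
    rw [hH, Finset.mem_image] at hη
    obtain ⟨x, _, rfl⟩ := hη
    obtain ⟨k0, hk0⟩ := h1
    rw [← pow_mul, hk0]
    have h4 : p ^ τ * k0 * (p - 1) = Fintype.card (ZMod m)ˣ * k0 := by rw [hφ]; ring
    rw [h4, pow_mul, pow_card_eq_one, one_pow]
  have hfree : ∀ η ∈ H, ∀ η' ∈ H, ∀ y : ZMod m, y ≠ 0 → (η : ZMod m) * y = η' * y → η = η' := by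
    intro η hη η' hη' y hy he
    have h5 : ((η : ZMod m) - η') * y = 0 := by rw [sub_mul, he, sub_self]
    -- `η - η'` is not a unit
    have h6 : ¬ IsUnit ((η : ZMod m) - η') := by
      intro hu
      exact hy (hu.mul_right_eq_zero.1 h5)
    have h7 : (p : ZMod m) ∣ (η : ZMod m) - η' := by
      have h8 : ((((η : ZMod m) - η').val : ℕ) : ZMod m) = (η : ZMod m) - η' := by
        rw [ZMod.natCast_val, ZMod.cast_id]
      rw [← h8, ZMod.isUnit_iff_coprime, hcopm] at h6
      have h9 : p ∣ ((η : ZMod m) - η').val := by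
        by_contra hcon
        exact h6 ((hp.coprime_iff_not_dvd.2 hcon).symm)
      obtain ⟨q, hq⟩ := h9
      rw [← h8, hq]
      push_cast
      exact dvd_mul_right _ _
    have h8 : ((p : ZMod m)) ^ (τ + 1) ∣ (η : ZMod m) ^ p ^ τ - (η' : ZMod m) ^ p ^ τ :=
      dvd_sub_pow_of_dvd_sub h7 τ
    have h9 : ((p : ZMod m)) ^ (τ + 1) = 0 := by
      have h10 : ((m : ℕ) : ZMod m) = 0 := ZMod.natCast_self m
      rw [hm] at h10
      push_cast at h10
      exact h10
    rw [h9, zero_dvd_iff, sub_eq_zero] at h8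
    have h10 : η ^ p ^ τ = η' ^ p ^ τ := Units.ext (by push_cast; exact h8)
    have h11 : (η * η'⁻¹) ^ p ^ τ = 1 := by
      rw [mul_pow, h10, inv_pow, mul_inv_cancel]
    have h12 : (η * η'⁻¹) ^ (p - 1) = 1 := by
      rw [mul_pow, hord η hη, inv_pow, hord η' hη', inv_one, mul_one]
    have h13 : Nat.Coprime (p ^ τ) (p - 1) := by
      refine Nat.Coprime.pow_left τ ?_
      rw [hp.coprime_iff_not_dvd]
      intro hd
      have h14 := Nat.le_of_dvd (by have := hp.two_le; omega) hd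
      have := hp.two_le
      omega
    have h14 : orderOf (η * η'⁻¹) ∣ 1 := by
      rw [← h13.gcd_eq_one]
      exact Nat.dvd_gcd (orderOf_dvd_of_pow_eq_one h11) (orderOf_dvd_of_pow_eq_one h12)
    have h15 : η * η'⁻¹ = 1 := orderOf_eq_one_iff.1 (Nat.dvd_one.1 h14)
    exact mul_inv_eq_one.1 h15
  have hgrow : ∀ j : ℕ, AA m k j = Finset.univ ∨ 1 + j * H.card ≤ (AA m k j).card := by
    intro j
    induction j with
    | zero =>
      right
      rw [zero_mul, add_zero]
      exact Finset.card_pos.2 ⟨0, AA_zero k hk⟩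
    | succ j ih =>
      refine AA_grow hk H ?_ rfl ?_ hfree ih
      · intro η hη
        rw [hH, Finset.mem_image] at hη
        obtain ⟨x, _, rfl⟩ := hη
        exact ⟨x, by push_cast; rfl⟩
      · intro η hη
        rw [hH, Finset.mem_image] at hη
        obtain ⟨x, _, rfl⟩ := hη
        refine ⟨((x⁻¹ : (ZMod m)ˣ) : ZMod m), ?_⟩
        rw [← Units.val_pow_eq_pow_val, inv_pow]
  have huniv : AA m k (k + k) = Finset.univ := by
    rcases hgrow (k + k) with h4 | h4
    · exact h4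
    · refine Finset.eq_univ_of_card _ (le_antisymm (Finset.card_le_univ _) ?_)
      refine le_trans ?_ h4
      rw [ZMod.card]
      have h5 : p ^ (τ + 1) ≤ 2 * (p ^ τ * (p - 1)) := by
        rw [pow_succ]
        have h6 : p ≤ 2 * (p - 1) := by
          have := hp.two_le
          omega
        calc p ^ τ * p ≤ p ^ τ * (2 * (p - 1)) := Nat.mul_le_mul_left _ h6
          _ = 2 * (p ^ τ * (p - 1)) := by ring
      calc m ≤ 2 * (p ^ τ * (p - 1)) := hm.le.trans h5
        _ ≤ 2 * (k * H.card) := Nat.mul_le_mul_left 2 hHcard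
        _ = (k + k) * H.card := by ring
        _ ≤ 1 + (k + k) * H.card := Nat.le_add_left _ _
  have h4 : (n : ZMod m) ∈ AA m k (k + k) := by
    rw [huniv]
    exact Finset.mem_univ _
  rw [mem_AA] at h4
  obtain ⟨r, hr⟩ := h4
  refine ⟨fun i => (r i).val, ?_⟩
  rw [← ZMod.natCast_eq_natCast_iff]
  unfold pw
  push_cast
  rw [← hr]
  exact Finset.sum_congr rfl fun i _ => by rw [ZMod.natCast_val, ZMod.cast_id]

end Pool.Agent.H12.TL
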