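import Pool.Agent.H12.TL.Hen
import Pool.Agent.H12.TL.Orb

/-!
# Module SOL: local solubility with 2k+1 summands for k not 4, 8, 16, ...

PROOF. (1) `sol_odd`: let `p^τ` divide `k` exactly. `orbit` gives `r : Fin (k+k) -> ℕ` with `pw k r ≡ n + p^(τ+1) - 1` modulo
`p^(τ+1)`. Then `u ≡ n - pw k r` modulo `p^j` (take `u = n + p^J * pw k r - pw k r` with `J >= j, τ+1`, which is `>= 0`) is
`≡ 1` modulo `p^(τ+1)`, `hensel_odd` gives `x`; take `Fin.snoc r x` (`Fin.sum_univ_castSucc`).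
(2) `sol_two`: (a) `k` odd: all summands `0` except one which is `0` or `1` such that `u = n - it` is odd (add a multiple of
`2^j` to `n` to avoid subtraction), and `hensel_two_odd`. (b) `k = 2^τ k0` with `τ >= 1`, `k0 >= 3` odd: let `1 <= n' <= 2^(τ+2)`,
`n' ≡ n` modulo `2^(τ+2)`; `n' - 1` summands equal to 1 (possible, `n' - 1 <= 2^(τ+2) - 1 < 4 k/3 <= 2k`), the others but one are 0,
and `u ≡ n - (n' - 1) ≡ 1` modulo `2^(τ+2)` by `hensel_two`. (c) `k = 2` (the only remaining case, as `k` is not `2^a`,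
`a >= 2`, and `k = 1` is odd): modulo `8`, choose `r_1..r_4 ∈ {0,1,2}` with `n - sum r_i^2 ≡ 1` modulo 8: `n mod 8 = 1,...,7,0`:
`0; 1; 1+1; 1+1+1; 4; 4+1; 4+1+1; 4+1+1+1`.
(3) `sol_all`: `Sol k 1` is trivial, prime powers by (1), (2); coprime `m1`, `m2`: take `r_i` with `r_i ≡ r1_i` modulo `m1`,
`≡ r2_i` modulo `m2` (`Nat.chineseRemainder`), then `pw k r ≡ n` modulo both, so modulo the product.
(`Nat.recOnPosPrimePosCoprime`.)
-/

set_option autoImplicit false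

namespace Pool.Agent.H12.TL

open Finset
open Pool.Agent.H26.LDP (e)

private theorem pw_snoc (k : ℕ) {K : ℕ} (r : Fin K → ℕ) (x : ℕ) :
    pw k (Fin.snoc (α := fun _ => ℕ) r x : Fin (K + 1) → ℕ) = pw k r + x ^ k := by
  unfold pw
  rw [Fin.sum_univ_castSucc]
  simp only [Fin.snoc_castSucc, Fin.snoc_last]

private theorem pw_ones (k : ℕ) (hk : 1 ≤ k) {c K : ℕ} (hc : c ≤ K) :
    ∃ r : Fin K → ℕ, pw k r = c := by
  refine ⟨fun i => if i.1 < c then 1 else 0, ?_⟩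
  unfold pw
  have h1 : ∀ i ∈ (Finset.univ : Finset (Fin K)), (if i.1 < c then 1 else 0) ^ k =
      if i.1 < c then 1 else 0 := by
    intro i _
    split_ifs
    · exact one_pow k
    · exact zero_pow (by omega)
  rw [Finset.sum_congr rfl h1, Fin.sum_univ_eq_sum_range (fun i => if i < c then 1 else 0) K,
    ← Finset.sum_filter, Finset.sum_const, smul_eq_mul, mul_one]
  have h2 : (Finset.range K).filter (fun i => i < c) = Finset.range c := by
    ext i
    rw [Finset.mem_filter, Finset.mem_range, Finset.mem_range]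
    omega
  rw [h2, Finset.card_range]

private theorem sol_step {k p s n : ℕ} (hp : 1 ≤ p) (r : Fin (k + k) → ℕ)
    (hr : pw k r + 1 ≡ n [MOD p ^ s])
    (hh : ∀ u j : ℕ, u ≡ 1 [MOD p ^ s] → ∃ x : ℕ, x ^ k ≡ u [MOD p ^ j]) (j : ℕ) :
    ∃ r : Fin (k + k + 1) → ℕ, pw k r ≡ n [MOD p ^ j] := by
  set c : ℕ := pw k r with hc
  set u : ℕ := n + p ^ (j + s) * c - c with hu
  have hge : c ≤ p ^ (j + s) * c := Nat.le_mul_of_pos_left c (pow_pos hp _)
  have huc : c + u = n + p ^ (j + s) * c := by omega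
  have h0 : ∀ i : ℕ, i ≤ j + s → c + u ≡ n [MOD p ^ i] := by
    intro i hi
    rw [huc]
    have h1 : p ^ (j + s) * c ≡ 0 [MOD p ^ i] :=
      Nat.modEq_zero_iff_dvd.2 (Dvd.dvd.mul_right (pow_dvd_pow p hi) c)
    exact (h1.add_left n)
  have h1 : u ≡ 1 [MOD p ^ s] := by
    have h2 := (h0 s (by omega)).trans hr.symm
    exact Nat.ModEq.add_left_cancel' c h2
  obtain ⟨x, hx⟩ := hh u j h1
  refine ⟨(Fin.snoc (α := fun _ => ℕ) r x : Fin (k + k + 1) → ℕ), ?_⟩
  rw [pw_snoc]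
  exact (hx.add_left c).trans (h0 j (by omega))

theorem sol_odd (k p j : ℕ) (hk : 1 ≤ k) (hp : p.Prime) (h2 : p ≠ 2) : Sol k (p ^ j) := by
  intro n
  obtain ⟨τ, k0, hk0, hkk⟩ := Nat.exists_eq_pow_mul_and_not_dvd (n := k) (by omega) p hp.ne_one
  have h1 : p ^ τ ∣ k := ⟨k0, hkk⟩
  have h3 : ¬ p ^ (τ + 1) ∣ k := by
    rintro ⟨q, hq⟩
    rw [hkk, pow_succ, mul_assoc] at hq
    exact hk0 ⟨q, Nat.eq_of_mul_eq_mul_left (pow_pos hp.pos τ) hq⟩
  obtain ⟨r, hr⟩ := orbit k p τ hk hp h2 h1 h3 (n + p ^ (τ + 1) - 1)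
  refine sol_step (s := τ + 1) hp.one_lt.le r ?_
    (fun u j hu => hensel_odd k p τ hk hp h2 h1 h3 u j hu) j
  have h4 := hr.add_right 1
  have h5 : n + p ^ (τ + 1) - 1 + 1 = n + p ^ (τ + 1) := by
    have := pow_pos hp.pos (τ + 1)
    omega
  rw [h5] at h4
  refine h4.trans ?_
  have h6 : p ^ (τ + 1) ≡ 0 [MOD p ^ (τ + 1)] := Nat.modEq_zero_iff_dvd.2 dvd_rfl
  exact h6.add_left n

theorem sol_two (k j : ℕ) (hk : 1 ≤ k) (h : ¬ ∃ a : ℕ, 2 ≤ a ∧ k = 2 ^ a) : Sol k (2 ^ j) := by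
  intro n
  rcases Nat.even_or_odd k with hke | hko
  · obtain ⟨τ, k0, hk0, hkk⟩ := Nat.exists_eq_pow_mul_and_not_dvd (n := k) (by omega) 2
      (by norm_num)
    have h1 : 2 ^ τ ∣ k := ⟨k0, hkk⟩
    have h3 : ¬ 2 ^ (τ + 1) ∣ k := by
      rintro ⟨q, hq⟩
      rw [hkk, pow_succ, mul_assoc] at hq
      exact hk0 ⟨q, Nat.eq_of_mul_eq_mul_left (pow_pos two_pos τ) hq⟩
    -- the residue
    set c : ℕ := (n + 2 ^ (τ + 2) - 1) % 2 ^ (τ + 2) with hc
    have hP : 0 < 2 ^ (τ + 2) := pow_pos two_pos _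
    have hclt : c < 2 ^ (τ + 2) := Nat.mod_lt _ hP
    have hcn : c + 1 ≡ n [MOD 2 ^ (τ + 2)] := by
      have h4 : c ≡ n + 2 ^ (τ + 2) - 1 [MOD 2 ^ (τ + 2)] := Nat.mod_modEq _ _
      have h5 := h4.add_right 1
      have h6 : n + 2 ^ (τ + 2) - 1 + 1 = n + 2 ^ (τ + 2) := by omega
      rw [h6] at h5
      refine h5.trans ?_
      have h7 : 2 ^ (τ + 2) ≡ 0 [MOD 2 ^ (τ + 2)] := Nat.modEq_zero_iff_dvd.2 dvd_rfl
      exact h7.add_left n
    have hrep : ∃ r : Fin (k + k) → ℕ, pw k r = c := by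
      by_cases hk01 : k0 = 1
      · rw [hk01, mul_one] at hkk
        have hτ : τ = 1 := by
          have h5 : ¬ 2 ≤ τ := fun h6 => h ⟨τ, h6, hkk⟩
          have h6 : τ ≠ 0 := by
            rintro rfl
            rw [pow_zero] at hkk
            rw [hkk] at hke
            exact absurd hke (by decide)
          omega
        rw [hτ] at hkk hclt
        rw [pow_one] at hkk
        subst hkk
        norm_num at hclt
        clear_value c
        interval_cases c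
        · exact ⟨![0, 0, 0, 0], by decide⟩
        · exact ⟨![1, 0, 0, 0], by decide⟩
        · exact ⟨![1, 1, 0, 0], by decide⟩
        · exact ⟨![1, 1, 1, 0], by decide⟩
        · exact ⟨![2, 0, 0, 0], by decide⟩
        · exact ⟨![2, 1, 0, 0], by decide⟩
        · exact ⟨![2, 1, 1, 0], by decide⟩
        · exact ⟨![2, 1, 1, 1], by decide⟩
      · refine pw_ones k hk ?_
        have hk03 : 3 ≤ k0 := by
          rcases Nat.lt_or_ge k0 3 with h5 | h5
          · exfalso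
            interval_cases k0
            · exact hk0 (dvd_zero 2)
            · exact hk01 rfl
            · exact hk0 dvd_rfl
          · exact h5
        have h6 : 2 ^ (τ + 2) ≤ k + k := by
          have h7 : 2 ^ (τ + 2) = 2 ^ τ * 4 := by rw [pow_add]; norm_num
          have h8 : 2 ^ τ * 3 ≤ 2 ^ τ * k0 := Nat.mul_le_mul_left _ hk03
          rw [← hkk] at h8
          omega
        omega
    obtain ⟨r, hr⟩ := hrep
    refine sol_step (s := τ + 2) one_le_two r (by rw [hr]; exact hcn)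
      (fun u j hu => hensel_two k τ hk h1 h3 u j hu) j
  · -- odd exponents
    have hh : ∀ u : ℕ, Odd u → ∃ x : ℕ, x ^ k ≡ u [MOD 2 ^ j] := fun u hu =>
      hensel_two_odd k hko u j hu
    rcases Nat.even_or_odd n with hn | hn
    · obtain ⟨r, hr⟩ := pw_ones k hk (c := 1) (K := k + k) (by omega)
      have h4 : 2 ∣ n := hn.two_dvd
      have hP : 0 < 2 ^ j := pow_pos two_pos _
      obtain ⟨x, hx⟩ := hh (n + 2 ^ (j + 1) - 1) (by
        obtain ⟨q, hq⟩ := h4
        refine ⟨q + 2 ^ j - 1, ?_⟩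
        rw [pow_succ]
        omega)
      refine ⟨(Fin.snoc (α := fun _ => ℕ) r x : Fin (k + k + 1) → ℕ), ?_⟩
      rw [pw_snoc, hr]
      refine (hx.add_left 1).trans ?_
      have h5 : 1 + (n + 2 ^ (j + 1) - 1) = n + 2 ^ j * 2 := by
        rw [pow_succ]
        omega
      rw [h5]
      have h6 : 2 ^ j * 2 ≡ 0 [MOD 2 ^ j] := Nat.modEq_zero_iff_dvd.2 (dvd_mul_right _ _)
      exact h6.add_left n
    · obtain ⟨r, hr⟩ := pw_ones k hk (c := 0) (K := k + k) (by omega)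
      obtain ⟨x, hx⟩ := hh n hn
      refine ⟨(Fin.snoc (α := fun _ => ℕ) r x : Fin (k + k + 1) → ℕ), ?_⟩
      rw [pw_snoc, hr, zero_add]
      exact hx

private theorem pw_modEq (k : ℕ) {K m : ℕ} {r r' : Fin K → ℕ} (h : ∀ i, r i ≡ r' i [MOD m]) :
    pw k r ≡ pw k r' [MOD m] := by
  unfold pw
  rw [← ZMod.natCast_eq_natCast_iff]
  push_cast
  refine Finset.sum_congr rfl fun i _ => ?_
  have h1 := (ZMod.natCast_eq_natCast_iff _ _ _).2 (h i)
  rw [h1]

theorem sol_all (k m : ℕ) (hk : 1 ≤ k) (h : ¬ ∃ a : ℕ, 2 ≤ a ∧ k = 2 ^ a) (hm : 1 ≤ m) : Sol k m := by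
  induction m using Nat.recOnPosPrimePosCoprime with
  | prime_pow p n hp _ =>
    by_cases h2 : p = 2
    · rw [h2]
      exact sol_two k n hk h
    · exact sol_odd k p n hk hp h2
  | zero => omega
  | one =>
    intro n
    exact ⟨fun _ => 0, Nat.modEq_one⟩
  | coprime a b ha hb hab iha ihb =>
    intro n
    obtain ⟨r1, hr1⟩ := iha (by omega) n
    obtain ⟨r2, hr2⟩ := ihb (by omega) n
    let r : Fin (k + k + 1) → ℕ := fun i => (Nat.chineseRemainder hab (r1 i) (r2 i)).1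
    have hr : ∀ i, r i ≡ r1 i [MOD a] ∧ r i ≡ r2 i [MOD b] := fun i =>
      (Nat.chineseRemainder hab (r1 i) (r2 i)).2
    refine ⟨r, ?_⟩
    rw [← Nat.modEq_and_modEq_iff_modEq_mul hab]
    exact ⟨(pw_modEq k fun i => (hr i).1).trans hr1, (pw_modEq k fun i => (hr i).2).trans hr2⟩

end Pool.Agent.H12.TL
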