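import Pool.Agent.H12.TL.Sap
import Pool.Agent.H82.WP.WeylInv

/-!
# Module WEY: Weyl bound for f at fractions with large denominator

PROOF. Take `A` from `Pool.H82.WP.weyl_inv k`. Suppose the bound fails. By `S_ap` (shift the index by one: `m = 1..N`,
`N = card S <= M`) `f (b/d) = sum_(m in Icc 1 N) e (p.eval m)` with the real polynomial
`p = C (b/d) * (C q0 * X + C (x0 - q0))^k`, of degree at most `k`, `p.coeff k = b q0^k/d`. `weyl_inv` gives
`1 <= q <= (1/κ)^A` with `nn (q k! b q0^k/d) <= (1/κ)^A/M^k < 1/d`. Now `q k! b q0^k/d` is a rational number with denominator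
`d`: `nn < 1/d` forces it to be an integer (`nn x = |x - round x|`, and `d x`, `d round x` are integers), i.e.
`d ∣ q k! b q0^k`, hence `d ∣ q k!` (coprimality), so `d <= q k! <= k! (1/κ)^A < d`, a contradiction.
-/

set_option autoImplicit false

namespace Pool.Agent.H12.TL

open Finset
open Pool.Agent.H26.LDP (e)

private theorem wey_shift (F : ℕ → ℂ) (N : ℕ) :
    ∑ m ∈ Icc 1 N, F m = ∑ m ∈ range N, F (m + 1) := by
  induction N with
  | zero => simp
  | succ n ih => rw [sum_range_succ, sum_Icc_succ_top (by omega), ih]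

private theorem wey_poly (k : ℕ) (c a s : ℝ) :
    ∃ p : Polynomial ℝ, p.natDegree ≤ k ∧ p.coeff k = c * a ^ k ∧
      ∀ x : ℝ, p.eval x = c * (a * x + s) ^ k := by
  have h1 : (Polynomial.C a * Polynomial.X + Polynomial.C s : Polynomial ℝ).natDegree ≤ 1 :=
    Polynomial.natDegree_linear_le
  refine ⟨Polynomial.C c * (Polynomial.C a * Polynomial.X + Polynomial.C s) ^ k, ?_, ?_, ?_⟩
  · refine (Polynomial.natDegree_C_mul_le _ _).trans ?_
    refine Polynomial.natDegree_pow_le.trans ?_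
    calc k * _ ≤ k * 1 := Nat.mul_le_mul_left _ h1
      _ = k := mul_one k
  · rw [Polynomial.coeff_C_mul]
    congr 1
    have h2 := Polynomial.coeff_pow_of_natDegree_le (m := k) h1
    rw [mul_one] at h2
    rw [h2]
    simp
  · intro x
    simp

private theorem wey_dvd (n d : ℕ) (hd : 1 ≤ d)
    (h : Pool.Agent.H26.LDP.nn ((n : ℝ) / d) < 1 / d) : d ∣ n := by
  have hd0 : (0 : ℝ) < d := by exact_mod_cast hd
  obtain ⟨z, hz⟩ : ∃ z : ℤ, z = round ((n : ℝ) / d) := ⟨_, rfl⟩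
  unfold Pool.Agent.H26.LDP.nn at h
  rw [← hz] at h
  have h1 : |((n : ℤ) - (d : ℤ) * z : ℤ)| < 1 := by
    have h2 : (|((n : ℤ) - (d : ℤ) * z : ℤ)| : ℝ) < 1 := by
      push_cast
      have h3 : (n : ℝ) - d * z = d * ((n : ℝ) / d - z) := by
        field_simp
      rw [h3, abs_mul, abs_of_pos hd0]
      calc (d : ℝ) * |(n : ℝ) / d - z| < d * (1 / d) := mul_lt_mul_of_pos_left h hd0
        _ = 1 := by field_simp
    exact_mod_cast h2
  rw [Int.abs_lt_one_iff] at h1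
  have h2 : (d : ℤ) ∣ (n : ℤ) := ⟨z, by linarith⟩
  exact_mod_cast h2

theorem weyl_f (k : ℕ) (hk : 1 ≤ k) : ∃ A : ℕ, 1 ≤ A ∧ ∀ (M q0 r L d b : ℕ) (κ : ℝ), 0 < κ → κ ≤ 1 / 2 → 1 ≤ q0 →
    (S q0 r L).card ≤ M → (1 / κ) ^ A ≤ M → Nat.Coprime q0 d → Nat.Coprime b d →
    (k.factorial : ℝ) * (1 / κ) ^ A < d → (d : ℝ) * (1 / κ) ^ A < (M : ℝ) ^ k →
    ‖f k q0 r L ((b : ℝ) / d)‖ ≤ κ * M := by
  obtain ⟨A, hA, hw⟩ := Pool.H82.WP.weyl_inv k hk
  refine ⟨A, hA, ?_⟩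
  intro M q0 r L d b κ hκ hκ2 hq0 hcard hM hqd hbd hd1 hd2
  by_contra hcon
  rw [not_le] at hcon
  obtain ⟨x0, hx0⟩ := S_ap q0 r L hq0
  obtain ⟨p, hp1, hp2, hp3⟩ := wey_poly k ((b : ℝ) / d) q0 ((x0 : ℝ) - q0)
  have hκ1 : 0 < (1 / κ) ^ A := by positivity
  have hM0 : (0 : ℝ) < M := lt_of_lt_of_le hκ1 hM
  have hf : f k q0 r L ((b : ℝ) / d) = ∑ m ∈ Icc 1 (S q0 r L).card, e (p.eval (m : ℝ)) := by
    unfold f
    rw [hx0 (fun x => e ((b : ℝ) / d * (x : ℝ) ^ k)),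
      wey_shift (fun m => e (p.eval (m : ℝ)))]
    refine sum_congr rfl fun m _ => ?_
    rw [hp3]
    congr 2
    push_cast
    ring
  obtain ⟨q, hq1, hq2, hq3⟩ := hw M (S q0 r L).card κ p hκ hκ2 hcard hM hp1 (by
    rw [← hf]
    exact hcon.le)
  have hd0 : (0 : ℝ) < d := by
    refine lt_trans ?_ hd1
    positivity
  have hd : 1 ≤ d := by
    have : 0 < d := by exact_mod_cast hd0
    omega
  have h1 : (q : ℝ) * ((k.factorial : ℝ) * p.coeff k) =
      ((q * k.factorial * (b * q0 ^ k) : ℕ) : ℝ) / d := by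
    rw [hp2]
    push_cast
    ring
  rw [h1] at hq3
  have h2 : (1 / κ) ^ A / (M : ℝ) ^ k < 1 / d := by
    rw [div_lt_div_iff₀ (by positivity) hd0]
    linarith
  have h3 := wey_dvd _ d hd (lt_of_le_of_lt hq3 h2)
  have h4 : Nat.Coprime d (b * q0 ^ k) :=
    Nat.Coprime.mul_right hbd.symm (Nat.Coprime.pow_right k hqd.symm)
  have h5 : d ∣ q * k.factorial := h4.dvd_of_dvd_mul_right h3
  have h6 : d ≤ q * k.factorial :=
    Nat.le_of_dvd (Nat.mul_pos (by omega) (Nat.factorial_pos k)) h5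
  have h7 : (d : ℝ) ≤ q * k.factorial := by exact_mod_cast h6
  have h8 : (q : ℝ) * k.factorial ≤ (1 / κ) ^ A * k.factorial :=
    mul_le_mul_of_nonneg_right hq2 (Nat.cast_nonneg _)
  linarith

end Pool.Agent.H12.TL
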