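import Pool.Agent.H12.TL.Rep
import Pool.Agent.H12.TL.Wey
import Pool.Agent.H12.TL.Sol

/-!
# Module ALL: all classes, explicit conditions on the parameters

PROOF. `w` from `rep k`, `A` from `weyl_f k`. Given `n`, `sol_all` gives `r` with `pw k r ≡ n` modulo `q0`. Ranges
`L' = Fin.snoc (Fin.append L L) P : Fin (k+k+1) -> ℕ` (all `>= 4 q0 D^2`: `P >= L i`, `k >= 1`). Let `N = prod card S`.
By `card_S_lower` (`2 q0 <= 4 q0 D^2 <= L'_i`) `N >= prod L'_i/(2 q0)^(2k+1) = |Box L|^2 P/(2 q0)^(2k+1)`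
(`|Box L| = prod L i`, as `(L, 2L]` has `L` elements; `Fin.prod_univ_castSucc`, `Fin.prod_univ_add`). Suppose that no `x ∈ BoxR`
has `pw k x ≡ n` modulo `q1`. Then `rep` gives `(3/4) N <= |sum_(D < den a) ...| <= sum_a |F_1(a/q1)| |F_2(a/q1)| |f_P(a/q1)|`,
where `|f_P(a/q1)| <= κ P` by `weyl_f` with `M = P` and `den_spec` (`d = den q1 a > D >= k! (1/κ)^A`, `d <= q1`,
`card S <= P` by `card_S_le`, `d` divides `q1`, so it is prime to `q0`), and Cauchy-Schwarz with `parseval_le` for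
`F_1 = prod_(i<k) f k q0 (r (first)) (L i)`, `F_2` the same for the second half: `sum_a |F_1||F_2| <= q1 T`. So
`(3/4) |Box|^2 P/(2 q0)^(2k+1) <= κ P q1 T`, against the hypothesis (`T`, `|Box| >= 1`, `P >= 1`). So there is `x ∈ BoxR` with
`pw k x ≡ n` modulo `q1`, and modulo `q0` as `x_i ≡ r_i`; coprime moduli. `x_i` is in `(L'_i, 2 L'_i]`, so `1 <= x_i <= 2P`.
-/

set_option autoImplicit false

namespace Pool.Agent.H12.TL

open Finset
open Pool.Agent.H26.LDP (e)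

private theorem all_e (x : ℝ) : ‖e x‖ = 1 := by
  unfold Pool.Agent.H26.LDP.e
  have h1 : (2 * Real.pi * Complex.I * x : ℂ) = ((2 * Real.pi * x : ℝ) : ℂ) * Complex.I := by
    push_cast
    ring
  rw [h1]
  exact Complex.norm_exp_ofReal_mul_I _

private theorem all_prod {k : ℕ} {α : Type*} [CommMonoid α] (F : Fin (k + k + 1) → α) :
    ∏ i, F i = (∏ i : Fin k, F (Fin.castSucc (Fin.castAdd k i))) *
      (∏ i : Fin k, F (Fin.castSucc (Fin.natAdd k i))) * F (Fin.last (k + k)) := by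
  rw [Fin.prod_univ_castSucc, Fin.prod_univ_add]

theorem all_classes (k : ℕ) (hk : 3 ≤ k) (h2 : ¬ ∃ a : ℕ, 2 ≤ a ∧ k = 2 ^ a) : ∃ w A : ℕ, 1 ≤ A ∧
    ∀ (q0 q1 D P : ℕ) (L : Fin k → ℕ) (κ : ℝ), 1 ≤ q0 → 1 ≤ q1 → 1 ≤ D → Nat.Coprime q0 q1 → Rough w q1 →
    (∀ i, L i ≤ P) → (∀ i, 4 * q0 * D ^ 2 ≤ L i) → 0 < κ → κ ≤ 1 / 2 → (k.factorial : ℝ) * (1 / κ) ^ A ≤ D →
    (1 / κ) ^ A ≤ P → (q1 : ℝ) * (1 / κ) ^ A < (P : ℝ) ^ k →
    κ * q1 * (2 * (q0 : ℝ)) ^ (2 * k + 1) * (T k L (q0 * q1) : ℝ) ≤ ((Box L).card : ℝ) ^ 2 / 2 →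
    ∀ n : ℕ, ∃ x : Fin (k + k + 1) → ℕ, (∀ i, 1 ≤ x i ∧ x i ≤ 2 * P) ∧ pw k x ≡ n [MOD q0 * q1] := by
  classical
  obtain ⟨w, -, hrep⟩ := rep k hk
  obtain ⟨A, hA, hweyl⟩ := weyl_f k (by omega)
  refine ⟨w, A, hA, ?_⟩
  intro q0 q1 D P L κ hq0 hq1 hD hcop hrough hLP hLD hκ0 hκ1 hkD hκP hqP hmain n
  have hq0R : (1 : ℝ) ≤ q0 := by exact_mod_cast hq0
  have hq1R : (1 : ℝ) ≤ q1 := by exact_mod_cast hq1
  have hD2 : 1 ≤ D ^ 2 := Nat.one_le_pow _ _ hD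
  have hqD : 4 * q0 ≤ 4 * q0 * D ^ 2 := Nat.le_mul_of_pos_right _ hD2
  have hL4 : ∀ i, 4 * q0 ≤ L i := fun i => hqD.trans (hLD i)
  have hi0 : 0 < k := by omega
  have hP4 : 4 * q0 ≤ P := (hL4 ⟨0, hi0⟩).trans (hLP ⟨0, hi0⟩)
  have hPD : 4 * q0 * D ^ 2 ≤ P := (hLD ⟨0, hi0⟩).trans (hLP ⟨0, hi0⟩)
  have hP0 : (0 : ℝ) < P := by
    have : 0 < P := by omega
    exact_mod_cast this
  obtain ⟨r, hr⟩ := sol_all k q0 (by omega) h2 hq0 n
  obtain ⟨L', hL'⟩ : ∃ L' : Fin (k + k + 1) → ℕ,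
    L' = Fin.snoc (α := fun _ => ℕ) (Fin.append L L) P := ⟨_, rfl⟩
  have hLa : ∀ i : Fin k, L' (Fin.castSucc (Fin.castAdd k i)) = L i := by
    intro i
    rw [hL', Fin.snoc_castSucc, Fin.append_left]
  have hLb : ∀ i : Fin k, L' (Fin.castSucc (Fin.natAdd k i)) = L i := by
    intro i
    rw [hL', Fin.snoc_castSucc, Fin.append_right]
  have hLl : L' (Fin.last (k + k)) = P := by
    rw [hL', Fin.snoc_last]
  have hall : ∀ Q : ℕ → Prop, (∀ i, Q (L i)) → Q P → ∀ i, Q (L' i) := by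
    intro Q h1 h2 i
    induction i using Fin.lastCases with
    | last => rw [hLl]; exact h2
    | cast i =>
      induction i using Fin.addCases with
      | left i => rw [hLa]; exact h1 i
      | right i => rw [hLb]; exact h1 i
  have hL'D : ∀ i, 4 * q0 * D ^ 2 ≤ L' i := hall (fun x => 4 * q0 * D ^ 2 ≤ x) hLD hPD
  have hL'P : ∀ i, L' i ≤ P := hall (fun x => x ≤ P) hLP le_rfl
  -- it is enough to find a point of the box
  suffices hx : ∃ x ∈ BoxR q0 r L', pw k x ≡ n [MOD q1] by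
    obtain ⟨x, hxB, hxn⟩ := hx
    have hxS : ∀ i, x i ∈ S q0 (r i) (L' i) := fun i => (Fintype.mem_piFinset.1 hxB) i
    refine ⟨x, fun i => ?_, ?_⟩
    · have h1 := hxS i
      unfold S at h1
      rw [mem_filter, mem_Ioc] at h1
      have h3 := hL'P i
      omega
    · have h1 : pw k x ≡ pw k r [MOD q0] := by
        unfold pw
        refine Nat.ModEq.sum fun i _ => ?_
        have h3 := hxS i
        unfold S at h3
        rw [mem_filter] at h3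
        exact h3.2.pow k
      exact (Nat.modEq_and_modEq_iff_modEq_mul hcop).1 ⟨h1.trans hr, hxn⟩
  by_contra hcon
  push Not at hcon
  have hrp := hrep q0 q1 D n r L' hq0 hq1 hD hcop hrough hL'D
  have hempty : (BoxR q0 r L').filter (fun x => pw k x ≡ n [MOD q1]) = ∅ := by
    rw [filter_eq_empty_iff]
    exact fun x hx => hcon x hx
  rw [hempty, card_empty, Nat.cast_zero, mul_zero, zero_sub] at hrp
  obtain ⟨N, hN⟩ : ∃ N : ℝ, N = ∏ i, ((S q0 (r i) (L' i)).card : ℝ) := ⟨_, rfl⟩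
  have hNC : ∏ i, ((S q0 (r i) (L' i)).card : ℂ) = (N : ℂ) := by
    rw [hN]
    push_cast
    rfl
  rw [hNC, ← hN] at hrp
  obtain ⟨Sg, hSg⟩ : ∃ Sg : ℂ, Sg = ∑ a ∈ (range q1).filter (fun a => D < den q1 a),
            e (-((a : ℝ) / q1 * n)) * ∏ i, f k q0 (r i) (L' i) ((a : ℝ) / q1) := ⟨_, rfl⟩
  rw [← hSg] at hrp
  have hN0 : 0 ≤ N := by rw [hN]; exact prod_nonneg fun i _ => Nat.cast_nonneg _
  have hSg1 : 3 / 4 * N ≤ ‖Sg‖ := by
    have h1 : ‖(N : ℂ)‖ ≤ ‖-(N : ℂ) - Sg‖ + ‖Sg‖ := by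
      have h3 : (N : ℂ) = -((-(N : ℂ) - Sg) + Sg) := by ring
      calc ‖(N : ℂ)‖ = ‖-((-(N : ℂ) - Sg) + Sg)‖ := by rw [← h3]
        _ = ‖(-(N : ℂ) - Sg) + Sg‖ := norm_neg _
        _ ≤ _ := norm_add_le _ _
    rw [Complex.norm_real, Real.norm_of_nonneg hN0] at h1
    linarith
  -- upper bound
  obtain ⟨F1, hF1⟩ : ∃ F1 : ℕ → ℂ, ∀ a, F1 a = ∏ i : Fin k,
    f k q0 (r (Fin.castSucc (Fin.castAdd k i))) (L i) ((a : ℝ) / q1) := ⟨_, fun _ => rfl⟩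
  obtain ⟨F2, hF2⟩ : ∃ F2 : ℕ → ℂ, ∀ a, F2 a = ∏ i : Fin k,
    f k q0 (r (Fin.castSucc (Fin.natAdd k i))) (L i) ((a : ℝ) / q1) := ⟨_, fun _ => rfl⟩
  have hp1 := parseval_le k q0 q1 hq1 hcop (fun i : Fin k => r (Fin.castSucc (Fin.castAdd k i))) L
  have hp2 := parseval_le k q0 q1 hq1 hcop (fun i : Fin k => r (Fin.castSucc (Fin.natAdd k i))) L
  simp only [← hF1] at hp1
  simp only [← hF2] at hp2
  have hSg2 : ‖Sg‖ ≤ κ * P * (q1 * (T k L (q0 * q1) : ℝ)) := by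
    rw [hSg]
    refine (norm_sum_le _ _).trans ?_
    have h1 : ∀ a ∈ (range q1).filter (fun a => D < den q1 a),
        ‖e (-((a : ℝ) / q1 * n)) * ∏ i, f k q0 (r i) (L' i) ((a : ℝ) / q1)‖ ≤
        κ * P * ((‖F1 a‖ ^ 2 + ‖F2 a‖ ^ 2) / 2) := by
      intro a ha
      rw [mem_filter, mem_range] at ha
      rw [norm_mul, all_e, one_mul, all_prod, norm_mul, norm_mul]
      simp only [hLa, hLb, hLl]
      rw [← hF1, ← hF2]
      obtain ⟨b, hbd, hab, hdq, hd1⟩ := den_spec q1 a hq1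
      have h3 : ‖f k q0 (r (Fin.last (k + k))) P ((a : ℝ) / q1)‖ ≤ κ * P := by
        rw [hab]
        refine hweyl P q0 _ P (den q1 a) b κ hκ0 hκ1 hq0 (card_S_le _ _ _) hκP
          (hcop.coprime_dvd_right hdq) hbd ?_ ?_
        · refine lt_of_le_of_lt hkD ?_
          exact_mod_cast ha.2
        · refine lt_of_le_of_lt ?_ hqP
          have h4 : den q1 a ≤ q1 := Nat.le_of_dvd (by omega) hdq
          have h5 : (den q1 a : ℝ) ≤ q1 := by exact_mod_cast h4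
          exact mul_le_mul_of_nonneg_right h5 (by positivity)
      have h4 : ‖F1 a‖ * ‖F2 a‖ ≤ (‖F1 a‖ ^ 2 + ‖F2 a‖ ^ 2) / 2 := by
        nlinarith [sq_nonneg (‖F1 a‖ - ‖F2 a‖)]
      calc ‖F1 a‖ * ‖F2 a‖ * ‖f k q0 (r (Fin.last (k + k))) P ((a : ℝ) / q1)‖ ≤
            (‖F1 a‖ ^ 2 + ‖F2 a‖ ^ 2) / 2 * (κ * P) :=
            mul_le_mul h4 h3 (norm_nonneg _) (by positivity)
        _ = κ * P * ((‖F1 a‖ ^ 2 + ‖F2 a‖ ^ 2) / 2) := by ring
    refine (sum_le_sum h1).trans ?_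
    rw [← mul_sum]
    refine mul_le_mul_of_nonneg_left ?_ (by positivity)
    calc ∑ a ∈ (range q1).filter (fun a => D < den q1 a), (‖F1 a‖ ^ 2 + ‖F2 a‖ ^ 2) / 2 ≤
          ∑ a ∈ range q1, (‖F1 a‖ ^ 2 + ‖F2 a‖ ^ 2) / 2 :=
          sum_le_sum_of_subset_of_nonneg (filter_subset _ _) (fun a _ _ => by positivity)
      _ = (∑ a ∈ range q1, ‖F1 a‖ ^ 2 + ∑ a ∈ range q1, ‖F2 a‖ ^ 2) / 2 := by
          rw [← sum_div, sum_add_distrib]
      _ ≤ q1 * (T k L (q0 * q1) : ℝ) := by linarith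
  -- lower bound of N
  obtain ⟨b, hb⟩ : ∃ b : ℝ, b = ((Box L).card : ℝ) := ⟨_, rfl⟩
  have hbL : b = ∏ i, (L i : ℝ) := by
    rw [hb]
    unfold Box
    rw [Fintype.card_piFinset]
    push_cast
    refine prod_congr rfl fun i _ => ?_
    rw [Nat.card_Ioc]
    congr 1
    omega
  have hb0 : 0 < b := by
    rw [hbL]
    refine prod_pos fun i _ => ?_
    have : 0 < L i := by
      have := hL4 i
      omega
    exact_mod_cast this
  have hNlow : b ^ 2 * P ≤ N * (2 * (q0 : ℝ)) ^ (2 * k + 1) := by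
    have h1 : ∀ i, (L' i : ℝ) ≤ ((S q0 (r i) (L' i)).card : ℝ) * (2 * q0) := by
      intro i
      have h3 := card_S_lower q0 (r i) (L' i) hq0 (by
        have := hL'D i
        omega)
      rwa [div_le_iff₀ (by positivity)] at h3
    have h3 : ∏ i, (L' i : ℝ) ≤ ∏ i, (((S q0 (r i) (L' i)).card : ℝ) * (2 * q0)) :=
      prod_le_prod (fun i _ => Nat.cast_nonneg _) (fun i _ => h1 i)
    rw [prod_mul_distrib, prod_const, card_univ, Fintype.card_fin, ← hN,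
      all_prod (fun i => (L' i : ℝ))] at h3
    simp only [hLa, hLb, hLl] at h3
    rw [← hbL] at h3
    have e1 : k + k + 1 = 2 * k + 1 := by omega
    rw [e1] at h3
    calc b ^ 2 * P = b * b * P := by ring
      _ ≤ N * (2 * (q0 : ℝ)) ^ (2 * k + 1) := h3
  rw [← hb] at hmain
  have h5 : 3 / 4 * N ≤ κ * P * (q1 * (T k L (q0 * q1) : ℝ)) := hSg1.trans hSg2
  have h6 : 3 / 4 * (b ^ 2 * P) ≤ b ^ 2 / 2 * P := by
    calc 3 / 4 * (b ^ 2 * P) ≤ 3 / 4 * (N * (2 * (q0 : ℝ)) ^ (2 * k + 1)) := by gcongr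
      _ = 3 / 4 * N * (2 * (q0 : ℝ)) ^ (2 * k + 1) := by ring
      _ ≤ κ * P * (q1 * (T k L (q0 * q1) : ℝ)) * (2 * (q0 : ℝ)) ^ (2 * k + 1) :=
          mul_le_mul_of_nonneg_right h5 (by positivity)
      _ = (κ * q1 * (2 * (q0 : ℝ)) ^ (2 * k + 1) * (T k L (q0 * q1) : ℝ)) * P := by ring
      _ ≤ b ^ 2 / 2 * P := mul_le_mul_of_nonneg_right hmain hP0.le
  have h7 : 0 < b ^ 2 * P := by positivity
  linarith

end Pool.Agent.H12.TL
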