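import Pool.Agent.H12.TL.Rep
import Pool.Agent.H12.TL.Wey
import Pool.Agent.H12.TL.Sol

/-!
# Module ALM: almost all classes, explicit conditions on the parameters

PROOF. `w` from `rep k`, `A` from `weyl_f k`. For every `h < q0` choose `r = r^(h)` with `pw k r ≡ h` modulo `q0` (`sol_all`), and
the ranges `L' = Fin.snoc L P : Fin (k+k+1) -> ℕ`. `N = N_h = prod card S >= |Box L| P/(2 q0)^(2k+1)` as in ALL. Let `n < q0 q1`
be bad, `h = n % q0`. Then no `x ∈ BoxR q0 r L'` has `pw k x ≡ n` modulo `q1` (such an `x` has `1 <= x_i <= 2P` and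
`pw k x ≡ n` modulo `q0 q1`), so by `rep` `|E_h(n)| >= (3/4) N`, `E_h(n) = sum_(D < den a) e(-a n/q1) prod f`, which depends only on
`n` modulo `q1`. The pairs `(n % q0, n % q1)` determine `n < q0 q1`, so the number of bad `n` is at most
`sum_(h<q0) #{n < q1 : |E_h(n)| >= (3/4) N_h}`, and by `plancherel`, `weyl_f` (`|f_P| <= κ P`) and `parseval_le`:
`sum_(n<q1) |E_h(n)|^2 = q1 sum_(D < den a) |prod f|^2 <= q1 (κ P)^2 q1 T`. So
`#bad (9/16) (|Box| P)^2/(2 q0)^(4k+2) <= q0 q1^2 κ^2 P^2 T`, and `16/9 <= 2`.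
-/

set_option autoImplicit false

namespace Pool.Agent.H12.TL

open Finset
open Pool.Agent.H26.LDP (e)

private theorem alm_box_card {m : ℕ} (L : Fin m → ℕ) : (Box L).card = ∏ i, L i := by
  unfold Box
  rw [Fintype.card_piFinset]
  refine Finset.prod_congr rfl fun i _ => ?_
  rw [Nat.card_Ioc]
  omega

private theorem alm_pw_mod {k q0 m : ℕ} {x r : Fin m → ℕ} (h : ∀ i, x i ≡ r i [MOD q0]) :
    pw k x ≡ pw k r [MOD q0] := by
  unfold pw Nat.ModEq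
  rw [Finset.sum_nat_mod, Finset.sum_nat_mod univ q0 (fun i => r i ^ k)]
  congr 1
  exact Finset.sum_congr rfl fun i _ => (h i).pow k

private theorem alm_e_mod (q a n : ℕ) (hq : 1 ≤ q) :
    e (-((a : ℝ) / q * (n : ℝ))) = e (-((a : ℝ) / q * ((n % q : ℕ) : ℝ))) := by
  have hq0 : (q : ℝ) ≠ 0 := by
    have : (0 : ℝ) < q := by exact_mod_cast hq
    exact this.ne'
  have h1 : (n : ℝ) = q * ((n / q : ℕ) : ℝ) + ((n % q : ℕ) : ℝ) := by
    exact_mod_cast (Nat.div_add_mod n q).symm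
  have h2 : -((a : ℝ) / q * (n : ℝ)) = -((a : ℝ) / q * ((n % q : ℕ) : ℝ)) +
      ((-((a : ℤ) * ((n / q : ℕ) : ℤ)) : ℤ) : ℝ) := by
    rw [Int.cast_neg, Int.cast_mul, Int.cast_natCast, Int.cast_natCast]
    generalize ((n / q : ℕ) : ℝ) = t at *
    generalize ((n % q : ℕ) : ℝ) = s at *
    rw [h1]
    field_simp
    ring
  rw [h2, Pool.Agent.H26.LDP.e_add_int]

private theorem alm_num (B X P Y q1 κ TT Nh : ℝ) (hP : 0 < P) (hY : 0 < Y) (hB : 0 ≤ B)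
    (hX : 0 ≤ X) (hTT : 0 ≤ TT) (hN : X * P / Y ≤ Nh)
    (h1 : B * ((3 / 4) * Nh) ^ 2 ≤ q1 ^ 2 * (κ * P) ^ 2 * TT) :
    B * X ^ 2 ≤ 2 * q1 ^ 2 * κ ^ 2 * Y ^ 2 * TT := by
  have h3 : (X * P / Y) ^ 2 ≤ Nh ^ 2 := pow_le_pow_left₀ (by positivity) hN 2
  have h4 : B * (9 / 16 * (X * P / Y) ^ 2) ≤ q1 ^ 2 * (κ * P) ^ 2 * TT := by
    refine le_trans ?_ h1
    refine mul_le_mul_of_nonneg_left ?_ hB
    rw [mul_pow]
    nlinarith
  have h5 : B * X ^ 2 * (9 / 16 * (P / Y) ^ 2) ≤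
      2 * q1 ^ 2 * κ ^ 2 * Y ^ 2 * TT * (9 / 16 * (P / Y) ^ 2) := by
    have e1 : B * X ^ 2 * (9 / 16 * (P / Y) ^ 2) = B * (9 / 16 * (X * P / Y) ^ 2) := by
      field_simp
    have e2 : 2 * q1 ^ 2 * κ ^ 2 * Y ^ 2 * TT * (9 / 16 * (P / Y) ^ 2) =
        9 / 8 * (q1 ^ 2 * (κ * P) ^ 2 * TT) := by
      field_simp
      ring
    rw [e1, e2]
    have e3 : 0 ≤ q1 ^ 2 * (κ * P) ^ 2 * TT := by positivity
    linarith
  exact le_of_mul_le_mul_right h5 (by positivity)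

private theorem alm_tri (q1 N : ℝ) (E : ℂ) (hN : 0 ≤ N)
    (h : ‖(q1 : ℂ) * ((0 : ℕ) : ℂ) - (N : ℂ) - E‖ ≤ (1 / 4) * N) : (3 / 4) * N ≤ ‖E‖ := by
  rw [Nat.cast_zero, mul_zero, zero_sub] at h
  have h7 : ‖(N : ℂ)‖ = N := by rw [Complex.norm_real, Real.norm_of_nonneg hN]
  have h8 := norm_add_le (-(N : ℂ) - E) E
  rw [sub_add_cancel, norm_neg, h7] at h8
  linarith

theorem almost_classes (k : ℕ) (hk : 3 ≤ k) (h2 : ¬ ∃ a : ℕ, 2 ≤ a ∧ k = 2 ^ a) : ∃ w A : ℕ, 1 ≤ A ∧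
    ∀ (q0 q1 D P : ℕ) (L : Fin (k + k) → ℕ) (κ : ℝ), 1 ≤ q0 → 1 ≤ q1 → 1 ≤ D → Nat.Coprime q0 q1 → Rough w q1 →
    (∀ i, L i ≤ P) → (∀ i, 4 * q0 * D ^ 2 ≤ L i) → 0 < κ → κ ≤ 1 / 2 → (k.factorial : ℝ) * (1 / κ) ^ A ≤ D →
    (1 / κ) ^ A ≤ P → (q1 : ℝ) * (1 / κ) ^ A < (P : ℝ) ^ k →
    (({n : ℕ | n < q0 * q1 ∧ ¬ ∃ x : Fin (k + k + 1) → ℕ, (∀ i, 1 ≤ x i ∧ x i ≤ 2 * P) ∧
      pw k x ≡ n [MOD q0 * q1]}).ncard : ℝ) * ((Box L).card : ℝ) ^ 2
      ≤ 2 * q0 * (q1 : ℝ) ^ 2 * κ ^ 2 * (2 * (q0 : ℝ)) ^ (4 * k + 2) * (T k L (q0 * q1) : ℝ) := by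
  classical
  obtain ⟨w, hw, hrep⟩ := rep k hk
  obtain ⟨A, hA, hweyl⟩ := weyl_f k (by omega)
  refine ⟨w, A, hA, ?_⟩
  intro q0 q1 D P L κ hq0 hq1 hD hc hrough hLP hL hκ hκ2 hfD hAP hqP
  have h1κ : (1 : ℝ) ≤ 1 / κ := by
    rw [le_div_iff₀ hκ]
    linarith
  have hP1 : (1 : ℝ) ≤ P := le_trans (one_le_pow₀ h1κ) hAP
  have hP0 : (0 : ℝ) < P := by linarith
  have hq0r : (0 : ℝ) < q0 := by exact_mod_cast hq0
  have hq1r : (0 : ℝ) < q1 := by exact_mod_cast hq1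
  choose r hr using fun h : ℕ => sol_all k q0 (by omega) h2 hq0 h
  let L' : Fin (k + k + 1) → ℕ := Fin.snoc (α := fun _ => ℕ) L P
  have hLc : ∀ i : Fin (k + k), L' i.castSucc = L i := fun i => Fin.snoc_castSucc (α := fun _ => ℕ) P L i
  have hLl : L' (Fin.last (k + k)) = P := Fin.snoc_last (α := fun _ => ℕ) P L
  have hPD : 4 * q0 * D ^ 2 ≤ P := (hL ⟨0, by omega⟩).trans (hLP ⟨0, by omega⟩)
  have hL'P : ∀ i, L' i ≤ P := by
    intro i
    refine Fin.lastCases ?_ (fun j => ?_) i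
    · rw [hLl]
    · rw [hLc]; exact hLP j
  have hL'D : ∀ i, 4 * q0 * D ^ 2 ≤ L' i := by
    intro i
    refine Fin.lastCases ?_ (fun j => ?_) i
    · rw [hLl]; exact hPD
    · rw [hLc]; exact hL j
  have hD2 : 1 ≤ D ^ 2 := Nat.one_le_pow _ _ hD
  have hL'2 : ∀ i, 2 * q0 ≤ L' i := by
    intro i
    refine le_trans ?_ (hL'D i)
    nlinarith
  -- the quantities
  obtain ⟨N, hNd⟩ : ∃ N : ℕ → ℝ, ∀ h, N h = ∏ i, ((S q0 (r h i) (L' i)).card : ℝ) :=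
    ⟨_, fun _ => rfl⟩
  obtain ⟨F, hFd⟩ : ∃ F : ℕ → ℕ → ℂ, ∀ h a, F h a =
      ∏ i, f k q0 (r h i) (L' i) ((a : ℝ) / q1) := ⟨_, fun _ _ => rfl⟩
  obtain ⟨A', hA'd⟩ : ∃ A' : Finset ℕ, A' = (range q1).filter (fun a => D < den q1 a) := ⟨_, rfl⟩
  have hA's : A' ⊆ range q1 := by rw [hA'd]; exact Finset.filter_subset _ _
  obtain ⟨Ef, hEd⟩ : ∃ Ef : ℕ → ℕ → ℂ, ∀ h n, Ef h n =
      ∑ a ∈ A', e (-((a : ℝ) / q1 * n)) * F h a := ⟨_, fun _ _ => rfl⟩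
  have hNlow : ∀ h, ((Box L).card : ℝ) * P / (2 * (q0 : ℝ)) ^ (2 * k + 1) ≤ N h := by
    intro h
    have h1 : ((Box L).card : ℝ) * P / (2 * (q0 : ℝ)) ^ (2 * k + 1) = ∏ i, ((L' i : ℕ) : ℝ) / (2 * q0) := by
      rw [Finset.prod_div_distrib, Finset.prod_const, Finset.card_univ, Fintype.card_fin,
        Fin.prod_univ_castSucc, hLl, alm_box_card]
      rw [show k + k + 1 = 2 * k + 1 by ring]
      congr 2
      push_cast
      exact Finset.prod_congr rfl fun i _ => by rw [hLc]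
    rw [h1, hNd]
    refine Finset.prod_le_prod (fun i _ => by positivity) fun i _ => ?_
    exact card_S_lower q0 (r h i) (L' i) hq0 (hL'2 i)
  have hN0 : ∀ h, 0 ≤ N h := fun h => by
    rw [hNd]
    exact Finset.prod_nonneg fun i _ => Nat.cast_nonneg _
  -- bad n have large Ef
  have hbad : ∀ n : ℕ, (¬ ∃ x : Fin (k + k + 1) → ℕ, (∀ i, 1 ≤ x i ∧ x i ≤ 2 * P) ∧
      pw k x ≡ n [MOD q0 * q1]) → (3 / 4) * N (n % q0) ≤ ‖Ef (n % q0) (n % q1)‖ := by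
    intro n hn
    have h1 := hrep q0 q1 D n (r (n % q0)) L' hq0 hq1 hD hc hrough hL'D
    have h3 : ((BoxR q0 (r (n % q0)) L').filter (fun x => pw k x ≡ n [MOD q1])) = ∅ := by
      rw [Finset.filter_eq_empty_iff]
      intro x hx hxn
      apply hn
      unfold BoxR at hx
      rw [Fintype.mem_piFinset] at hx
      have hx' : ∀ i, (L' i < x i ∧ x i ≤ 2 * L' i) ∧ x i ≡ r (n % q0) i [MOD q0] := by
        intro i
        have := hx i
        unfold S at this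
        rw [Finset.mem_filter, Finset.mem_Ioc] at this
        exact this
      refine ⟨x, fun i => ⟨?_, ?_⟩, ?_⟩
      · have := (hx' i).1.1
        omega
      · have := (hx' i).1.2
        have := hL'P i
        omega
      · rw [← Nat.modEq_and_modEq_iff_modEq_mul hc]
        refine ⟨?_, hxn⟩
        have h4 : pw k x ≡ pw k (r (n % q0)) [MOD q0] := alm_pw_mod fun i => (hx' i).2
        exact (h4.trans (hr (n % q0))).trans (Nat.mod_modEq n q0)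
    rw [h3, Finset.card_empty] at h1
    have h5 : (∑ a ∈ (range q1).filter (fun a => D < den q1 a),
        e (-((a : ℝ) / q1 * n)) * ∏ i, f k q0 (r (n % q0) i) (L' i) ((a : ℝ) / q1)) =
        Ef (n % q0) (n % q1) := by
      rw [hEd, hA'd]
      refine Finset.sum_congr rfl fun a _ => ?_
      rw [alm_e_mod q1 a n hq1, hFd]
    rw [h5] at h1
    have h6 : (∏ i, ((S q0 (r (n % q0) i) (L' i)).card : ℂ)) = ((N (n % q0) : ℝ) : ℂ) := by
      rw [hNd]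
      push_cast
      rfl
    rw [h6, ← hNd] at h1
    refine alm_tri (q1 : ℝ) _ _ (hN0 _) ?_
    refine le_trans (le_of_eq ?_) h1
    push_cast
    rfl
  -- bound for the last factor
  have hlast : ∀ h, ∀ a ∈ A', ‖F h a‖ ≤
      ‖∏ i : Fin (k + k), f k q0 (r h i.castSucc) (L i) ((a : ℝ) / q1)‖ * (κ * P) := by
    intro h a ha
    rw [hA'd, Finset.mem_filter, Finset.mem_range] at ha
    rw [hFd, Fin.prod_univ_castSucc, norm_mul]
    have e1 : ∏ i : Fin (k + k), f k q0 (r h i.castSucc) (L' i.castSucc) ((a : ℝ) / q1) =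
        ∏ i : Fin (k + k), f k q0 (r h i.castSucc) (L i) ((a : ℝ) / q1) :=
      Finset.prod_congr rfl fun i _ => by rw [hLc]
    rw [e1, hLl]
    refine mul_le_mul_of_nonneg_left ?_ (norm_nonneg _)
    obtain ⟨b, hb1, hb2, hb3, hb4⟩ := den_spec q1 a hq1
    rw [hb2]
    have hdq : den q1 a ≤ q1 := Nat.le_of_dvd hq1 hb3
    have hdq' : ((den q1 a : ℕ) : ℝ) ≤ q1 := by exact_mod_cast hdq
    have hDd : (D : ℝ) < ((den q1 a : ℕ) : ℝ) := by exact_mod_cast ha.2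
    refine hweyl P q0 (r h (Fin.last (k + k))) P (den q1 a) b κ hκ hκ2 hq0 (card_S_le _ _ _) hAP
      (Nat.Coprime.coprime_dvd_right hb3 hc) hb1 (lt_of_le_of_lt hfD hDd) ?_
    refine lt_of_le_of_lt ?_ hqP
    exact mul_le_mul_of_nonneg_right hdq' (by positivity)
  have hPS := fun h => parseval_le k q0 q1 hq1 hc (fun i : Fin (k + k) => r h i.castSucc) L
  have hTT0 : (0 : ℝ) ≤ (T k L (q0 * q1) : ℝ) := Nat.cast_nonneg _
  generalize (T k L (q0 * q1) : ℝ) = TT at hPS hTT0 ⊢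
  -- second moment
  have hmom : ∀ h, ∑ n ∈ range q1, ‖Ef h n‖ ^ 2 ≤ (q1 : ℝ) ^ 2 * (κ * P) ^ 2 * TT := by
    intro h
    have h1 := plancherel q1 hq1 A' hA's (F h)
    have h3 : ∑ n ∈ range q1, ‖Ef h n‖ ^ 2 = (q1 : ℝ) * ∑ a ∈ A', ‖F h a‖ ^ 2 := by
      rw [← h1]
      exact Finset.sum_congr rfl fun n _ => by rw [hEd]
    rw [h3]
    have h4 : ∑ a ∈ A', ‖F h a‖ ^ 2 ≤ (κ * P) ^ 2 * ((q1 : ℝ) * TT) := by
      calc ∑ a ∈ A', ‖F h a‖ ^ 2
          ≤ ∑ a ∈ A', (κ * P) ^ 2 *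
              ‖∏ i : Fin (k + k), f k q0 (r h i.castSucc) (L i) ((a : ℝ) / q1)‖ ^ 2 := by
            refine Finset.sum_le_sum fun a ha => ?_
            rw [← mul_pow, mul_comm (κ * (P : ℝ))]
            exact pow_le_pow_left₀ (norm_nonneg _) (hlast h a ha) 2
        _ = (κ * P) ^ 2 * ∑ a ∈ A',
              ‖∏ i : Fin (k + k), f k q0 (r h i.castSucc) (L i) ((a : ℝ) / q1)‖ ^ 2 := by
            rw [Finset.mul_sum]
        _ ≤ (κ * P) ^ 2 * ∑ a ∈ range q1,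
              ‖∏ i : Fin (k + k), f k q0 (r h i.castSucc) (L i) ((a : ℝ) / q1)‖ ^ 2 := by
            refine mul_le_mul_of_nonneg_left ?_ (by positivity)
            exact Finset.sum_le_sum_of_subset_of_nonneg hA's fun _ _ _ => by positivity
        _ ≤ (κ * P) ^ 2 * ((q1 : ℝ) * TT) := by
            refine mul_le_mul_of_nonneg_left ?_ (by positivity)
            exact hPS h
    calc (q1 : ℝ) * ∑ a ∈ A', ‖F h a‖ ^ 2 ≤ (q1 : ℝ) * ((κ * P) ^ 2 * ((q1 : ℝ) * TT)) :=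
          mul_le_mul_of_nonneg_left h4 hq1r.le
      _ = _ := by ring
  -- the number of bad n for given h
  let Bh : ℕ → Finset ℕ := fun h => (range q1).filter (fun s => (3 / 4) * N h ≤ ‖Ef h s‖)
  have hBh : ∀ h, ((Bh h).card : ℝ) * ((Box L).card : ℝ) ^ 2 ≤
      2 * (q1 : ℝ) ^ 2 * κ ^ 2 * (2 * (q0 : ℝ)) ^ (4 * k + 2) * TT := by
    intro h
    have hYY : (2 * (q0 : ℝ)) ^ (4 * k + 2) = ((2 * (q0 : ℝ)) ^ (2 * k + 1)) ^ 2 := by
      rw [← pow_mul]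
      congr 1
      ring
    rw [hYY]
    refine alm_num ((Bh h).card : ℝ) ((Box L).card : ℝ) P ((2 * (q0 : ℝ)) ^ (2 * k + 1)) q1 κ TT
      (N h) hP0 (by positivity) (Nat.cast_nonneg _) (Nat.cast_nonneg _) hTT0 (hNlow h) ?_
    calc ((Bh h).card : ℝ) * ((3 / 4) * N h) ^ 2 = ∑ s ∈ Bh h, ((3 / 4) * N h) ^ 2 := by
          rw [Finset.sum_const, nsmul_eq_mul]
      _ ≤ ∑ s ∈ Bh h, ‖Ef h s‖ ^ 2 := by
          refine Finset.sum_le_sum fun s hs => ?_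
          have h3 := (Finset.mem_filter.mp hs).2
          have h4 := hN0 h
          exact pow_le_pow_left₀ (by positivity) h3 2
      _ ≤ ∑ s ∈ range q1, ‖Ef h s‖ ^ 2 :=
          Finset.sum_le_sum_of_subset_of_nonneg (Finset.filter_subset _ _)
            fun _ _ _ => by positivity
      _ ≤ _ := hmom h
  -- the bad set
  set Bad : Set ℕ := {n : ℕ | n < q0 * q1 ∧ ¬ ∃ x : Fin (k + k + 1) → ℕ,
    (∀ i, 1 ≤ x i ∧ x i ≤ 2 * P) ∧ pw k x ≡ n [MOD q0 * q1]} with hBad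
  have hfin : Bad.Finite := (Set.finite_lt_nat (q0 * q1)).subset fun n hn => hn.1
  have hcard : Bad.ncard ≤ ∑ h ∈ range q0, (Bh h).card := by
    rw [← Finset.card_sigma, ← Set.ncard_coe_finset]
    refine Set.ncard_le_ncard_of_injOn (fun n => (⟨n % q0, n % q1⟩ : Σ _ : ℕ, ℕ)) ?_ ?_
      (Finset.finite_toSet _)
    · intro n hn
      rw [Finset.mem_coe, Finset.mem_sigma, Finset.mem_range]
      refine ⟨Nat.mod_lt _ hq0, ?_⟩
      exact Finset.mem_filter.mpr ⟨Finset.mem_range.mpr (Nat.mod_lt _ hq1), hbad n hn.2⟩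
    · intro n hn n' hn' hnn
      simp only [Sigma.mk.injEq, heq_eq_eq] at hnn
      have h1 : n ≡ n' [MOD q0 * q1] :=
        (Nat.modEq_and_modEq_iff_modEq_mul hc).mp ⟨hnn.1, hnn.2⟩
      exact Nat.ModEq.eq_of_lt_of_lt h1 hn.1 hn'.1
  calc (Bad.ncard : ℝ) * ((Box L).card : ℝ) ^ 2
      ≤ ((∑ h ∈ range q0, (Bh h).card : ℕ) : ℝ) * ((Box L).card : ℝ) ^ 2 := by
        refine mul_le_mul_of_nonneg_right ?_ (by positivity)
        exact_mod_cast hcard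
    _ = ∑ h ∈ range q0, ((Bh h).card : ℝ) * ((Box L).card : ℝ) ^ 2 := by
        push_cast
        rw [Finset.sum_mul]
    _ ≤ ∑ _h ∈ range q0, 2 * (q1 : ℝ) ^ 2 * κ ^ 2 * (2 * (q0 : ℝ)) ^ (4 * k + 2) * TT :=
        Finset.sum_le_sum fun h _ => hBh h
    _ = 2 * q0 * (q1 : ℝ) ^ 2 * κ ^ 2 * (2 * (q0 : ℝ)) ^ (4 * k + 2) * TT := by
        rw [Finset.sum_const, Finset.card_range, nsmul_eq_mul]
        ring

end Pool.Agent.H12.TL
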