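import Pool.Agent.H12.TL.Sap

/-!
# Module CMP: comparison of f with a complete sum

PROOF. By `S_ap`, `f (b/d) = sum_(m < N) h(m)`, `h(m) = e (b/d * (x0 + q0 m)^k)`, `N = card S`. `h` has period `d`
(`(x0 + q0 (m+d))^k - (x0 + q0 m)^k` is divisible by `d`, and `e` of an integer is 1) and the sum of `h` over any `d`
consecutive `m` is `G k d b`, because `m -> x0 + q0 m` is a permutation modulo `d` (`q0` coprime to `d`). Write
`N = d K + R`, `R < d`: `f = K G + (at most d terms of modulus 1)`, and `N/d * G = K G + (R/d) G`, `|G| <= d`. So the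
difference is at most `R + R <= 2 d`.
-/

set_option autoImplicit false

namespace Pool.Agent.H12.TL

open Finset
open Pool.Agent.H26.LDP (e)

private theorem cmp_mod (k d b y : ℕ) (hd : 1 ≤ d) :
    e ((b : ℝ) / d * (y : ℝ) ^ k) = e ((b : ℝ) / d * ((y % d : ℕ) : ℝ) ^ k) := by
  have h1 : (y % d) ^ k ≤ y ^ k := Nat.pow_le_pow_left (Nat.mod_le y d) k
  have h2 : (y % d) ^ k ≡ y ^ k [MOD d] := (Nat.mod_modEq y d).pow k
  obtain ⟨t, ht⟩ := (Nat.modEq_iff_dvd' h1).mp h2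
  have h3 : y ^ k = (y % d) ^ k + d * t := by omega
  have h4 : (y : ℝ) ^ k = ((y % d : ℕ) : ℝ) ^ k + d * t := by exact_mod_cast h3
  have hd0 : (d : ℝ) ≠ 0 := by positivity
  have h5 : (b : ℝ) / d * (y : ℝ) ^ k = (b : ℝ) / d * ((y % d : ℕ) : ℝ) ^ k + ((b * t : ℕ) : ℤ) := by
    rw [h4]
    push_cast
    field_simp
  rw [h5, Pool.Agent.H26.LDP.e_add_int]

private theorem cmp_per (d : ℕ) (hd : 1 ≤ d) (h : ℕ → ℂ) (hp : ∀ m, h (m + d) = h m) (hn : ∀ m, ‖h m‖ ≤ 1) (N : ℕ) :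
    ‖∑ m ∈ range N, h m - (N : ℂ) / d * ∑ m ∈ range d, h m‖ ≤ 2 * d := by
  have hper : ∀ K m, h (d * K + m) = h m := by
    intro K
    induction K with
    | zero => intro m; simp
    | succ K ih =>
      intro m
      rw [show d * (K + 1) + m = (d * K + m) + d by ring, hp, ih]
  have hK : ∀ K : ℕ, ∑ m ∈ range (d * K), h m = (K : ℂ) * ∑ m ∈ range d, h m := by
    intro K
    induction K with
    | zero => simp
    | succ K ih =>
      rw [Nat.mul_succ, sum_range_add, ih]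
      simp only [hper]
      push_cast
      ring
  set W := ∑ m ∈ range d, h m with hW
  have hWn : ‖W‖ ≤ d := by
    calc ‖W‖ ≤ ∑ m ∈ range d, ‖h m‖ := norm_sum_le _ _
      _ ≤ ∑ _m ∈ range d, (1 : ℝ) := sum_le_sum fun m _ => hn m
      _ = d := by simp
  set R := N % d with hR
  have hRd : R < d := Nat.mod_lt _ hd
  have hN : N = d * (N / d) + R := (Nat.div_add_mod N d).symm
  have h1 : ∑ m ∈ range N, h m = ((N / d : ℕ) : ℂ) * W + ∑ m ∈ range R, h m := by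
    conv_lhs => rw [hN]
    rw [sum_range_add, hK]
    simp only [hper]
  have hd0 : (d : ℂ) ≠ 0 := by
    have : d ≠ 0 := by omega
    exact_mod_cast this
  have h2 : (N : ℂ) / d = ((N / d : ℕ) : ℂ) + (R : ℂ) / d := by
    have h3 : (N : ℂ) = d * ((N / d : ℕ) : ℂ) + R := by exact_mod_cast hN
    rw [h3, add_div, mul_div_cancel_left₀ _ hd0]
  rw [h1, h2]
  have h4 : ((N / d : ℕ) : ℂ) * W + ∑ m ∈ range R, h m - (((N / d : ℕ) : ℂ) + (R : ℂ) / d) * W =
      ∑ m ∈ range R, h m - (R : ℂ) / d * W := by ring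
  rw [h4]
  have h5 : ‖∑ m ∈ range R, h m‖ ≤ R := by
    calc ‖∑ m ∈ range R, h m‖ ≤ ∑ m ∈ range R, ‖h m‖ := norm_sum_le _ _
      _ ≤ ∑ _m ∈ range R, (1 : ℝ) := sum_le_sum fun m _ => hn m
      _ = R := by simp
  have hdr : (0 : ℝ) < d := by exact_mod_cast hd
  have h6 : ‖(R : ℂ) / d * W‖ ≤ R := by
    rw [norm_mul, norm_div, Complex.norm_natCast, Complex.norm_natCast]
    calc (R : ℝ) / d * ‖W‖ ≤ (R : ℝ) / d * d := mul_le_mul_of_nonneg_left hWn (by positivity)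
      _ = R := by field_simp
  have h7 : (R : ℝ) ≤ d := by exact_mod_cast hRd.le
  calc ‖∑ m ∈ range R, h m - (R : ℂ) / d * W‖ ≤ ‖∑ m ∈ range R, h m‖ + ‖(R : ℂ) / d * W‖ := norm_sub_le _ _
    _ ≤ 2 * d := by linarith

private theorem cmp_perm (k q0 d b x0 : ℕ) (hd : 1 ≤ d) (hc : Nat.Coprime q0 d) :
    ∑ m ∈ range d, e ((b : ℝ) / d * ((x0 + q0 * m : ℕ) : ℝ) ^ k) = G k d b := by
  unfold G
  have hinj : Set.InjOn (fun m => (x0 + q0 * m) % d) (range d : Set ℕ) := by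
    intro m hm m' hm' h
    simp only [coe_range, Set.mem_Iio] at hm hm'
    have h1 : x0 + q0 * m ≡ x0 + q0 * m' [MOD d] := h
    have h2 : q0 * m ≡ q0 * m' [MOD d] := Nat.ModEq.add_left_cancel' _ h1
    have h3 : m ≡ m' [MOD d] := Nat.ModEq.cancel_left_of_coprime (by rw [Nat.gcd_comm]; exact hc) h2
    exact Nat.ModEq.eq_of_lt_of_lt h3 hm hm'
  have hmaps : Set.MapsTo (fun m => (x0 + q0 * m) % d) (range d : Set ℕ) (range d : Set ℕ) := by
    intro m _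
    simp only [coe_range, Set.mem_Iio]
    exact Nat.mod_lt _ hd
  refine sum_nbij (fun m => (x0 + q0 * m) % d) hmaps hinj ?_ ?_
  · exact surjOn_of_injOn_of_card_le _ hmaps hinj le_rfl
  · intro m _
    exact cmp_mod k d b (x0 + q0 * m) hd

theorem cmp (k q0 r L d b : ℕ) (hq : 1 ≤ q0) (hd : 1 ≤ d) (hc : Nat.Coprime q0 d) :
    ‖f k q0 r L ((b : ℝ) / d) - ((S q0 r L).card : ℂ) / d * G k d b‖ ≤ 2 * d := by
  obtain ⟨x0, hx0⟩ := S_ap q0 r L hq
  unfold f
  rw [hx0 (fun x => e ((b : ℝ) / d * (x : ℝ) ^ k)), ← cmp_perm k q0 d b x0 hd hc]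
  apply cmp_per d hd (fun m => e ((b : ℝ) / d * ((x0 + q0 * m : ℕ) : ℝ) ^ k))
  · intro m
    show e ((b : ℝ) / d * ((x0 + q0 * (m + d) : ℕ) : ℝ) ^ k) = e ((b : ℝ) / d * ((x0 + q0 * m : ℕ) : ℝ) ^ k)
    rw [cmp_mod k d b (x0 + q0 * (m + d)) hd, cmp_mod k d b (x0 + q0 * m) hd]
    have : (x0 + q0 * (m + d)) % d = (x0 + q0 * m) % d := by
      rw [mul_add, ← add_assoc, Nat.add_mul_mod_self_right]
    rw [this]
  · intro m
    exact (Pool.Agent.H26.LDP.norm_e _).le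

end Pool.Agent.H12.TL
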