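import Pool.Agent.H12.TL.Defs

/-!
# Module DEC: decomposition of a modulus in smooth and rough part

PROOF. Strong induction on `q`, or `q0 = prod over the primes p <= w of p^(v_p(q))`, `q1 = q/q0`
(`Nat.factorization`, `Finsupp.prod_filter...`). By induction: if some prime `p <= w` divides `q`, write `q = p^v q'` with
`v = q.factorization p`, `p` not dividing `q' < q`, and apply the induction hypothesis to `q'`.
-/

set_option autoImplicit false

namespace Pool.Agent.H12.TL

open Finset
open Pool.Agent.H26.LDP (e)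

theorem decomp (w q : ℕ) (hq : 1 ≤ q) : ∃ q0 q1 : ℕ, q0 * q1 = q ∧ 1 ≤ q0 ∧ 1 ≤ q1 ∧ Nat.Coprime q0 q1 ∧
    Rough w q1 ∧ ∀ p : ℕ, p.Prime → p ∣ q0 → p ≤ w := by
  induction q using Nat.strong_induction_on with
  | _ q ih =>
    by_cases h : ∃ p : ℕ, p.Prime ∧ p ≤ w ∧ p ∣ q
    · obtain ⟨p, hp, hpw, q', rfl⟩ := h
      have hq' : 1 ≤ q' := by
        rcases Nat.eq_zero_or_pos q' with h0 | h0
        · rw [h0] at hq
          omega
        · exact h0
      have hlt : q' < p * q' := by
        have := hp.two_le
        nlinarith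
      obtain ⟨q0, q1, h1, h2, h3, h4, h5, h6⟩ := ih q' hlt hq'
      refine ⟨p * q0, q1, by rw [mul_assoc, h1], Nat.mul_pos hp.pos h2, h3, ?_, h5, ?_⟩
      · apply Nat.Coprime.mul_left _ h4
        rw [Nat.Prime.coprime_iff_not_dvd hp]
        intro hd
        have := h5 p hp hd
        omega
      · intro r hr hd
        rcases (Nat.Prime.dvd_mul hr).mp hd with h7 | h7
        · rw [(Nat.prime_dvd_prime_iff_eq hr hp).mp h7]
          exact hpw
        · exact h6 r hr h7
    · refine ⟨1, q, one_mul q, le_rfl, hq, Nat.coprime_one_left q, ?_, ?_⟩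
      · intro p hp hd
        by_contra hcon
        exact h ⟨p, hp, not_lt.mp hcon, hd⟩
      · intro p hp hd
        have := Nat.dvd_one.mp hd
        rw [this] at hp
        exact absurd hp Nat.not_prime_one

end Pool.Agent.H12.TL
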