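import Pool.Agent.H26.LDP.Defs

/-!
# Almost all moduli: 2k+1 genuine k-th powers and a multiple of q (MP_efcac8_nt, theorem T1): definitions

THEOREM. Let `k >= 3` and `lam (1 - (1-1/k)^k) > 1` (1.582 works for all `k`). If `k` is not `2^a` with `a >= 2`, then for all
but `C Q^(1-c)` moduli `q <= Q` EVERY integer `n >= q^lam` is `x_1^k + ... + x_(2k+1)^k + q m` with `x_i >= 1`, `m >= 0` and
`x_1^k + ... + x_(2k+1)^k <= q^lam`. If `k = 2^a`, `a >= 2`, this is false for every `q` divisible by `4k`.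

PROOF. `q = q0 q1`, `q0` the part composed of the primes `<= w` (at most `P^delta` for almost all `q`), `P ~ c Q^(lam/k)`.
Local solubility gives residues `r_i` modulo `q0` with `sum r_i^k = n` modulo `q0`; the variables run through
`S q0 r L`, the numbers of `(L,2L]` congruent to `r` modulo `q0`, with `L = L_1, ..., L_k` decreasing (`L_1 = P`,
`L_(i+1) = L_i^(1-1/k)/4`, so that the sums of `k` powers are pairwise distinct), the same again, and one more variable
of size `P`. The number of solutions modulo `q1` is `q1^-1 sum_a e(-an/q1) prod_i f_i(a/q1)`. Fractions `a/q1` with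
denominator `1 < d <= D`: complete sums, `|f_i| <= 2 N_i d^(-1/k)`, total at most `1/4` of the main term as `d > w`.
Denominator `> D`: Weyl for the last variable, Cauchy and Parseval for the others; this needs the number `T` of pairs of
box points with congruent sums modulo `q`, which is at most `|Box|^2 P^eps / Q` for almost all `q` by the divisor bound.
-/

set_option autoImplicit false

namespace Pool.Agent.H12.TL

open Finset
open Pool.Agent.H26.LDP (e)

/-- the numbers in `(L, 2L]` congruent to `r` modulo `q0` -/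
def S (q0 r L : ℕ) : Finset ℕ := (Ioc L (2 * L)).filter (fun x => x ≡ r [MOD q0])

/-- the exponential sum of `k`-th powers over `S` -/
noncomputable def f (k q0 r L : ℕ) (t : ℝ) : ℂ := ∑ x ∈ S q0 r L, e (t * (x : ℝ) ^ k)

/-- the complete exponential sum -/
noncomputable def G (k d b : ℕ) : ℂ := ∑ x ∈ range d, e ((b : ℝ) / d * (x : ℝ) ^ k)

/-- the full box -/
def Box {m : ℕ} (L : Fin m → ℕ) : Finset (Fin m → ℕ) := Fintype.piFinset (fun i => Ioc (L i) (2 * L i))

/-- the box with prescribed residues modulo `q0` -/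
def BoxR (q0 : ℕ) {m : ℕ} (r L : Fin m → ℕ) : Finset (Fin m → ℕ) := Fintype.piFinset (fun i => S q0 (r i) (L i))

/-- the sum of `k`-th powers -/
def pw (k : ℕ) {m : ℕ} (x : Fin m → ℕ) : ℕ := ∑ i, x i ^ k

/-- the number of pairs of points of the box with congruent sums -/
def T (k : ℕ) {m : ℕ} (L : Fin m → ℕ) (q : ℕ) : ℕ :=
  ((Box L ×ˢ Box L).filter (fun z => pw k z.1 ≡ pw k z.2 [MOD q])).card

/-- all prime factors exceed `w` -/
def Rough (w d : ℕ) : Prop := ∀ p : ℕ, p.Prime → p ∣ d → w < p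

/-- the denominator of `a / q` -/
def den (q a : ℕ) : ℕ := q / Nat.gcd a q

/-- every class modulo `m` is a sum of `2k+1` `k`-th powers -/
def Sol (k m : ℕ) : Prop := ∀ n : ℕ, ∃ r : Fin (k + k + 1) → ℕ, pw k r ≡ n [MOD m]

/-- every class modulo `q` contains a sum of `2k+1` positive `k`-th powers not exceeding `q^lam` -/
def GoodAll (k : ℕ) (lam : ℝ) (q : ℕ) : Prop :=
  ∀ n : ℕ, ∃ x : Fin (k + k + 1) → ℕ, (∀ i, 1 ≤ x i) ∧ pw k x ≡ n [MOD q] ∧ (pw k x : ℝ) ≤ (q : ℝ) ^ lam

/-- all but `q^(1-c)` classes modulo `q` contain a sum of `2k+1` positive `k`-th powers not exceeding `q^lam` -/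
def GoodAlm (k : ℕ) (lam c : ℝ) (q : ℕ) : Prop :=
  (({n : ℕ | n < q ∧ ¬ ∃ x : Fin (k + k + 1) → ℕ, (∀ i, 1 ≤ x i) ∧ pw k x ≡ n [MOD q] ∧
    (pw k x : ℝ) ≤ (q : ℝ) ^ lam}).ncard : ℝ) ≤ (q : ℝ) ^ (1 - c)

end Pool.Agent.H12.TL
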