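import Pool.Agent.H12.TL.Defs

/-!
# Module DYA: from dyadic intervals to all moduli

PROOF. Strong induction on `Q` (or a sum over `Q, Q/2, Q/4, ...`): the bad `q <= Q` are those with `Q < 2q` (at most
`C Q^(1-c)`) and the bad `q <= Q/2`, at most `C' (Q/2)^(1-c)` by induction (`Q/2` the integer part, `>= 1`, or there are none);
with `C' = C/(1 - 2^(-(1-c)))`: `C + C' 2^(-(1-c)) = C'`. (`c <= 1/2`, so `1 - c >= 1/2 > 0`.)
-/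

set_option autoImplicit false

namespace Pool.Agent.H12.TL

open Finset
open Pool.Agent.H26.LDP (e)

theorem dyadic (B : ℕ → Prop) (C c : ℝ) (hC : 0 < C) (hc : c ≤ 1 / 2)
    (h : ∀ Q : ℕ, 1 ≤ Q → (({q : ℕ | Q < 2 * q ∧ q ≤ Q ∧ B q}).ncard : ℝ) ≤ C * (Q : ℝ) ^ (1 - c)) :
    ∃ C' : ℝ, 0 < C' ∧ ∀ Q : ℕ, 1 ≤ Q → (({q : ℕ | 1 ≤ q ∧ q ≤ Q ∧ B q}).ncard : ℝ) ≤ C' * (Q : ℝ) ^ (1 - c) := by
  have hc1 : 0 < 1 - c := by linarith
  set ρ : ℝ := (1 / 2 : ℝ) ^ (1 - c) with hρ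
  have hρ0 : 0 < ρ := by positivity
  have hρ1 : ρ < 1 := Real.rpow_lt_one (by norm_num) (by norm_num) hc1
  have hden : 0 < 1 - ρ := by linarith
  refine ⟨C / (1 - ρ), by positivity, ?_⟩
  intro Q
  induction Q using Nat.strong_induction_on with
  | _ Q ih =>
    intro hQ
    have hQr : (1 : ℝ) ≤ Q := by exact_mod_cast hQ
    have hsub : {q : ℕ | 1 ≤ q ∧ q ≤ Q ∧ B q} ⊆
        {q : ℕ | Q < 2 * q ∧ q ≤ Q ∧ B q} ∪ {q : ℕ | 1 ≤ q ∧ q ≤ Q / 2 ∧ B q} := by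
      rintro q ⟨h1, h2, h3⟩
      by_cases h4 : Q < 2 * q
      · exact Or.inl ⟨h4, h2, h3⟩
      · exact Or.inr ⟨h1, by omega, h3⟩
    have hf1 : ({q : ℕ | Q < 2 * q ∧ q ≤ Q ∧ B q}).Finite := (Set.finite_Iic Q).subset (fun q hq => hq.2.1)
    have hf2 : ({q : ℕ | 1 ≤ q ∧ q ≤ Q / 2 ∧ B q}).Finite :=
      (Set.finite_Iic (Q / 2)).subset (fun q hq => hq.2.1)
    have h5 : ({q : ℕ | 1 ≤ q ∧ q ≤ Q ∧ B q}).ncard ≤ ({q : ℕ | Q < 2 * q ∧ q ≤ Q ∧ B q}).ncard +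
        ({q : ℕ | 1 ≤ q ∧ q ≤ Q / 2 ∧ B q}).ncard :=
      (Set.ncard_le_ncard hsub (hf1.union hf2)).trans (Set.ncard_union_le _ _)
    have h6 : (({q : ℕ | 1 ≤ q ∧ q ≤ Q / 2 ∧ B q}).ncard : ℝ) ≤ C / (1 - ρ) * (ρ * (Q : ℝ) ^ (1 - c)) := by
      rcases Nat.eq_zero_or_pos (Q / 2) with h7 | h7
      · have h8 : {q : ℕ | 1 ≤ q ∧ q ≤ Q / 2 ∧ B q} = ∅ := by
          ext q
          simp only [Set.mem_setOf_eq, Set.mem_empty_iff_false, iff_false]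
          rintro ⟨h1, h2, _⟩
          omega
        rw [h8, Set.ncard_empty, Nat.cast_zero]
        positivity
      · refine (ih (Q / 2) (by omega) h7).trans ?_
        apply mul_le_mul_of_nonneg_left _ (by positivity)
        rw [hρ, ← Real.mul_rpow (by norm_num) (by positivity)]
        apply Real.rpow_le_rpow (by positivity) _ hc1.le
        have : ((Q / 2 : ℕ) : ℝ) ≤ (Q : ℝ) / 2 := Nat.cast_div_le
        linarith
    calc (({q : ℕ | 1 ≤ q ∧ q ≤ Q ∧ B q}).ncard : ℝ)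
        ≤ (({q : ℕ | Q < 2 * q ∧ q ≤ Q ∧ B q}).ncard : ℝ) + (({q : ℕ | 1 ≤ q ∧ q ≤ Q / 2 ∧ B q}).ncard : ℝ) := by
          exact_mod_cast h5
      _ ≤ C * (Q : ℝ) ^ (1 - c) + C / (1 - ρ) * (ρ * (Q : ℝ) ^ (1 - c)) := add_le_add (h Q hQ) h6
      _ = C / (1 - ρ) * (Q : ℝ) ^ (1 - c) := by
          field_simp
          ring

end Pool.Agent.H12.TL
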