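import Pool.Agent.H12.TL.Defs

/-!
# Module NEG: the excluded exponents

PROOF. `k = 2^a`, `a >= 2`. For `x` odd `x^k ≡ 1` modulo `2^(a+2) = 4k` (induction on `a >= 1`: `x^2 ≡ 1` modulo 8, and
`(1 + 2^(a+2) t)^2 ≡ 1` modulo `2^(a+3)`), for `x` even `x^k ≡ 0` modulo `2^k`, and `2^(a+2)` divides `2^(2^a)` as
`a + 2 <= 2^a` for `a >= 2`. So the residue modulo `4k` of a sum of `2k+1` `k`-th powers is at most `2k+1 < 4k - 1` (the number
of odd `x_i`). Take `n = 4k (N+1) - 1 >= N` (`≡ 4k - 1` modulo `4k`); if `pw k x + q m = n` then `pw k x ≡ 4k - 1` modulo `4k`.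
-/

set_option autoImplicit false

namespace Pool.Agent.H12.TL

open Finset
open Pool.Agent.H26.LDP (e)

private theorem neg_odd {x : ℕ} (hx : x % 2 = 1) :
    ∀ a : ℕ, ∃ t, x ^ (2 ^ (a + 1)) = 2 ^ (a + 3) * t + 1 := by
  intro a
  induction a with
  | zero =>
    obtain ⟨y, hy⟩ : ∃ y, x = 2 * y + 1 := ⟨x / 2, by omega⟩
    obtain ⟨z, hz⟩ := (Nat.even_mul_succ_self y).two_dvd
    refine ⟨z, ?_⟩
    subst hy
    have h1 : (2 * y + 1) ^ (2 ^ (0 + 1)) = 4 * (y * (y + 1)) + 1 := by ring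
    rw [h1, hz]
    ring
  | succ a ih =>
    obtain ⟨t, ht⟩ := ih
    refine ⟨2 ^ (a + 2) * t ^ 2 + t, ?_⟩
    rw [pow_succ 2 (a + 1), pow_mul, ht]
    ring

private theorem neg_le : ∀ a : ℕ, a + 4 ≤ 2 ^ (a + 2) := by
  intro a
  induction a with
  | zero => norm_num
  | succ a ih =>
    rw [pow_succ]
    omega

private theorem neg_pow (a x : ℕ) :
    ∃ t r, r ≤ 1 ∧ x ^ (2 ^ (a + 2)) = 2 ^ (a + 4) * t + r := by
  rcases Nat.mod_two_eq_zero_or_one x with h | h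
  · have h1 : 2 ^ (a + 4) ∣ x ^ (2 ^ (a + 2)) :=
      (pow_dvd_pow 2 (neg_le a)).trans (pow_dvd_pow_of_dvd (Nat.dvd_of_mod_eq_zero h) _)
    obtain ⟨t, ht⟩ := h1
    exact ⟨t, 0, Nat.zero_le _, ht⟩
  · obtain ⟨t, ht⟩ := neg_odd h (a + 1)
    exact ⟨t, 1, le_rfl, ht⟩

theorem neg (k : ℕ) (h : ∃ a : ℕ, 2 ≤ a ∧ k = 2 ^ a) (q : ℕ) (hq : 4 * k ∣ q) (N : ℕ) :
    ∃ n : ℕ, N ≤ n ∧ ∀ (x : Fin (2 * k + 1) → ℕ) (m : ℕ), ∑ i, x i ^ k + q * m ≠ n := by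
  obtain ⟨b, hb, rfl⟩ := h
  obtain ⟨a, rfl⟩ : ∃ a, b = a + 2 := ⟨b - 2, by omega⟩
  set k := 2 ^ (a + 2) with hk
  have hk4 : 4 ≤ k := (Nat.le_add_left 4 a).trans (neg_le a)
  obtain ⟨c, rfl⟩ := hq
  refine ⟨4 * k * N + (4 * k - 1), ?_, ?_⟩
  · have h1 : N ≤ 4 * k * N := Nat.le_mul_of_pos_left N (by omega)
    omega
  · intro x m h
    choose t r hr ht using fun i => neg_pow a (x i)
    have e4 : 2 ^ (a + 4) = 4 * k := by
      rw [hk]
      ring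
    have h1 : ∑ i, x i ^ k = 4 * k * ∑ i, t i + ∑ i, r i := by
      rw [Finset.mul_sum, ← Finset.sum_add_distrib]
      refine Finset.sum_congr rfl fun i _ => ?_
      rw [hk, ht i, e4]
    have h2 : ∑ i, r i ≤ 2 * k + 1 := by
      calc ∑ i, r i ≤ ∑ _i : Fin (2 * k + 1), 1 := Finset.sum_le_sum fun i _ => hr i
        _ = 2 * k + 1 := by simp
    rw [h1] at h
    have h3 : 4 * k * ∑ i, t i + ∑ i, r i + 4 * k * c * m =
        ∑ i, r i + 4 * k * (∑ i, t i + c * m) := by ring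
    rw [h3] at h
    have h4 := congrArg (fun z => z % (4 * k)) h
    rw [Nat.add_mul_mod_self_left, Nat.add_comm (4 * k * N), Nat.add_mul_mod_self_left,
      Nat.mod_eq_of_lt (by omega), Nat.mod_eq_of_lt (by omega)] at h4
    omega

end Pool.Agent.H12.TL
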