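import Pool.Agent.H12.TL.Ths
import Pool.Agent.H12.TL.Neg

/-!
# Module FIN: the theorem

PROOF. (1) `all_mod`: `GoodAll k lam q` implies the property: for `n >= q^lam` take `x` with `pw k x ≡ n` modulo `q` and
`pw k x <= q^lam <= n`, then `q ∣ n - pw k x` (`Nat.modEq_iff_dvd'`), `m = (n - pw k x)/q`; rewrite `k + k + 1` as `2 * k + 1`
(`two_mul`, e.g. generalize `s = k + k + 1` first or `Fin.cast`). So the set is contained in the set of `all_mod`.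
(2) `alm_mod`, by definition of `GoodAlm`. (3) `neg`. (4) `e_bound`.
-/

set_option autoImplicit false

namespace Pool.Agent.H12.TL

open Finset
open Pool.Agent.H26.LDP (e)

private theorem fin_cast {k s : ℕ} (hs : s = k + k + 1) (lam : ℝ) (q n : ℕ)
    (h : ∃ x : Fin (k + k + 1) → ℕ, (∀ i, 1 ≤ x i) ∧ pw k x ≡ n [MOD q] ∧ (pw k x : ℝ) ≤ (q : ℝ) ^ lam) :
    ∃ x : Fin s → ℕ, (∀ i, 0 < x i) ∧ ((∑ i, x i ^ k : ℕ) : ℝ) ≤ (q : ℝ) ^ lam ∧ ∑ i, x i ^ k ≡ n [MOD q] := by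
  subst hs
  obtain ⟨x, h1, h2, h3⟩ := h
  exact ⟨x, h1, h3, h2⟩

private theorem fin_cast' {k s : ℕ} (hs : s = k + k + 1) (lam : ℝ) (q n : ℕ)
    (h : ∃ x : Fin s → ℕ, (∀ i, 0 < x i) ∧ ((∑ i, x i ^ k : ℕ) : ℝ) ≤ (q : ℝ) ^ lam ∧ ∑ i, x i ^ k ≡ n [MOD q]) :
    ∃ x : Fin (k + k + 1) → ℕ, (∀ i, 1 ≤ x i) ∧ pw k x ≡ n [MOD q] ∧ (pw k x : ℝ) ≤ (q : ℝ) ^ lam := by
  subst hs
  obtain ⟨x, h1, h2, h3⟩ := h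
  exact ⟨x, h1, h3, h2⟩

theorem final (k : ℕ) (hk : 3 ≤ k) :
    ((¬ ∃ a : ℕ, 2 ≤ a ∧ k = 2 ^ a) →
      (∀ lam : ℝ, 1 < lam * (1 - (1 - 1 / (k : ℝ)) ^ k) → ∃ C c : ℝ, 0 < c ∧ ∀ Q : ℕ, 1 ≤ Q →
        (({q : ℕ | 1 ≤ q ∧ q ≤ Q ∧ ¬ ∀ n : ℕ, (q : ℝ) ^ lam ≤ n → ∃ (x : Fin (2 * k + 1) → ℕ) (m : ℕ),
          (∀ i, 0 < x i) ∧ ((∑ i, x i ^ k : ℕ) : ℝ) ≤ (q : ℝ) ^ lam ∧ ∑ i, x i ^ k + q * m = n}).ncard : ℝ)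
          ≤ C * (Q : ℝ) ^ (1 - c)) ∧
      (∀ lam : ℝ, 1 < lam * (1 - (1 - 1 / (k : ℝ)) ^ (2 * k)) → ∃ C c : ℝ, 0 < c ∧ ∀ Q : ℕ, 1 ≤ Q →
        (({q : ℕ | 1 ≤ q ∧ q ≤ Q ∧ (q : ℝ) ^ (1 - c) < (({n : ℕ | n < q ∧ ¬ ∃ x : Fin (2 * k + 1) → ℕ,
          (∀ i, 0 < x i) ∧ ((∑ i, x i ^ k : ℕ) : ℝ) ≤ (q : ℝ) ^ lam ∧ ∑ i, x i ^ k ≡ n [MOD q]}).ncard : ℝ)}).ncard : ℝ)
          ≤ C * (Q : ℝ) ^ (1 - c))) ∧
    ((∃ a : ℕ, 2 ≤ a ∧ k = 2 ^ a) → ∀ q : ℕ, 4 * k ∣ q → ∀ N : ℕ, ∃ n : ℕ, N ≤ n ∧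
      ∀ (x : Fin (2 * k + 1) → ℕ) (m : ℕ), ∑ i, x i ^ k + q * m ≠ n) ∧
    1 < (1.582 : ℝ) * (1 - (1 - 1 / (k : ℝ)) ^ k) := by
  have hs : 2 * k + 1 = k + k + 1 := by omega
  refine ⟨?_, ?_, e_bound k hk⟩
  · intro h2
    constructor
    · intro lam hlam
      obtain ⟨C, c, _, hc, h⟩ := all_mod k hk h2 lam hlam
      refine ⟨C, c, hc, ?_⟩
      intro Q hQ
      refine le_trans ?_ (h Q hQ)
      have hsub : {q : ℕ | 1 ≤ q ∧ q ≤ Q ∧ ¬ ∀ n : ℕ, (q : ℝ) ^ lam ≤ n → ∃ (x : Fin (2 * k + 1) → ℕ) (m : ℕ),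
          (∀ i, 0 < x i) ∧ ((∑ i, x i ^ k : ℕ) : ℝ) ≤ (q : ℝ) ^ lam ∧ ∑ i, x i ^ k + q * m = n} ⊆
          {q : ℕ | 1 ≤ q ∧ q ≤ Q ∧ ¬ GoodAll k lam q} := by
        rintro q ⟨h1, h3, h4⟩
        refine ⟨h1, h3, ?_⟩
        intro hg
        apply h4
        intro n hn
        obtain ⟨x, hx, hx1, hx2⟩ := fin_cast hs lam q n (hg n)
        have hle : ∑ i, x i ^ k ≤ n := by exact_mod_cast hx1.trans hn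
        have hdvd : q ∣ n - ∑ i, x i ^ k := (Nat.modEq_iff_dvd' hle).mp hx2
        obtain ⟨m, hm⟩ := hdvd
        exact ⟨x, m, hx, hx1, by omega⟩
      have hfin : ({q : ℕ | 1 ≤ q ∧ q ≤ Q ∧ ¬ GoodAll k lam q}).Finite :=
        (Set.finite_Iic Q).subset (fun q hq => hq.2.1)
      exact_mod_cast Set.ncard_le_ncard hsub hfin
    · intro lam hlam
      obtain ⟨C, c, _, hc, h⟩ := alm_mod k hk h2 lam hlam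
      refine ⟨C, c, hc, ?_⟩
      intro Q hQ
      refine le_trans ?_ (h Q hQ)
      have hsub : {q : ℕ | 1 ≤ q ∧ q ≤ Q ∧ (q : ℝ) ^ (1 - c) < (({n : ℕ | n < q ∧ ¬ ∃ x : Fin (2 * k + 1) → ℕ,
          (∀ i, 0 < x i) ∧ ((∑ i, x i ^ k : ℕ) : ℝ) ≤ (q : ℝ) ^ lam ∧ ∑ i, x i ^ k ≡ n [MOD q]}).ncard : ℝ)} ⊆
          {q : ℕ | 1 ≤ q ∧ q ≤ Q ∧ ¬ GoodAlm k lam c q} := by
        rintro q ⟨h1, h3, h4⟩
        refine ⟨h1, h3, ?_⟩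
        intro hg
        unfold GoodAlm at hg
        have hset : {n : ℕ | n < q ∧ ¬ ∃ x : Fin (2 * k + 1) → ℕ,
            (∀ i, 0 < x i) ∧ ((∑ i, x i ^ k : ℕ) : ℝ) ≤ (q : ℝ) ^ lam ∧ ∑ i, x i ^ k ≡ n [MOD q]} =
            {n : ℕ | n < q ∧ ¬ ∃ x : Fin (k + k + 1) → ℕ, (∀ i, 1 ≤ x i) ∧ pw k x ≡ n [MOD q] ∧
              (pw k x : ℝ) ≤ (q : ℝ) ^ lam} := by
          ext n
          constructor
          · rintro ⟨ha, hb⟩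
            exact ⟨ha, fun hx => hb (fin_cast hs lam q n hx)⟩
          · rintro ⟨ha, hb⟩
            exact ⟨ha, fun hx => hb (fin_cast' hs lam q n hx)⟩
        rw [hset] at h4
        exact absurd hg (not_le.mpr h4)
      have hfin : ({q : ℕ | 1 ≤ q ∧ q ≤ Q ∧ ¬ GoodAlm k lam c q}).Finite :=
        (Set.finite_Iic Q).subset (fun q hq => hq.2.1)
      exact_mod_cast Set.ncard_le_ncard hsub hfin
  · intro h2 q hq N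
    exact neg k h2 q hq N

end Pool.Agent.H12.TL
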