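import Pool.Agent.H12.TL.Defs

/-!
# Module FRC: fractions with given denominator

PROOF. With `g = gcd a q >= 1` (`q >= 1`): `a = g b`, `q = g d`, `d = den q a`, `b` and `d` coprime
(`Nat.coprime_div_gcd_div_gcd`). (3) `a -> a / (q/d)` maps the `a < q` with `den q a = d` injectively to `range d`: then `a` is
a multiple of `g = q/d` and `a/g < d`. (4) `den q a = 1` iff `gcd a q = q` iff `q ∣ a` iff `a = 0` (`a < q`).
-/

set_option autoImplicit false

namespace Pool.Agent.H12.TL

open Finset
open Pool.Agent.H26.LDP (e)

theorem den_spec (q a : ℕ) (hq : 1 ≤ q) : ∃ b : ℕ, Nat.Coprime b (den q a) ∧ (a : ℝ) / q = (b : ℝ) / (den q a) ∧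
    den q a ∣ q ∧ 1 ≤ den q a := by
  set g := Nat.gcd a q with hg
  have hg0 : 0 < g := Nat.gcd_pos_of_pos_right a hq
  obtain ⟨b, hb⟩ : g ∣ a := Nat.gcd_dvd_left a q
  obtain ⟨d, hd⟩ : g ∣ q := Nat.gcd_dvd_right a q
  have hden : den q a = d := by
    unfold den
    rw [← hg]
    conv_lhs => rw [hd]
    exact Nat.mul_div_cancel_left d hg0
  have hab : a / g = b := by
    conv_lhs => rw [hb]
    exact Nat.mul_div_cancel_left b hg0
  have hco : Nat.Coprime b d := by
    have h := Nat.coprime_div_gcd_div_gcd (m := a) (n := q) hg0
    rw [← hg] at h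
    have h2 : q / g = d := by
      conv_lhs => rw [hd]
      exact Nat.mul_div_cancel_left d hg0
    rwa [hab, h2] at h
  have hd1 : 1 ≤ d := by
    rcases Nat.eq_zero_or_pos d with h | h
    · rw [h] at hd
      omega
    · exact h
  refine ⟨b, ?_, ?_, ?_, ?_⟩
  · rw [hden]; exact hco
  · rw [hden]
    have e1 : (a : ℝ) = g * b := by exact_mod_cast hb
    have e2 : (q : ℝ) = g * d := by exact_mod_cast hd
    have e3 : (g : ℝ) ≠ 0 := by positivity
    have e4 : (d : ℝ) ≠ 0 := by positivity
    rw [e1, e2]
    field_simp
  · rw [hden]; exact ⟨g, by rw [mul_comm]; exact hd⟩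
  · rw [hden]; exact hd1

theorem card_den (q d : ℕ) (hq : 1 ≤ q) : ((range q).filter (fun a => den q a = d)).card ≤ d := by
  rcases Nat.eq_zero_or_pos d with h0 | h0
  · subst h0
    rw [card_eq_zero.mpr]
    rw [filter_eq_empty_iff]
    intro a _ h
    have := (den_spec q a hq).choose_spec.2.2.2
    omega
  · calc ((range q).filter (fun a => den q a = d)).card
        ≤ (range d).card := by
          apply card_le_card_of_injOn (fun a => a / (q / d))
          · intro a ha
            simp only [coe_filter, mem_range, Set.mem_setOf_eq] at ha
            obtain ⟨h1, h2⟩ := ha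
            simp only [coe_range, Set.mem_Iio]
            have hg : Nat.gcd a q ∣ q := Nat.gcd_dvd_right a q
            have hg0 : 0 < Nat.gcd a q := Nat.gcd_pos_of_pos_right a hq
            unfold den at h2
            have h3 : q / d = Nat.gcd a q := by
              rw [← h2]
              exact Nat.div_div_self hg (by omega)
            rw [h3]
            rw [Nat.div_lt_iff_lt_mul hg0]
            rw [← h2, Nat.div_mul_cancel hg]
            exact h1
          · intro a ha b hb hab
            simp only [coe_filter, mem_range, Set.mem_setOf_eq] at ha hb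
            have key : ∀ c, den q c = d → q / d ∣ c := by
              intro c hc
              have hg : Nat.gcd c q ∣ q := Nat.gcd_dvd_right c q
              unfold den at hc
              have h3 : q / d = Nat.gcd c q := by
                rw [← hc]
                exact Nat.div_div_self hg (by omega)
              rw [h3]
              exact Nat.gcd_dvd_left c q
            have h1 := Nat.div_mul_cancel (key a ha.2)
            have h2 := Nat.div_mul_cancel (key b hb.2)
            simp only at hab
            rw [← h1, ← h2, hab]
      _ = d := card_range d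

theorem den_eq_one (q a : ℕ) (ha : a < q) : den q a = 1 ↔ a = 0 := by
  unfold den
  constructor
  · intro h
    have hq : 0 < q := by omega
    have hg : Nat.gcd a q ∣ q := Nat.gcd_dvd_right a q
    have h1 : q = Nat.gcd a q := by
      have := Nat.div_mul_cancel hg
      rw [h, one_mul] at this
      exact this.symm
    have h2 : q ∣ a := by
      rw [h1]
      exact Nat.gcd_dvd_left a q
    exact Nat.eq_zero_of_dvd_of_lt h2 ha
  · intro h
    subst h
    rw [Nat.gcd_zero_left]
    exact Nat.div_self ha

end Pool.Agent.H12.TL
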