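import Pool.Agent.H12.TL.Defs

/-!
# Module GS2: complete sums to prime power moduli

PROOF. Write the `x < p^j` as `x = y + p^(j-1) z` with `y < p^(j-1)`, `z < p`. As `2(j-1) >= j`,
`x^k ≡ y^k + k y^(k-1) p^(j-1) z` modulo `p^j`, so `e(b x^k/p^j) = e(b y^k/p^j) e(b k y^(k-1) z / p)`. The sum over `z` is `0`
unless `p` divides `b k y^(k-1)`, i.e. `p ∣ y` (`p` is prime to `b` and `0 < k < p`, `k >= 2`), when it is `p`. So
`G k (p^j) b = p sum_(u < p^(j-2)) e(b p^k u^k / p^j)` (with `y = p u`). If `j <= k` all the terms are 1: `p * p^(j-2)`.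
If `j > k`: the terms are `e(b u^k/p^(j-k))`, of period `p^(j-k)` in `u`, and `p^(j-2) = p^(k-2) p^(j-k)`, so the sum is
`p * p^(k-2) G k (p^(j-k)) b`.
-/

set_option autoImplicit false

namespace Pool.Agent.H12.TL

open Finset
open Pool.Agent.H26.LDP (e)

private theorem sum_blk (m n : ℕ) (g : ℕ → ℂ) :
    ∑ x ∈ range (m * n), g x = ∑ z ∈ range n, ∑ y ∈ range m, g (m * z + y) := by
  induction n with
  | zero => simp
  | succ n ih => rw [Nat.mul_succ, sum_range_add, ih, sum_range_succ]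

open Pool.Agent.H26.LDP in
private theorem e_mod {m A B : ℕ} (b : ℕ) (hm : 0 < m) (h : A ≡ B [MOD m]) :
    e ((b : ℝ) / m * A) = e ((b : ℝ) / m * B) := by
  obtain ⟨c, hc⟩ := (Nat.modEq_iff_dvd.1 h.symm)
  have hc' : (A : ℝ) = B + m * c := by
    have : (A : ℤ) = B + m * c := by linarith
    exact_mod_cast this
  have hm' : (m : ℝ) ≠ 0 := by exact_mod_cast hm.ne'
  have h1 : (b : ℝ) / m * A = (b : ℝ) / m * B + ((b * c : ℤ) : ℝ) := by
    rw [hc']
    push_cast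
    field_simp
  rw [h1, e_add_int]

open Pool.Agent.H26.LDP in
private theorem e_one_iff {m p : ℕ} (hp : 0 < p) : e ((m : ℝ) / p) = 1 ↔ p ∣ m := by
  have hp' : (p : ℝ) ≠ 0 := by exact_mod_cast hp.ne'
  constructor
  · intro h
    unfold e at h
    rw [Complex.exp_eq_one_iff] at h
    obtain ⟨n, hn⟩ := h
    have h2 : (2 * Real.pi * Complex.I : ℂ) ≠ 0 := Complex.two_pi_I_ne_zero
    rw [mul_comm] at hn
    have h3 := mul_right_cancel₀ h2 hn
    have h4 : (m : ℝ) / p = n := by exact_mod_cast h3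
    rw [div_eq_iff hp'] at h4
    have h5 : (m : ℤ) = n * p := by exact_mod_cast h4
    have h6 : (p : ℤ) ∣ (m : ℤ) := ⟨n, by rw [h5]; ring⟩
    exact_mod_cast h6
  · rintro ⟨c, rfl⟩
    have h1 : (((p * c : ℕ)) : ℝ) / p = ((c : ℤ) : ℝ) := by
      push_cast
      field_simp
    rw [h1, e_int]

open Pool.Agent.H26.LDP in
private theorem geo {m p : ℕ} (hp : 0 < p) :
    ∑ z ∈ range p, e ((z : ℝ) * ((m : ℝ) / p)) = if p ∣ m then (p : ℂ) else 0 := by
  have hp' : (p : ℝ) ≠ 0 := by exact_mod_cast hp.ne'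
  simp only [e_mul_nat]
  split_ifs with h
  · rw [(e_one_iff hp).2 h]
    simp
  · have h1 : e ((m : ℝ) / p) ≠ 1 := fun h' => h ((e_one_iff hp).1 h')
    rw [geom_sum_eq h1, ← e_mul_nat]
    have h2 : (p : ℝ) * ((m : ℝ) / p) = ((m : ℤ) : ℝ) := by
      push_cast
      field_simp
    rw [h2, e_int, sub_self, zero_div]

private theorem pow_mod {p j k : ℕ} (hj : 2 ≤ j) (y z : ℕ) :
    (p ^ (j - 1) * z + y) ^ k ≡ y ^ k + p ^ (j - 1) * (k * y ^ (k - 1) * z) [MOD p ^ j] := by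
  have h1 := (Polynomial.powAddExpansion y (p ^ (j - 1) * z) k).2
  obtain ⟨c, hc⟩ : ∃ c, c = (Polynomial.powAddExpansion y (p ^ (j - 1) * z) k).1 := ⟨_, rfl⟩
  rw [← hc, Nat.cast_id] at h1
  rw [add_comm (p ^ (j - 1) * z) y, h1]
  have h2 : y ^ k + k * y ^ (k - 1) * (p ^ (j - 1) * z) + c * (p ^ (j - 1) * z) ^ 2 =
      (y ^ k + p ^ (j - 1) * (k * y ^ (k - 1) * z)) + p ^ j * (p ^ (j - 2) * (c * z ^ 2)) := by
    have h3 : (p ^ (j - 1) * z) ^ 2 = p ^ j * p ^ (j - 2) * z ^ 2 := by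
      rw [mul_pow, ← pow_mul, ← pow_add]
      congr 2
      omega
    rw [h3]
    ring
  rw [h2]
  unfold Nat.ModEq
  rw [Nat.add_mul_mod_self_left]

open Pool.Agent.H26.LDP in
private theorem inner (k p b j : ℕ) (hp : 0 < p) (hj : 2 ≤ j) (y : ℕ) :
    ∑ z ∈ range p, e ((b : ℝ) / ((p ^ j : ℕ) : ℝ) * (((p ^ (j - 1) * z + y : ℕ) : ℝ)) ^ k) =
      if p ∣ b * (k * y ^ (k - 1)) then
        (p : ℂ) * e ((b : ℝ) / ((p ^ j : ℕ) : ℝ) * ((y : ℕ) : ℝ) ^ k) else 0 := by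
  have hpj : 0 < p ^ j := Nat.pow_pos hp
  have hp' : (p : ℝ) ≠ 0 := by exact_mod_cast hp.ne'
  have h1 : ∀ z ∈ range p,
      e ((b : ℝ) / ((p ^ j : ℕ) : ℝ) * (((p ^ (j - 1) * z + y : ℕ) : ℝ)) ^ k) =
      e ((b : ℝ) / ((p ^ j : ℕ) : ℝ) * ((y : ℕ) : ℝ) ^ k) *
        e ((z : ℝ) * (((b * (k * y ^ (k - 1)) : ℕ) : ℝ) / p)) := by
    intro z _
    have h2 := e_mod b hpj (pow_mod (p := p) (k := k) hj y z)
    have h3 : (((p ^ (j - 1) * z + y : ℕ) : ℝ)) ^ k = (((p ^ (j - 1) * z + y) ^ k : ℕ) : ℝ) := by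
      push_cast
      ring
    rw [h3, h2, ← e_add]
    congr 1
    have h4 : (p : ℝ) ^ j = (p : ℝ) ^ (j - 1) * p := by
      rw [← pow_succ]
      congr 1
      omega
    push_cast
    rw [h4]
    field_simp
  rw [sum_congr rfl h1, ← mul_sum, geo hp]
  split_ifs
  · ring
  · ring

theorem gauss_pow (k p b j : ℕ) (hk : 2 ≤ k) (hp : p.Prime) (hkp : k < p) (hb : ¬ p ∣ b) (hj : 2 ≤ j) :
    G k (p ^ j) b = if j ≤ k then (p : ℂ) ^ (j - 1) else (p : ℂ) ^ (k - 1) * G k (p ^ (j - k)) b := by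
  have hp0 := hp.pos
  have hp' : (p : ℝ) ≠ 0 := by exact_mod_cast hp0.ne'
  have hdiv : ∀ y : ℕ, p ∣ b * (k * y ^ (k - 1)) ↔ p ∣ y := by
    intro y
    rw [hp.dvd_mul, hp.dvd_mul]
    constructor
    · rintro (h | h | h)
      · exact absurd h hb
      · exact absurd (Nat.le_of_dvd (by omega) h) (by omega)
      · exact hp.dvd_of_dvd_pow h
    · intro h
      right
      right
      exact dvd_pow h (by omega)
  have hj1 : p ^ j = p ^ (j - 1) * p := by
    rw [← pow_succ]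
    congr 1
    omega
  have hj2 : p ^ (j - 1) = p * p ^ (j - 2) := by
    rw [← pow_succ']
    congr 1
    omega
  have step1 : G k (p ^ j) b = ∑ y ∈ range (p ^ (j - 1)), if p ∣ y then
      (p : ℂ) * e ((b : ℝ) / ((p ^ j : ℕ) : ℝ) * ((y : ℕ) : ℝ) ^ k) else 0 := by
    unfold G
    have h1 : range (p ^ j) = range (p ^ (j - 1) * p) := by rw [← hj1]
    rw [h1, sum_blk, sum_comm]
    refine sum_congr rfl fun y _ => ?_
    rw [inner k p b j hp0 hj y]
    simp only [hdiv y]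
  have step2 : G k (p ^ j) b = (p : ℂ) * ∑ u ∈ range (p ^ (j - 2)),
      e ((b : ℝ) / ((p ^ j : ℕ) : ℝ) * ((p * u : ℕ) : ℝ) ^ k) := by
    rw [step1, hj2, sum_blk, mul_sum]
    refine sum_congr rfl fun u _ => ?_
    rw [sum_eq_single 0]
    · rw [add_zero, if_pos (dvd_mul_right p u)]
    · intro v hv hv0
      rw [if_neg]
      intro h
      rw [Nat.dvd_add_right (dvd_mul_right p u)] at h
      exact absurd (Nat.le_of_dvd (by omega) h) (by rw [mem_range] at hv; omega)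
    · intro h
      exact absurd (mem_range.2 hp0) h
  split_ifs with hjk
  · have h1 : ∀ u ∈ range (p ^ (j - 2)),
        e ((b : ℝ) / ((p ^ j : ℕ) : ℝ) * ((p * u : ℕ) : ℝ) ^ k) = 1 := by
      intro u _
      have h2 : (b : ℝ) / ((p ^ j : ℕ) : ℝ) * ((p * u : ℕ) : ℝ) ^ k =
          ((b * (p ^ (k - j) * u ^ k) : ℕ) : ℤ) := by
        have h3 : (p : ℝ) ^ k = (p : ℝ) ^ j * (p : ℝ) ^ (k - j) := by
          rw [← pow_add]
          congr 1
          omega
        push_cast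
        rw [mul_pow, h3]
        field_simp
      rw [h2, Pool.Agent.H26.LDP.e_int]
    rw [step2, sum_congr rfl h1, sum_const, card_range, nsmul_eq_mul, mul_one]
    push_cast
    rw [← pow_succ']
    congr 1
    omega
  · have h1 : ∀ u ∈ range (p ^ (j - 2)),
        e ((b : ℝ) / ((p ^ j : ℕ) : ℝ) * ((p * u : ℕ) : ℝ) ^ k) =
        e ((b : ℝ) / ((p ^ (j - k) : ℕ) : ℝ) * ((u ^ k : ℕ) : ℝ)) := by
      intro u _
      congr 1
      have h3 : (p : ℝ) ^ j = (p : ℝ) ^ (j - k) * (p : ℝ) ^ k := by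
        rw [← pow_add]
        congr 1
        omega
      push_cast
      rw [mul_pow, h3]
      field_simp
    have h2 : p ^ (j - 2) = p ^ (j - k) * p ^ (k - 2) := by
      rw [← pow_add]
      congr 1
      omega
    have h3 : ∀ z ∈ range (p ^ (k - 2)), ∑ y ∈ range (p ^ (j - k)),
        e ((b : ℝ) / ((p ^ (j - k) : ℕ) : ℝ) * (((p ^ (j - k) * z + y) ^ k : ℕ) : ℝ)) =
        G k (p ^ (j - k)) b := by
      intro z _
      unfold G
      refine sum_congr rfl fun y _ => ?_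
      rw [e_mod b (Nat.pow_pos hp0) (show (p ^ (j - k) * z + y) ^ k ≡ y ^ k [MOD p ^ (j - k)] from
        Nat.ModEq.pow k (by unfold Nat.ModEq; rw [Nat.mul_add_mod]))]
      push_cast
      rfl
    rw [step2, sum_congr rfl h1, h2, sum_blk, sum_congr rfl h3, sum_const, card_range, nsmul_eq_mul,
      ← mul_assoc]
    congr 1
    push_cast
    rw [← pow_succ']
    congr 1
    omega

end Pool.Agent.H12.TL
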