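import Pool.Agent.H12.TL.Defs

/-!
# Module GSM: multiplicativity of the complete sums

PROOF. The map `(x1, x2) -> (d2 x1 + d1 x2) mod d1 d2` is a bijection of `range d1 × range d2` with `range (d1 d2)` (CRT), and
`(d2 x1 + d1 x2)^k ≡ d2^k x1^k + d1^k x2^k` modulo `d1 d2` (`k >= 1`; all the mixed terms are divisible by `d1 d2`). So
`e(b x^k/(d1 d2)) = e(b d2^(k-1) x1^k/d1) e(b d1^(k-1) x2^k/d2)`. `e (b/(d1 d2) y)` depends only on `y` modulo `d1 d2`.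
-/

set_option autoImplicit false

namespace Pool.Agent.H12.TL

open Finset
open Pool.Agent.H26.LDP (e)

private theorem gsm_per (b : ℕ) {D y z : ℕ} (hD : 1 ≤ D) (h : y ≡ z [MOD D]) :
    e ((b : ℝ) / D * (y : ℝ)) = e ((b : ℝ) / D * (z : ℝ)) := by
  obtain ⟨c, hc⟩ := Nat.modEq_iff_dvd.1 h
  have hc' : (z : ℝ) = y + D * c := by
    have h1 : (z : ℤ) = y + D * c := by linarith
    exact_mod_cast h1
  have hD0 : (D : ℝ) ≠ 0 := by
    have : 0 < D := hD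
    positivity
  have h2 : (b : ℝ) / D * (z : ℝ) = (b : ℝ) / D * (y : ℝ) + ((b * c : ℤ) : ℝ) := by
    rw [hc']
    push_cast
    field_simp
  rw [h2, Pool.Agent.H26.LDP.e_add_int]

private theorem gsm_pow {k d1 d2 x1 x2 : ℕ} (hk : 1 ≤ k) (h : Nat.Coprime d1 d2) :
    (d2 * x1 + d1 * x2) ^ k ≡ d2 ^ k * x1 ^ k + d1 ^ k * x2 ^ k [MOD d1 * d2] := by
  have key : ∀ a b u v : ℕ, (b * u + a * v) ^ k ≡ b ^ k * u ^ k + a ^ k * v ^ k [MOD a] := by
    intro a b u v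
    have h1 : b * u + a * v ≡ b * u [MOD a] := Nat.add_mul_mod_self_left _ _ _
    have h2 : b ^ k * u ^ k + a ^ k * v ^ k ≡ b ^ k * u ^ k [MOD a] := by
      obtain ⟨c, hc⟩ := dvd_pow_self a (show k ≠ 0 by omega)
      have h3 : a ^ k * v ^ k = a * (c * v ^ k) := by rw [← mul_assoc, ← hc]
      rw [h3]
      exact Nat.add_mul_mod_self_left _ _ _
    have h4 := h1.pow k
    rw [mul_pow] at h4
    exact h4.trans h2.symm
  refine (Nat.modEq_and_modEq_iff_modEq_mul h).1 ⟨key d1 d2 x1 x2, ?_⟩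
  have h5 := key d2 d1 x2 x1
  rwa [add_comm (d1 * x2), add_comm (d1 ^ k * x2 ^ k)] at h5

theorem gauss_mul (k d1 d2 b : ℕ) (hk : 1 ≤ k) (h : Nat.Coprime d1 d2) (h1 : 1 ≤ d1) (h2 : 1 ≤ d2) :
    G k (d1 * d2) b = G k d1 (b * d2 ^ (k - 1)) * G k d2 (b * d1 ^ (k - 1)) := by
  have hd : 1 ≤ d1 * d2 := Nat.one_le_iff_ne_zero.2 (Nat.mul_ne_zero (by omega) (by omega))
  have hinj : ∀ p ∈ range d1 ×ˢ range d2, ∀ p' ∈ range d1 ×ˢ range d2,
      (d2 * p.1 + d1 * p.2) % (d1 * d2) = (d2 * p'.1 + d1 * p'.2) % (d1 * d2) → p = p' := by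
    intro p hp p' hp' hpp
    rw [mem_product, mem_range, mem_range] at hp hp'
    have m1 : d2 * p.1 ≡ d2 * p'.1 [MOD d1] := by
      have m2 : d2 * p.1 + d1 * p.2 ≡ d2 * p'.1 + d1 * p'.2 [MOD d1] :=
        Nat.ModEq.of_mul_right d2 hpp
      have m3 : d2 * p.1 + d1 * p.2 ≡ d2 * p.1 [MOD d1] := Nat.add_mul_mod_self_left _ _ _
      have m4 : d2 * p'.1 + d1 * p'.2 ≡ d2 * p'.1 [MOD d1] := Nat.add_mul_mod_self_left _ _ _
      exact m3.symm.trans (m2.trans m4)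
    have m5 : d1 * p.2 ≡ d1 * p'.2 [MOD d2] := by
      have m2 : d2 * p.1 + d1 * p.2 ≡ d2 * p'.1 + d1 * p'.2 [MOD d2] :=
        Nat.ModEq.of_mul_left d1 hpp
      have m3 : d2 * p.1 + d1 * p.2 ≡ d1 * p.2 [MOD d2] := Nat.mul_add_mod _ _ _
      have m4 : d2 * p'.1 + d1 * p'.2 ≡ d1 * p'.2 [MOD d2] := Nat.mul_add_mod _ _ _
      exact m3.symm.trans (m2.trans m4)
    have e1 : p.1 = p'.1 :=
      (Nat.ModEq.cancel_left_of_coprime h m1).eq_of_lt_of_lt hp.1 hp'.1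
    have e2 : p.2 = p'.2 :=
      (Nat.ModEq.cancel_left_of_coprime h.symm m5).eq_of_lt_of_lt hp.2 hp'.2
    exact Prod.ext e1 e2
  have himg : (range d1 ×ˢ range d2).image (fun p => (d2 * p.1 + d1 * p.2) % (d1 * d2)) =
      range (d1 * d2) := by
    refine Finset.eq_of_subset_of_card_le ?_ ?_
    · intro x hx
      obtain ⟨p, _, rfl⟩ := mem_image.1 hx
      exact mem_range.2 (Nat.mod_lt _ hd)
    · rw [Finset.card_image_of_injOn hinj, card_product, card_range, card_range, card_range]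
  unfold G
  rw [← himg, Finset.sum_image hinj, Finset.sum_mul_sum, ← Finset.sum_product']
  refine Finset.sum_congr rfl fun p _ => ?_
  have hp : ((d2 * p.1 + d1 * p.2) % (d1 * d2)) ^ k ≡
      d2 ^ k * p.1 ^ k + d1 ^ k * p.2 ^ k [MOD d1 * d2] :=
    ((Nat.mod_modEq _ _).pow k).trans (gsm_pow hk h)
  have e1 := gsm_per b hd hp
  rw [Nat.cast_pow] at e1
  rw [e1, ← Pool.Agent.H26.LDP.e_add]
  congr 1
  have hd1 : (d1 : ℝ) ≠ 0 := by
    have : 0 < d1 := h1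
    positivity
  have hd2 : (d2 : ℝ) ≠ 0 := by
    have : 0 < d2 := h2
    positivity
  have q1 : (d1 : ℝ) ^ k = d1 ^ (k - 1) * d1 := by
    rw [← pow_succ]
    congr 1
    omega
  have q2 : (d2 : ℝ) ^ k = d2 ^ (k - 1) * d2 := by
    rw [← pow_succ]
    congr 1
    omega
  push_cast
  rw [q1, q2]
  field_simp

end Pool.Agent.H12.TL
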