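import Pool.Agent.H12.TL.Gsp
import Pool.Agent.H12.TL.Gs2
import Pool.Agent.H12.TL.Gsm

/-!
# Module GSD: the complete sums for rough moduli

PROOF. Take `w0 = k^(2k)` (at least `k`; for `k >= 3`, `2k/(k-2) <= 2k`). Let `p > w >= w0` be prime, `p` not dividing `b`.
(1) `j = 1`: `|G| <= k p^(1/2) <= p^(1-1/k)`, because `k <= p^(1/2-1/k)`, i.e. `k^(2k/(k-2)) <= p` (`k >= 3`).
(2) `|G k (p^j) b| <= p^(j(1-1/k))` for all `j >= 0` by strong induction: `j = 0` is `G = 1`; `2 <= j <= k`:
`p^(j-1) <= p^(j - j/k)` as `j <= k`; `j > k`: `p^(k-1) p^((j-k)(1-1/k)) = p^(j(1-1/k))` as `k(1-1/k) = k-1`.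
(3) general `d` by `Nat.recOnPosPrimePosCoprime` (or `Nat.recOnMul`-like induction on coprime factors) with `gauss_mul`;
`b d2^(k-1)` is prime to `d1`; factors of a rough number are rough.
-/

set_option autoImplicit false

namespace Pool.Agent.H12.TL

open Finset
open Pool.Agent.H26.LDP (e)

private theorem gsd_one (k b : ℕ) (hk : 1 ≤ k) : ‖G k 1 b‖ ≤ 1 := by
  unfold G
  rw [sum_range_one, Nat.cast_zero, zero_pow (by omega), mul_zero,
    Pool.Agent.H26.LDP.e_zero, norm_one]

private theorem gsd_pow (k p b : ℕ) (hk : 3 ≤ k) (hp : p.Prime) (hkp : k ^ (2 * k) ≤ p)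
    (hkp' : k < p) (hb : ¬ p ∣ b) (j : ℕ) :
    ‖G k (p ^ j) b‖ ≤ ((p ^ j : ℕ) : ℝ) ^ (1 - 1 / (k : ℝ)) := by
  have hk0 : (0 : ℝ) < k := by exact_mod_cast (by omega : 0 < k)
  have hk3 : (3 : ℝ) ≤ k := by exact_mod_cast hk
  have hp1 : (1 : ℝ) ≤ p := by exact_mod_cast hp.one_lt.le
  have hp0 : (0 : ℝ) < p := by linarith
  have hpj : ∀ i : ℕ, ((p ^ i : ℕ) : ℝ) ^ (1 - 1 / (k : ℝ)) = (p : ℝ) ^ ((i : ℝ) * (1 - 1 / (k : ℝ))) := by
    intro i
    rw [Real.rpow_natCast_mul hp0.le]
    push_cast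
    rfl
  induction j using Nat.strong_induction_on with
  | _ j ih =>
    rcases Nat.lt_or_ge j 2 with hj | hj
    · interval_cases j
      · rw [pow_zero, Nat.cast_one, Real.one_rpow]
        exact gsd_one k b (by omega)
      · rw [pow_one]
        have h1 := gauss_prime k p b (by omega) hp hb
        have h2 : ‖G k p b‖ ≤ k * (p : ℝ) ^ ((1 : ℝ) / 2) := by
          refine abs_le_of_sq_le_sq' ?_ (by positivity) |>.2
          refine h1.trans (le_of_eq ?_)
          rw [mul_pow, ← Real.rpow_natCast ((p : ℝ) ^ ((1 : ℝ) / 2)) 2, ← Real.rpow_mul hp0.le]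
          norm_num
        have h3 : (k : ℝ) ≤ (p : ℝ) ^ ((1 : ℝ) / 2 - 1 / k) := by
          have h4 : ((k : ℝ) ^ (2 * k)) ≤ p := by exact_mod_cast hkp
          have h5 : 0 ≤ (1 : ℝ) / 2 - 1 / k := by
            rw [sub_nonneg]
            exact one_div_le_one_div_of_le (by norm_num) (by linarith)
          refine le_trans ?_ (Real.rpow_le_rpow (by positivity) h4 h5)
          rw [← Real.rpow_natCast, ← Real.rpow_mul hk0.le]
          have h6 : ((2 * k : ℕ) : ℝ) * ((1 : ℝ) / 2 - 1 / k) = (k : ℝ) - 2 := by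
            push_cast
            field_simp
          rw [h6]
          nth_rewrite 1 [← Real.rpow_one (k : ℝ)]
          exact Real.rpow_le_rpow_of_exponent_le (by linarith) (by linarith)
        calc ‖G k p b‖ ≤ k * (p : ℝ) ^ ((1 : ℝ) / 2) := h2
          _ ≤ (p : ℝ) ^ ((1 : ℝ) / 2 - 1 / k) * (p : ℝ) ^ ((1 : ℝ) / 2) :=
              mul_le_mul_of_nonneg_right h3 (by positivity)
          _ = (p : ℝ) ^ (1 - 1 / (k : ℝ)) := by
              rw [← Real.rpow_add hp0]
              congr 1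
              ring
    · rw [gauss_pow k p b j (by omega) hp hkp' hb hj]
      by_cases hjk : j ≤ k
      · rw [if_pos hjk, norm_pow, Complex.norm_natCast, hpj, ← Real.rpow_natCast]
        refine Real.rpow_le_rpow_of_exponent_le hp1 ?_
        rw [Nat.cast_sub (by omega)]
        push_cast
        have h1 : (j : ℝ) ≤ k := by exact_mod_cast hjk
        have h2 : (j : ℝ) * (1 / k) ≤ 1 := by
          rw [mul_one_div, div_le_one hk0]
          exact h1
        linarith
      · rw [if_neg hjk, norm_mul, norm_pow, Complex.norm_natCast]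
        have h1 := ih (j - k) (by omega)
        rw [hpj] at h1 ⊢
        calc (p : ℝ) ^ (k - 1) * ‖G k (p ^ (j - k)) b‖
            ≤ (p : ℝ) ^ (k - 1) * (p : ℝ) ^ (((j - k : ℕ) : ℝ) * (1 - 1 / (k : ℝ))) :=
              mul_le_mul_of_nonneg_left h1 (by positivity)
          _ = (p : ℝ) ^ ((j : ℝ) * (1 - 1 / (k : ℝ))) := by
              rw [← Real.rpow_natCast, ← Real.rpow_add hp0]
              congr 1
              rw [Nat.cast_sub (by omega), Nat.cast_sub (by omega)]
              push_cast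
              field_simp
              ring

theorem gauss_bound (k : ℕ) (hk : 3 ≤ k) : ∃ w0 : ℕ, k ≤ w0 ∧ ∀ w : ℕ, w0 ≤ w → ∀ d b : ℕ, 1 ≤ d → Rough w d →
    Nat.Coprime b d → ‖G k d b‖ ≤ (d : ℝ) ^ (1 - 1 / (k : ℝ)) := by
  refine ⟨k ^ (2 * k), Nat.le_self_pow (by omega) k, ?_⟩
  intro w hw d
  have hkw : k ≤ w := (Nat.le_self_pow (by omega) k).trans hw
  induction d using Nat.recOnPosPrimePosCoprime with
  | zero => intro b h1; omega
  | one =>
    intro b _ _ _
    rw [Nat.cast_one, Real.one_rpow]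
    exact gsd_one k b (by omega)
  | prime_pow p n hp hn =>
    intro b _ hr hc
    have hpw : w < p := hr p hp (dvd_pow_self p (by omega))
    have hb : ¬ p ∣ b := by
      intro h
      have h1 : p ∣ Nat.gcd b (p ^ n) := Nat.dvd_gcd h (dvd_pow_self p (by omega))
      rw [hc] at h1
      exact hp.one_lt.ne' (Nat.dvd_one.1 h1)
    exact gsd_pow k p b hk hp (hw.trans hpw.le) (lt_of_le_of_lt hkw hpw) hb n
  | coprime a c ha hc' hac iha ihc =>
    intro b _ hr hb
    have hra : Rough w a := fun p hp hpa => hr p hp (hpa.mul_right c)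
    have hrc : Rough w c := fun p hp hpc => hr p hp (hpc.mul_left a)
    have hba : Nat.Coprime b a := Nat.Coprime.coprime_mul_right_right hb
    have hbc : Nat.Coprime b c := Nat.Coprime.coprime_mul_left_right hb
    rw [gauss_mul k a c b (by omega) hac (by omega) (by omega), norm_mul]
    have h1 := iha (b * c ^ (k - 1)) (by omega) hra
      (Nat.Coprime.mul_left hba (Nat.Coprime.pow_left _ hac.symm))
    have h2 := ihc (b * a ^ (k - 1)) (by omega) hrc
      (Nat.Coprime.mul_left hbc (Nat.Coprime.pow_left _ hac))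
    rw [Nat.cast_mul, Real.mul_rpow (Nat.cast_nonneg _) (Nat.cast_nonneg _)]
    exact mul_le_mul h1 h2 (norm_nonneg _) (Real.rpow_nonneg (Nat.cast_nonneg _) _)

end Pool.Agent.H12.TL
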