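import Pool.Agent.H12.TL.Defs

/-!
# Module GSP: complete sums to a prime modulus

PROOF. `G k p c` depends only on `c` modulo `p`. (1) `sum_(c < p) |G k p c|^2 = p #{(x,y) in (range p)^2 : x^k ≡ y^k mod p}`
(open the square, orthogonality of `e (c n/p)`), and the number of pairs is at most `1 + k (p-1)`: for `y = 0` only `x = 0`
(`k >= 1`), for `y <> 0` at most `k` values `x` (roots of `X^k - y^k` in the field `ZMod p`). Subtract the term `c = 0`, which
is `p^2`: `sum_(0<c<p) |G k p c|^2 <= p + k p (p-1) - p^2 <= k p (p-1)`. (2) `G k p (c t^k) = G k p c` for `t` prime to `p`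
(substitute `x -> t x`). The numbers `b t^k mod p`, `t = 1..p-1`, take at least `(p-1)/k` different values (each is taken at
most `k` times). So `|G k p b|^2 (p-1)/k <= k p (p-1)`, i.e. `|G|^2 <= k^2 p`.
-/

set_option autoImplicit false

namespace Pool.Agent.H12.TL

open Finset
open Pool.Agent.H26.LDP (e)

section
variable (k p : ℕ) [Fact p.Prime]

private noncomputable def gg (c : ZMod p) : ℂ := ∑ x : ZMod p, ZMod.stdAddChar (c * x ^ k)

private theorem gsp_G (b : ℕ) : G k p b = gg k p (b : ZMod p) := by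
  have hp0 : (p : ℝ) ≠ 0 := by
    have := (Fact.out : p.Prime).pos
    positivity
  unfold G gg
  refine Finset.sum_nbij' (fun x : ℕ => (x : ZMod p)) (fun x => x.val) ?_ ?_ ?_ ?_ ?_
  · intro x _
    exact Finset.mem_univ _
  · intro x _
    exact Finset.mem_range.2 (ZMod.val_lt x)
  · intro x hx
    exact ZMod.val_natCast_of_lt (Finset.mem_range.1 hx)
  · intro x _
    exact ZMod.natCast_zmod_val x
  · intro x _
    have h1 : ((b : ZMod p) * (x : ZMod p) ^ k) = (((b * x ^ k : ℕ) : ℤ) : ZMod p) := by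
      push_cast
      rfl
    rw [h1, ZMod.stdAddChar_coe]
    unfold e
    congr 1
    push_cast
    ring

private theorem gsp_roots (hk : 1 ≤ k) (c : ZMod p) :
    (Finset.univ.filter fun x : ZMod p => x ^ k = c).card ≤ k := by
  classical
  have h1 : (Finset.univ.filter fun x : ZMod p => x ^ k = c) ⊆ (Polynomial.nthRoots k c).toFinset := by
    intro x hx
    rw [Multiset.mem_toFinset, Polynomial.mem_nthRoots (by omega)]
    exact (Finset.mem_filter.1 hx).2
  exact (Finset.card_le_card h1).trans ((Multiset.toFinset_card_le _).trans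
    (Polynomial.card_nthRoots k c))

private theorem gsp_pairs (hk : 1 ≤ k) :
    (Finset.univ.filter fun z : ZMod p × ZMod p => z.1 ^ k = z.2 ^ k).card ≤ 1 + k * (p - 1) := by
  classical
  have h1 : (Finset.univ.filter fun z : ZMod p × ZMod p => z.1 ^ k = z.2 ^ k).card =
      ∑ y : ZMod p, (Finset.univ.filter fun x : ZMod p => x ^ k = y ^ k).card := by
    rw [Finset.card_eq_sum_card_fiberwise (f := fun z => z.2) (t := Finset.univ)
      (fun _ _ => Finset.mem_coe.2 (Finset.mem_univ _))]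
    refine Finset.sum_congr rfl fun y _ => ?_
    refine Finset.card_nbij' (fun z => z.1) (fun x => (x, y)) ?_ ?_ ?_ ?_
    · intro z hz
      have hz' := Finset.mem_filter.1 (Finset.mem_coe.1 hz)
      have hz'' := Finset.mem_filter.1 hz'.1
      refine Finset.mem_coe.2 (Finset.mem_filter.2 ⟨Finset.mem_univ _, ?_⟩)
      rw [← hz'.2]
      exact hz''.2
    · intro x hx
      have hx' := Finset.mem_filter.1 (Finset.mem_coe.1 hx)
      exact Finset.mem_coe.2 (Finset.mem_filter.2
        ⟨Finset.mem_filter.2 ⟨Finset.mem_univ _, hx'.2⟩, rfl⟩)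
    · intro z hz
      have hz' := Finset.mem_filter.1 (Finset.mem_coe.1 hz)
      exact Prod.ext rfl hz'.2.symm
    · intro x _
      rfl
  rw [h1, ← Finset.add_sum_erase _ _ (Finset.mem_univ (0 : ZMod p))]
  refine add_le_add ?_ ?_
  · rw [Finset.card_le_one]
    intro x hx y hy
    rw [Finset.mem_filter, zero_pow (by omega)] at hx hy
    rw [pow_eq_zero_iff (by omega)] at hx hy
    rw [hx.2, hy.2]
  · refine (Finset.sum_le_card_nsmul _ _ k fun y _ => gsp_roots k p hk _).trans ?_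
    rw [Finset.card_erase_of_mem (Finset.mem_univ _), Finset.card_univ, ZMod.card, smul_eq_mul,
      mul_comm]

private theorem gsp_sq :
    ∑ c : ZMod p, ‖gg k p c‖ ^ 2 =
      p * ((Finset.univ.filter fun z : ZMod p × ZMod p => z.1 ^ k = z.2 ^ k).card : ℝ) := by
  classical
  have h1 : ∀ c : ZMod p, ((‖gg k p c‖ ^ 2 : ℝ) : ℂ) =
      ∑ z : ZMod p × ZMod p, ZMod.stdAddChar (c * (z.1 ^ k - z.2 ^ k)) := by
    intro c
    rw [← Complex.normSq_eq_norm_sq, ← Complex.mul_conj]
    unfold gg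
    rw [map_sum, Finset.sum_mul_sum, Fintype.sum_prod_type]
    refine Finset.sum_congr rfl fun x _ => Finset.sum_congr rfl fun y _ => ?_
    rw [← AddChar.map_neg_eq_conj, ← AddChar.map_add_eq_mul]
    congr 1
    ring
  have h2 : ((∑ c : ZMod p, ‖gg k p c‖ ^ 2 : ℝ) : ℂ) =
      ((p * ((Finset.univ.filter fun z : ZMod p × ZMod p => z.1 ^ k = z.2 ^ k).card : ℝ) : ℝ) :
        ℂ) := by
    rw [Complex.ofReal_sum, Finset.sum_congr rfl fun c _ => h1 c, Finset.sum_comm]
    have h3 : ∀ z : ZMod p × ZMod p, ∑ c : ZMod p, ZMod.stdAddChar (c * (z.1 ^ k - z.2 ^ k)) =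
        if z.1 ^ k = z.2 ^ k then (p : ℂ) else 0 := by
      intro z
      rw [AddChar.sum_mulShift _ (ZMod.isPrimitive_stdAddChar p), ZMod.card]
      simp only [sub_eq_zero]
      split_ifs <;> simp
    rw [Finset.sum_congr rfl fun z _ => h3 z, ← Finset.sum_filter, Finset.sum_const, nsmul_eq_mul]
    push_cast
    ring
  exact_mod_cast h2

private theorem gsp_zero : ‖gg k p 0‖ ^ 2 = (p : ℝ) ^ 2 := by
  unfold gg
  simp only [zero_mul, AddChar.map_zero_eq_one]
  rw [Finset.sum_const, Finset.card_univ, ZMod.card, nsmul_eq_mul, mul_one, Complex.norm_natCast]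

private theorem gsp_shift (b : ZMod p) {t : ZMod p} (ht : t ≠ 0) : gg k p (b * t ^ k) = gg k p b := by
  unfold gg
  rw [← Equiv.sum_comp (Equiv.mulLeft₀ t ht) fun x => ZMod.stdAddChar (b * x ^ k)]
  refine Finset.sum_congr rfl fun x _ => ?_
  rw [Equiv.mulLeft₀_apply, mul_pow, mul_assoc]

end

theorem gauss_prime (k p b : ℕ) (hk : 1 ≤ k) (hp : p.Prime) (hb : ¬ p ∣ b) :
    ‖G k p b‖ ^ 2 ≤ (k : ℝ) ^ 2 * p := by
  classical
  have hpf : Fact p.Prime := ⟨hp⟩
  rw [gsp_G]
  set β : ZMod p := (b : ZMod p) with hβ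
  have hβ0 : β ≠ 0 := by
    rw [hβ, Ne, ZMod.natCast_eq_zero_iff]
    exact hb
  have hp1 : (1 : ℝ) < p := by exact_mod_cast hp.one_lt
  have h1 : ∑ c ∈ Finset.univ.erase (0 : ZMod p), ‖gg k p c‖ ^ 2 ≤
      (p : ℝ) * (1 + k * (p - 1)) - (p : ℝ) ^ 2 := by
    have h2 := gsp_sq k p
    rw [← Finset.add_sum_erase _ _ (Finset.mem_univ (0 : ZMod p)), gsp_zero] at h2
    have h3 : ((Finset.univ.filter fun z : ZMod p × ZMod p => z.1 ^ k = z.2 ^ k).card : ℝ) ≤
        1 + k * (p - 1) := by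
      have h4 : ((Finset.univ.filter fun z : ZMod p × ZMod p => z.1 ^ k = z.2 ^ k).card : ℝ) ≤
          ((1 + k * (p - 1) : ℕ) : ℝ) := by exact_mod_cast gsp_pairs k p hk
      rw [Nat.cast_add, Nat.cast_mul, Nat.cast_sub hp.one_lt.le] at h4
      push_cast at h4
      exact h4
    have h5 := mul_le_mul_of_nonneg_left h3 (by linarith : (0 : ℝ) ≤ p)
    linarith
  have h2 : ((p : ℝ) - 1) * ‖gg k p β‖ ^ 2 ≤
      k * ∑ c ∈ Finset.univ.erase (0 : ZMod p), ‖gg k p c‖ ^ 2 := by
    have h3 : ((p : ℝ) - 1) * ‖gg k p β‖ ^ 2 =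
        ∑ t ∈ Finset.univ.erase (0 : ZMod p), ‖gg k p (β * t ^ k)‖ ^ 2 := by
      rw [Finset.sum_congr rfl fun t ht => by rw [gsp_shift k p β (Finset.ne_of_mem_erase ht)],
        Finset.sum_const, Finset.card_erase_of_mem (Finset.mem_univ _), Finset.card_univ,
        ZMod.card, nsmul_eq_mul, Nat.cast_sub hp.one_lt.le, Nat.cast_one]
    rw [h3]
    have h4 : ∀ t ∈ Finset.univ.erase (0 : ZMod p), β * t ^ k ∈ Finset.univ.erase (0 : ZMod p) := by
      intro t ht
      exact Finset.mem_erase.2 ⟨mul_ne_zero hβ0 (pow_ne_zero _ (Finset.ne_of_mem_erase ht)),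
        Finset.mem_univ _⟩
    rw [← Finset.sum_fiberwise_of_maps_to h4, Finset.mul_sum]
    refine Finset.sum_le_sum fun c _ => ?_
    have h5 : ∀ t ∈ (Finset.univ.erase (0 : ZMod p)).filter (fun t => β * t ^ k = c),
        ‖gg k p (β * t ^ k)‖ ^ 2 = ‖gg k p c‖ ^ 2 := by
      intro t ht
      rw [(Finset.mem_filter.1 ht).2]
    rw [Finset.sum_congr rfl h5, Finset.sum_const, nsmul_eq_mul]
    refine mul_le_mul_of_nonneg_right ?_ (by positivity)
    have h6 : ((Finset.univ.erase (0 : ZMod p)).filter (fun t => β * t ^ k = c)) ⊆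
        Finset.univ.filter fun x : ZMod p => x ^ k = β⁻¹ * c := by
      intro t ht
      rw [Finset.mem_filter] at ht ⊢
      refine ⟨Finset.mem_univ _, ?_⟩
      rw [← ht.2, inv_mul_cancel_left₀ hβ0]
    have h7 := (Finset.card_le_card h6).trans (gsp_roots k p hk _)
    exact_mod_cast h7
  have hk0 : (1 : ℝ) ≤ k := by exact_mod_cast hk
  have h3 : ((p : ℝ) - 1) * ‖gg k p β‖ ^ 2 ≤ ((p : ℝ) - 1) * (k * (k - 1) * p) := by
    refine h2.trans ((mul_le_mul_of_nonneg_left h1 (by linarith)).trans (le_of_eq ?_))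
    ring
  have h4 := le_of_mul_le_mul_left h3 (by linarith)
  refine h4.trans ?_
  have h5 : (0 : ℝ) ≤ k * p := by positivity
  nlinarith

end Pool.Agent.H12.TL
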