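import Pool.Agent.H12.TL.Defs

/-!
# Module HEN: k-th roots of units modulo prime powers

PROOF. (1) `hensel_odd`: `τ` is the exponent of `p` in `k`. Induction on `j`. For `j <= τ+1` take `x = 1`. Step
`i -> i+1`, `i >= τ+1`, with the stronger statement `x ≡ 1` modulo `p` (so `x` is prime to `p`): let `x^k ≡ u` modulo `p^i`,
`k = p^τ k0`. Put `x' = x + p^(i-τ) t`. Binomial theorem: `x'^k = x^k + k x^(k-1) p^(i-τ) t + sum_(l>=2) C(k,l) x^(k-l)
p^(l(i-τ)) t^l`, and for `l >= 2` the term is divisible by `p^(i+1)`: `v_p(C(k,l)) >= τ - v_p(l)` (as `l C(k,l) = k C(k-1,l-1)`),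
so the valuation is at least `τ - v_p(l) + l (i-τ) >= i + (l-1) - v_p(l) >= i+1` because `l - 1 - v_p(l) >= 1` for `l >= 2`,
`p` odd. Choose `t` with `(u - x^k)/p^i ≡ k0 x^(k-1) t` modulo `p`.
Alternative: the group of units modulo `p^j` is cyclic (Mathlib: `ZMod.isCyclic_units_of_prime_pow`), and
`u ≡ 1` modulo `p^(τ+1)` is a `k`-th power by counting: the elements `≡ 1` modulo `p` form a cyclic group of order `p^(j-1)`,
its `p^τ`-th powers are exactly the elements `≡ 1` modulo `p^(τ+1)`, and `k0` is prime to `p`.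
(2) `hensel_two`: the same with `i >= τ+2`, `x' = x + 2^(i-τ) t`: for `l >= 2` the valuation is at least
`τ - v_2(l) + l(i-τ) >= i + (l-1)(i-τ) - v_2(l) >= i + 2(l-1) - v_2(l) >= i+1`.
(3) `hensel_two_odd`: for odd `k` the map `x -> x^k` is a bijection of the units modulo `2^j` (a group of order `2^(j-1)`,
prime to `k`: Mathlib `Nat.Coprime.pow_left_bijective` or `powCoprime`).
-/

set_option autoImplicit false

namespace Pool.Agent.H12.TL

open Finset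
open Pool.Agent.H26.LDP (e)

private theorem hen_surj {k M D N : ℕ} (hN : 0 < N) (hD : 0 < D)
    (H1 : ∀ x : ℕ, (D : ℤ) ∣ ((1 + M * x : ℕ) : ℤ) ^ k - 1)
    (H2 : ∀ x y : ℕ, ((D * N : ℕ) : ℤ) ∣ ((1 + M * x : ℕ) : ℤ) ^ k - ((1 + M * y : ℕ) : ℤ) ^ k →
      (N : ℤ) ∣ (x : ℤ) - y) (w : ℕ) : ∃ x : ℕ, (1 + M * x) ^ k ≡ 1 + D * w [MOD D * N] := by
  have hpos : ∀ x : ℕ, 1 ≤ (1 + M * x) ^ k := fun x => Nat.one_le_pow _ _ (by omega)
  have hq : ∀ x : ℕ, (1 + M * x) ^ k = 1 + D * (((1 + M * x) ^ k - 1) / D) := by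
    intro x
    have h1 : D ∣ (1 + M * x) ^ k - 1 := by
      have h2 := H1 x
      have h3 : ((1 + M * x : ℕ) : ℤ) ^ k - 1 = (((1 + M * x) ^ k - 1 : ℕ) : ℤ) := by
        rw [Nat.cast_sub (hpos x)]
        push_cast
        ring
      rw [h3] at h2
      exact_mod_cast h2
    have h4 := Nat.mul_div_cancel' h1
    have := hpos x
    omega
  let F : Fin N → Fin N := fun x => ⟨(((1 + M * x.1) ^ k - 1) / D) % N, Nat.mod_lt _ hN⟩
  have hF : Function.Injective F := by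
    intro x y hxy
    have h1 : (((1 + M * x.1) ^ k - 1) / D) ≡ (((1 + M * y.1) ^ k - 1) / D) [MOD N] :=
      congrArg Fin.val hxy
    have h2 : (1 + M * x.1) ^ k ≡ (1 + M * y.1) ^ k [MOD D * N] := by
      rw [hq x.1, hq y.1]
      exact (h1.mul_left' D).add_left 1
    have h3 := H2 y.1 x.1 (by
      have h4 := (Nat.modEq_iff_dvd.1 h2)
      push_cast at h4 ⊢
      exact h4)
    have h5 : (x.1 : ℕ) ≡ y.1 [MOD N] := Nat.modEq_iff_dvd.2 h3
    have h6 := Nat.ModEq.eq_of_lt_of_lt h5 x.2 y.2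
    exact Fin.ext h6
  have hFs := Finite.surjective_of_injective hF
  obtain ⟨x, hx⟩ := hFs ⟨w % N, Nat.mod_lt _ hN⟩
  refine ⟨x.1, ?_⟩
  have h1 : (((1 + M * x.1) ^ k - 1) / D) ≡ w [MOD N] := congrArg Fin.val hx
  rw [hq x.1]
  exact (h1.mul_left' D).add_left 1

private theorem hen_fin {k M τ p : ℕ} {D N : ℕ} (hD : 2 ≤ D)
    (h : ∀ w : ℕ, ∃ x : ℕ, (1 + M * x) ^ k ≡ 1 + D * w [MOD D * N]) (u : ℕ)
    (hu : u ≡ 1 [MOD D]) : ∃ x : ℕ, x ^ k ≡ u [MOD D * N] := by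
  have hu1 : 1 ≤ u := by
    rcases Nat.eq_zero_or_pos u with h0 | h0
    · rw [h0] at hu
      have h1 := (Nat.modEq_zero_iff_dvd.1 hu.symm)
      have := Nat.le_of_dvd one_pos h1
      omega
    · exact h0
  have h1 : D ∣ u - 1 := (Nat.modEq_iff_dvd' hu1).1 hu.symm
  obtain ⟨w, hw⟩ := h1
  obtain ⟨x, hx⟩ := h w
  refine ⟨1 + M * x, hx.trans ?_⟩
  rw [← hw]
  have : 1 + (u - 1) = u := by omega
  rw [this]

theorem hensel_odd (k p τ : ℕ) (hk : 1 ≤ k) (hp : p.Prime) (h2 : p ≠ 2) (h1 : p ^ τ ∣ k) (h3 : ¬ p ^ (τ + 1) ∣ k)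
    (u j : ℕ) (hu : u ≡ 1 [MOD p ^ (τ + 1)]) : ∃ x : ℕ, x ^ k ≡ u [MOD p ^ j] := by
  have hp1 : Odd p := hp.odd_of_ne_two h2
  have hem : emultiplicity p k = (τ : ℕ) := emultiplicity_eq_coe.2 ⟨h1, h3⟩
  rcases le_or_gt j (τ + 1) with hj | hj
  · refine ⟨1, ?_⟩
    rw [one_pow]
    exact (hu.of_dvd (pow_dvd_pow p hj)).symm
  obtain ⟨i, rfl⟩ := Nat.exists_eq_add_of_lt hj
  have hlte : ∀ x y : ℕ, emultiplicity (p : ℤ) (((1 + p * x : ℕ) : ℤ) ^ k - ((1 + p * y : ℕ) : ℤ) ^ k) =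
      emultiplicity (p : ℤ) ((p : ℤ) * ((x : ℤ) - y)) + (τ : ℕ) := by
    intro x y
    have h4 : ((1 + p * x : ℕ) : ℤ) - ((1 + p * y : ℕ) : ℤ) = (p : ℤ) * ((x : ℤ) - y) := by
      push_cast
      ring
    rw [Int.emultiplicity_pow_sub_pow hp hp1 (by rw [h4]; exact dvd_mul_right _ _), h4, hem]
    intro h5
    have h6 : (p : ℤ) ∣ 1 := by
      have h7 : (p : ℤ) ∣ (p : ℤ) * x := dvd_mul_right _ _
      have h8 := dvd_sub h5 h7
      push_cast at h8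
      rwa [add_sub_cancel_right] at h8
    have h9 : p ∣ 1 := by exact_mod_cast h6
    exact hp.one_lt.ne' (Nat.dvd_one.1 h9)
  have hpp : 0 < p := hp.pos
  have key := hen_surj (k := k) (M := p) (D := p ^ (τ + 1)) (N := p ^ (i + 1))
    (pow_pos hpp _) (pow_pos hpp _)
    (by
      intro x
      have h4 := hlte x 0
      have h5 : ((τ + 1 : ℕ) : ℕ∞) ≤ emultiplicity (p : ℤ) (((1 + p * x : ℕ) : ℤ) ^ k -
          ((1 + p * 0 : ℕ) : ℤ) ^ k) := by
        rw [h4]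
        have h6 : ((1 : ℕ) : ℕ∞) ≤ emultiplicity (p : ℤ) ((p : ℤ) * ((x : ℤ) - (0 : ℕ))) := by
          rw [← pow_dvd_iff_le_emultiplicity, pow_one]
          exact dvd_mul_right _ _
        rw [Nat.cast_add, add_comm]
        exact add_le_add h6 le_rfl
      rw [← pow_dvd_iff_le_emultiplicity] at h5
      simp only [mul_zero, add_zero, Nat.cast_one, one_pow] at h5
      exact_mod_cast h5)
    (by
      intro x y hxy
      have h4 : ((p : ℤ)) ^ (τ + 1 + (i + 1)) ∣ ((1 + p * x : ℕ) : ℤ) ^ k -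
          ((1 + p * y : ℕ) : ℤ) ^ k := by
        rw [← pow_add] at hxy
        exact_mod_cast hxy
      rw [pow_dvd_iff_le_emultiplicity, hlte] at h4
      have h5 : ((i + 1 + 1 : ℕ) : ℕ∞) + (τ : ℕ) ≤
          emultiplicity (p : ℤ) ((p : ℤ) * ((x : ℤ) - y)) + (τ : ℕ) := by
        refine le_trans (le_of_eq ?_) h4
        norm_cast
        omega
      have h6 := (ENat.add_le_add_iff_right (ENat.coe_ne_top τ)).1 h5
      rw [← pow_dvd_iff_le_emultiplicity, pow_succ' _ (i + 1)] at h6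
      have h7 := (mul_dvd_mul_iff_left (by exact_mod_cast hpp.ne' : (p : ℤ) ≠ 0)).1 h6
      exact_mod_cast h7)
  have h10 := hen_fin (k := k) (M := p) (τ := τ) (p := p) (D := p ^ (τ + 1)) (N := p ^ (i + 1))
    (le_trans hp.two_le (Nat.le_self_pow (by omega) p)) key u hu
  rw [← pow_add] at h10
  exact h10

theorem hensel_two (k τ : ℕ) (hk : 1 ≤ k) (h1 : 2 ^ τ ∣ k) (h3 : ¬ 2 ^ (τ + 1) ∣ k)
    (u j : ℕ) (hu : u ≡ 1 [MOD 2 ^ (τ + 2)]) : ∃ x : ℕ, x ^ k ≡ u [MOD 2 ^ j] := by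
  have hem : emultiplicity (2 : ℤ) (k : ℤ) = (τ : ℕ) :=
    emultiplicity_eq_coe.2 ⟨by exact_mod_cast h1, by exact_mod_cast h3⟩
  rcases le_or_gt j (τ + 2) with hj | hj
  · refine ⟨1, ?_⟩
    rw [one_pow]
    exact (hu.of_dvd (pow_dvd_pow 2 hj)).symm
  obtain ⟨i, rfl⟩ := Nat.exists_eq_add_of_lt hj
  have hlte : ∀ x y : ℕ, emultiplicity (2 : ℤ) (((1 + 4 * x : ℕ) : ℤ) ^ k - ((1 + 4 * y : ℕ) : ℤ) ^ k) =
      emultiplicity (2 : ℤ) ((4 : ℤ) * ((x : ℤ) - y)) + (τ : ℕ) := by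
    intro x y
    have h4 : ((1 + 4 * x : ℕ) : ℤ) - ((1 + 4 * y : ℕ) : ℤ) = (4 : ℤ) * ((x : ℤ) - y) := by
      push_cast
      ring
    rw [Int.two_pow_sub_pow' k (by rw [h4]; exact dvd_mul_right _ _), h4, hem]
    intro h5
    push_cast at h5
    omega
  have key := hen_surj (k := k) (M := 4) (D := 2 ^ (τ + 2)) (N := 2 ^ (i + 1))
    (pow_pos two_pos _) (pow_pos two_pos _)
    (by
      intro x
      have h4 := hlte x 0
      have h5 : ((τ + 2 : ℕ) : ℕ∞) ≤ emultiplicity (2 : ℤ) (((1 + 4 * x : ℕ) : ℤ) ^ k -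
          ((1 + 4 * 0 : ℕ) : ℤ) ^ k) := by
        rw [h4]
        have h6 : ((2 : ℕ) : ℕ∞) ≤ emultiplicity (2 : ℤ) ((4 : ℤ) * ((x : ℤ) - (0 : ℕ))) := by
          rw [← pow_dvd_iff_le_emultiplicity]
          exact dvd_mul_of_dvd_left (by norm_num) _
        rw [Nat.cast_add, add_comm]
        exact add_le_add h6 le_rfl
      rw [← pow_dvd_iff_le_emultiplicity] at h5
      simp only [mul_zero, add_zero, Nat.cast_one, one_pow] at h5
      exact_mod_cast h5)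
    (by
      intro x y hxy
      have h4 : ((2 : ℤ)) ^ (τ + 2 + (i + 1)) ∣ ((1 + 4 * x : ℕ) : ℤ) ^ k -
          ((1 + 4 * y : ℕ) : ℤ) ^ k := by
        rw [← pow_add] at hxy
        exact_mod_cast hxy
      rw [pow_dvd_iff_le_emultiplicity, hlte] at h4
      have h5 : ((i + 1 + 2 : ℕ) : ℕ∞) + (τ : ℕ) ≤
          emultiplicity (2 : ℤ) ((4 : ℤ) * ((x : ℤ) - y)) + (τ : ℕ) := by
        refine le_trans (le_of_eq ?_) h4
        norm_cast
        omega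
      have h6 := (ENat.add_le_add_iff_right (ENat.coe_ne_top τ)).1 h5
      rw [← pow_dvd_iff_le_emultiplicity, pow_add _ (i + 1) 2] at h6
      have h8 : (2 : ℤ) ^ (i + 1) * 2 ^ 2 = 4 * 2 ^ (i + 1) := by ring
      rw [h8] at h6
      have h7 := (mul_dvd_mul_iff_left (by norm_num : (4 : ℤ) ≠ 0)).1 h6
      exact_mod_cast h7)
  have h10 := hen_fin (k := k) (M := 4) (τ := τ) (p := 2) (D := 2 ^ (τ + 2)) (N := 2 ^ (i + 1))
    (Nat.le_self_pow (by omega) 2) key u hu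
  rw [← pow_add] at h10
  exact h10

theorem hensel_two_odd (k : ℕ) (hk : Odd k) (u j : ℕ) (hu : Odd u) : ∃ x : ℕ, x ^ k ≡ u [MOD 2 ^ j] := by
  rcases le_or_gt j 1 with hj | hj
  · refine ⟨1, ?_⟩
    rw [one_pow]
    have h1 : 1 ≡ u [MOD 2] := by
      obtain ⟨m, rfl⟩ := hu
      unfold Nat.ModEq
      omega
    have h2 : (2 : ℕ) ^ j ∣ 2 := by
      have := pow_dvd_pow 2 hj
      rwa [pow_one] at this
    exact h1.of_dvd h2
  have hφ : Nat.totient (2 ^ j) = 2 ^ (j - 1) := by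
    rw [Nat.totient_prime_pow Nat.prime_two (by omega)]
    norm_num
  have hcop : Nat.Coprime k (2 ^ (j - 1)) := (Nat.coprime_pow_right_iff (by omega) k 2).2
    ((Nat.coprime_two_right).2 hk)
  obtain ⟨s, hs⟩ := Nat.exists_mul_mod_eq_one_of_coprime hcop (Nat.one_lt_pow (by omega) (by norm_num))
  refine ⟨u ^ s, ?_⟩
  have h1 : u ^ Nat.totient (2 ^ j) ≡ 1 [MOD 2 ^ j] :=
    Nat.ModEq.pow_totient ((Nat.coprime_pow_right_iff (by omega) u 2).2 ((Nat.coprime_two_right).2 hu))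
  rw [hφ] at h1
  have h2 : s * k = 1 + 2 ^ (j - 1) * (k * s / 2 ^ (j - 1)) := by
    have h3 := Nat.mod_add_div (k * s) (2 ^ (j - 1))
    rw [hs.2] at h3
    rw [mul_comm s k]
    exact h3.symm
  rw [← pow_mul, h2, pow_add, pow_one, pow_mul]
  calc u * (u ^ 2 ^ (j - 1)) ^ (k * s / 2 ^ (j - 1)) ≡ u * 1 ^ (k * s / 2 ^ (j - 1)) [MOD 2 ^ j] :=
        (h1.pow _).mul_left u
    _ = u := by rw [one_pow, mul_one]

end Pool.Agent.H12.TL
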