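import Pool.Agent.H12.TL.Fin

/-!
# The theorem as one equivalence: almost all moduli work exactly for the exponents k that are not 4, 8, 16, ...
-/

set_option autoImplicit false

namespace Pool.Agent.H12.TL

open Finset Filter

private theorem iff_big (c B : ℝ) (hc : 0 < c) : ∃ M : ℕ, 1 ≤ M ∧ B < (M : ℝ) ^ c := by
  have h1 : ∀ᶠ n : ℕ in atTop, B + 1 ≤ (n : ℝ) ^ c :=
    ((tendsto_rpow_atTop hc).comp tendsto_natCast_atTop_atTop).eventually_ge_atTop (B + 1)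
  obtain ⟨n, h2, h3⟩ := (h1.and (eventually_ge_atTop 1)).exists
  exact ⟨n, h3, by linarith⟩

theorem final_iff (k : ℕ) (hk : 3 ≤ k) (lam : ℝ) (hlam : 1 < lam * (1 - (1 - 1 / (k : ℝ)) ^ k)) :
    (∃ C c : ℝ, 0 < c ∧ ∀ Q : ℕ, 1 ≤ Q →
      (({q : ℕ | 1 ≤ q ∧ q ≤ Q ∧ ¬ ∀ n : ℕ, (q : ℝ) ^ lam ≤ n → ∃ (x : Fin (2 * k + 1) → ℕ) (m : ℕ),
        (∀ i, 0 < x i) ∧ ((∑ i, x i ^ k : ℕ) : ℝ) ≤ (q : ℝ) ^ lam ∧ ∑ i, x i ^ k + q * m = n}).ncard : ℝ)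
        ≤ C * (Q : ℝ) ^ (1 - c)) ↔ ¬ ∃ a : ℕ, 2 ≤ a ∧ k = 2 ^ a := by
  obtain ⟨h1, h2, _⟩ := final k hk
  constructor
  · rintro ⟨C, c, hc, H⟩ ha
    have hneg := h2 ha
    have hk4 : (0 : ℝ) < 4 * (k : ℝ) := by
      have : (3 : ℝ) ≤ (k : ℝ) := by exact_mod_cast hk
      linarith
    obtain ⟨M, hM1, hM⟩ := iff_big c (C * (4 * (k : ℝ)) ^ (1 - c)) hc
    have hM0 : (0 : ℝ) < (M : ℝ) := by exact_mod_cast hM1
    have hQ1 : 1 ≤ 4 * k * M := Nat.mul_pos (by omega) hM1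
    have h3 := H (4 * k * M) hQ1
    set S : Set ℕ := {q : ℕ | 1 ≤ q ∧ q ≤ 4 * k * M ∧ ¬ ∀ n : ℕ, (q : ℝ) ^ lam ≤ n →
      ∃ (x : Fin (2 * k + 1) → ℕ) (m : ℕ), (∀ i, 0 < x i) ∧ ((∑ i, x i ^ k : ℕ) : ℝ) ≤ (q : ℝ) ^ lam ∧
        ∑ i, x i ^ k + q * m = n} with hS
    have hfin : S.Finite := (Set.finite_Iic (4 * k * M)).subset (fun q hq => hq.2.1)
    have hsub : (((Icc 1 M).image (fun j => 4 * k * j) : Finset ℕ) : Set ℕ) ⊆ S := by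
      intro q hq
      rw [mem_coe, mem_image] at hq
      obtain ⟨j, hj, rfl⟩ := hq
      rw [mem_Icc] at hj
      refine ⟨Nat.mul_pos (by omega) hj.1, Nat.mul_le_mul_left _ hj.2, ?_⟩
      intro hall
      obtain ⟨n, hn1, hn2⟩ := hneg (4 * k * j) (dvd_mul_right _ _) ⌈(((4 * k * j : ℕ) : ℝ)) ^ lam⌉₊
      obtain ⟨x, m, _, _, h6⟩ := hall n ((Nat.le_ceil _).trans (by exact_mod_cast hn1))
      exact hn2 x m h6
    have hcard : M ≤ S.ncard := by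
      have h4 := Set.ncard_le_ncard hsub hfin
      rw [Set.ncard_coe_finset, card_image_of_injective, Nat.card_Icc] at h4
      · omega
      · intro a b hab
        exact Nat.eq_of_mul_eq_mul_left (by omega : 0 < 4 * k) hab
    have h4 : (M : ℝ) ≤ C * ((4 * k * M : ℕ) : ℝ) ^ (1 - c) := by
      refine le_trans ?_ h3
      exact_mod_cast hcard
    push_cast at h4
    rw [Real.mul_rpow hk4.le hM0.le] at h4
    have h5 : (M : ℝ) = (M : ℝ) ^ c * (M : ℝ) ^ (1 - c) := by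
      rw [← Real.rpow_add hM0]
      simp
    have h6 : 0 < (M : ℝ) ^ (1 - c) := by positivity
    have h7 : (M : ℝ) ^ c * (M : ℝ) ^ (1 - c) ≤ (C * (4 * (k : ℝ)) ^ (1 - c)) * (M : ℝ) ^ (1 - c) := by
      rw [← h5]
      calc (M : ℝ) ≤ C * ((4 * (k : ℝ)) ^ (1 - c) * (M : ℝ) ^ (1 - c)) := h4
        _ = _ := by ring
    have h8 := le_of_mul_le_mul_right h7 h6
    linarith
  · intro hk2
    exact (h1 hk2).1 lam hlam

end Pool.Agent.H12.TL
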