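import Pool.Agent.H12.TL.Defs

/-!
# Module ORT: orthogonality and Parseval

PROOF. (1) expand the product over the box: `prod_univ_sum` / `Finset.prod_univ_sum` and `e_add` (write `e (t * pw x)` as a
product over `i`; `Fintype.piFinset`). (2) geometric series: `e (a/q * (m-n)) = z^a` with `z = e ((m-n)/q)`, `z^q = 1`, and
`z = 1` iff `q ∣ m - n`. (3) from (1), (2). (4) `|prod|^2 = prod * conj prod = sum over pairs of e (a/q1 (pw x - pw x'))`,
then (2). (5) `BoxR` is contained in `Box`, and for a pair in `BoxR` the sums are congruent modulo `q0` (both congruent to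
`sum (r i)^k`), so if they are congruent modulo `q1` they are congruent modulo `q0 q1` (`Nat.modEq_and_modEq_iff_modEq_mul`).
(6) open the square, sum over `n` first, (2) with the roles of `a`, `n` exchanged: for `a, a' < q` the sum over `n < q` of
`e (-(a - a') n / q)` is `q` if `a = a'` and `0` otherwise.
-/

set_option autoImplicit false

namespace Pool.Agent.H12.TL

open Finset
open Pool.Agent.H26.LDP (e)

theorem prod_f (k q0 : ℕ) {m : ℕ} (r L : Fin m → ℕ) (t : ℝ) :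
    ∏ i, f k q0 (r i) (L i) t = ∑ x ∈ BoxR q0 r L, e (t * (pw k x : ℝ)) := by
  unfold f BoxR
  rw [prod_univ_sum]
  refine sum_congr rfl fun x _ => ?_
  have h : ∀ (s : Finset (Fin m)), ∏ i ∈ s, e (t * (x i : ℝ) ^ k) = e (t * ∑ i ∈ s, (x i : ℝ) ^ k) := by
    intro s
    induction s using Finset.induction_on with
    | empty => simp [Pool.Agent.H26.LDP.e_zero]
    | insert a s ha ih =>
      rw [prod_insert ha, sum_insert ha, ih, mul_add, Pool.Agent.H26.LDP.e_add]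
  rw [h univ]
  unfold pw
  push_cast
  rfl

private theorem ort_eint (z : ℤ) (q : ℕ) (hq : 1 ≤ q) (h : (q : ℤ) ∣ z) (a : ℕ) :
    e ((a : ℝ) / q * (z : ℝ)) = 1 := by
  obtain ⟨w, rfl⟩ := h
  have hq0 : (q : ℝ) ≠ 0 := by positivity
  have : (a : ℝ) / q * (((q : ℤ) * w : ℤ) : ℝ) = ((a * w : ℤ) : ℝ) := by
    push_cast
    field_simp
  rw [this, Pool.Agent.H26.LDP.e_int]

private theorem ort_z (q : ℕ) (hq : 1 ≤ q) (z : ℤ) :
    ∑ a ∈ range q, e ((a : ℝ) / q * (z : ℝ)) = if (q : ℤ) ∣ z then (q : ℂ) else 0 := by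
  have hq0 : (q : ℝ) ≠ 0 := by positivity
  split_ifs with h
  · rw [sum_congr rfl (fun a _ => ort_eint z q hq h a)]
    simp
  · have h1 : ∀ a : ℕ, e ((a : ℝ) / q * (z : ℝ)) = e ((z : ℝ) / q) ^ a := by
      intro a
      rw [← Pool.Agent.H26.LDP.e_mul_nat]
      congr 1
      ring
    simp_rw [h1]
    have h2 : e ((z : ℝ) / q) ^ q = 1 := by
      rw [← Pool.Agent.H26.LDP.e_mul_nat]
      have : (q : ℝ) * ((z : ℝ) / q) = ((z : ℤ) : ℝ) := by field_simp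
      rw [this, Pool.Agent.H26.LDP.e_int]
    have h3 : e ((z : ℝ) / q) ≠ 1 := by
      intro h4
      have h5 := Pool.Agent.H26.LDP.le_norm_one_sub_e ((z : ℝ) / q)
      rw [h4, sub_self, norm_zero] at h5
      have h6 : Pool.Agent.H26.LDP.nn ((z : ℝ) / q) = 0 :=
        le_antisymm (by linarith) (Pool.Agent.H26.LDP.nn_nonneg _)
      unfold Pool.Agent.H26.LDP.nn at h6
      have h7 : (z : ℝ) / q = round ((z : ℝ) / q) := by
        have := abs_eq_zero.mp h6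
        linarith
      apply h
      refine ⟨round ((z : ℝ) / q), ?_⟩
      have h8 : (z : ℝ) = q * (round ((z : ℝ) / q) : ℝ) := by
        rw [← h7]
        field_simp
      exact_mod_cast h8
    rw [geom_sum_eq h3, h2, sub_self, zero_div]

private theorem ort_dvd (q m n : ℕ) : ((q : ℤ) ∣ (m : ℤ) - n) ↔ m ≡ n [MOD q] := by
  rw [Nat.ModEq.comm, Nat.modEq_iff_dvd]

theorem orth (q : ℕ) (hq : 1 ≤ q) (m n : ℕ) :
    ∑ a ∈ range q, e ((a : ℝ) / q * ((m : ℝ) - n)) = if m ≡ n [MOD q] then (q : ℂ) else 0 := by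
  have h := ort_z q hq ((m : ℤ) - n)
  push_cast at h
  rw [h]
  by_cases h1 : m ≡ n [MOD q]
  · rw [if_pos h1, if_pos ((ort_dvd q m n).mpr h1)]
  · rw [if_neg h1, if_neg (fun h2 => h1 ((ort_dvd q m n).mp h2))]

theorem count_eq (k q0 q1 n : ℕ) (hq : 1 ≤ q1) {m : ℕ} (r L : Fin m → ℕ) :
    (q1 : ℂ) * (((BoxR q0 r L).filter (fun x => pw k x ≡ n [MOD q1])).card : ℂ) =
      ∑ a ∈ range q1, e (-((a : ℝ) / q1 * n)) * ∏ i, f k q0 (r i) (L i) ((a : ℝ) / q1) := by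
  have h1 : ∀ a ∈ range q1, e (-((a : ℝ) / q1 * n)) * ∏ i, f k q0 (r i) (L i) ((a : ℝ) / q1) =
      ∑ x ∈ BoxR q0 r L, e ((a : ℝ) / q1 * ((pw k x : ℝ) - n)) := by
    intro a _
    rw [prod_f, mul_sum]
    refine sum_congr rfl fun x _ => ?_
    rw [← Pool.Agent.H26.LDP.e_add]
    congr 1
    ring
  rw [sum_congr rfl h1, sum_comm]
  rw [sum_congr rfl (fun x _ => orth q1 hq (pw k x) n)]
  rw [← sum_filter, sum_const, nsmul_eq_mul, mul_comm]

theorem parseval (k q0 q1 : ℕ) (hq : 1 ≤ q1) {m : ℕ} (r L : Fin m → ℕ) :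
    ∑ a ∈ range q1, ‖∏ i, f k q0 (r i) (L i) ((a : ℝ) / q1)‖ ^ 2 =
      (q1 : ℝ) * (((BoxR q0 r L ×ˢ BoxR q0 r L).filter (fun z => pw k z.1 ≡ pw k z.2 [MOD q1])).card : ℝ) := by
  have h0 : ∀ t : ℝ, ((‖∏ i, f k q0 (r i) (L i) t‖ ^ 2 : ℝ) : ℂ) =
      ∑ z ∈ BoxR q0 r L ×ˢ BoxR q0 r L, e (t * ((pw k z.1 : ℝ) - (pw k z.2 : ℝ))) := by
    intro t
    rw [prod_f, ← Complex.normSq_eq_norm_sq, ← Complex.mul_conj, map_sum, sum_mul_sum, sum_product]
    refine sum_congr rfl fun x _ => sum_congr rfl fun y _ => ?_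
    rw [← Pool.Agent.H26.LDP.e_neg, ← Pool.Agent.H26.LDP.e_add]
    congr 1
    ring
  have h1 : ((∑ a ∈ range q1, ‖∏ i, f k q0 (r i) (L i) ((a : ℝ) / q1)‖ ^ 2 : ℝ) : ℂ) =
      (((q1 : ℝ) * (((BoxR q0 r L ×ˢ BoxR q0 r L).filter (fun z => pw k z.1 ≡ pw k z.2 [MOD q1])).card : ℝ) : ℝ) : ℂ) := by
    rw [Complex.ofReal_sum]
    refine (sum_congr rfl (fun a _ => h0 _)).trans ?_
    rw [sum_comm]
    rw [sum_congr rfl (fun z _ => orth q1 hq (pw k z.1) (pw k z.2))]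
    rw [← sum_filter, sum_const, nsmul_eq_mul, mul_comm]
    push_cast
    rfl
  exact_mod_cast h1

theorem parseval_le (k q0 q1 : ℕ) (hq : 1 ≤ q1) (hc : Nat.Coprime q0 q1) {m : ℕ} (r L : Fin m → ℕ) :
    ∑ a ∈ range q1, ‖∏ i, f k q0 (r i) (L i) ((a : ℝ) / q1)‖ ^ 2 ≤ (q1 : ℝ) * (T k L (q0 * q1) : ℝ) := by
  rw [parseval k q0 q1 hq r L]
  apply mul_le_mul_of_nonneg_left _ (Nat.cast_nonneg _)
  have hmem : ∀ x ∈ BoxR q0 r L, x ∈ Box L ∧ pw k x ≡ pw k r [MOD q0] := by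
    intro x hx
    unfold BoxR at hx
    rw [Fintype.mem_piFinset] at hx
    constructor
    · unfold Box
      rw [Fintype.mem_piFinset]
      intro i
      exact (mem_filter.mp (hx i)).1
    · unfold pw
      exact Nat.ModEq.sum fun i _ => ((mem_filter.mp (hx i)).2).pow k
  have hsub : (BoxR q0 r L ×ˢ BoxR q0 r L).filter (fun z => pw k z.1 ≡ pw k z.2 [MOD q1]) ⊆
      (Box L ×ˢ Box L).filter (fun z => pw k z.1 ≡ pw k z.2 [MOD q0 * q1]) := by
    intro z hz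
    rw [mem_filter, mem_product] at hz
    obtain ⟨⟨h1, h2⟩, h3⟩ := hz
    rw [mem_filter, mem_product]
    refine ⟨⟨(hmem _ h1).1, (hmem _ h2).1⟩, ?_⟩
    rw [← Nat.modEq_and_modEq_iff_modEq_mul hc]
    exact ⟨(hmem _ h1).2.trans (hmem _ h2).2.symm, h3⟩
  unfold T
  exact_mod_cast card_le_card hsub

theorem plancherel (q : ℕ) (hq : 1 ≤ q) (A : Finset ℕ) (hA : A ⊆ range q) (c : ℕ → ℂ) :
    ∑ n ∈ range q, ‖∑ a ∈ A, e (-((a : ℝ) / q * n)) * c a‖ ^ 2 = (q : ℝ) * ∑ a ∈ A, ‖c a‖ ^ 2 := by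
  have h0 : ∀ n : ℕ, ((‖∑ a ∈ A, e (-((a : ℝ) / q * n)) * c a‖ ^ 2 : ℝ) : ℂ) =
      ∑ z ∈ A ×ˢ A, e ((n : ℝ) / q * (((z.2 : ℤ) - (z.1 : ℤ) : ℤ) : ℝ)) * (c z.1 * (starRingEnd ℂ) (c z.2)) := by
    intro n
    rw [← Complex.normSq_eq_norm_sq, ← Complex.mul_conj, map_sum, sum_mul_sum, sum_product]
    refine sum_congr rfl fun x _ => sum_congr rfl fun y _ => ?_
    rw [map_mul, ← Pool.Agent.H26.LDP.e_neg]
    have : e ((n : ℝ) / q * (((y : ℤ) - (x : ℤ) : ℤ) : ℝ)) = e (-((x : ℝ) / q * n)) * e (- -((y : ℝ) / q * n)) := by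
      rw [← Pool.Agent.H26.LDP.e_add]
      congr 1
      push_cast
      ring
    rw [this]
    ring
  have h1 : ((∑ n ∈ range q, ‖∑ a ∈ A, e (-((a : ℝ) / q * n)) * c a‖ ^ 2 : ℝ) : ℂ) =
      (((q : ℝ) * ∑ a ∈ A, ‖c a‖ ^ 2 : ℝ) : ℂ) := by
    rw [Complex.ofReal_sum]
    refine (sum_congr rfl (fun n _ => h0 n)).trans ?_
    rw [sum_comm]
    have h2 : ∀ z ∈ A ×ˢ A, ∑ n ∈ range q, e ((n : ℝ) / q * (((z.2 : ℤ) - (z.1 : ℤ) : ℤ) : ℝ)) *
        (c z.1 * (starRingEnd ℂ) (c z.2)) = if z.1 = z.2 then (q : ℂ) * (c z.1 * (starRingEnd ℂ) (c z.2)) else 0 := by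
      intro z hz
      rw [mem_product] at hz
      rw [← sum_mul, ort_z q hq]
      by_cases h3 : z.1 = z.2
      · rw [if_pos h3, h3, sub_self, if_pos (dvd_zero _)]
      · rw [if_neg h3, if_neg, zero_mul]
        intro h4
        apply h3
        have h5 : z.2 ≡ z.1 [MOD q] := (ort_dvd q z.2 z.1).mp h4
        have h6 := mem_range.mp (hA hz.1)
        have h7 := mem_range.mp (hA hz.2)
        exact (Nat.ModEq.eq_of_lt_of_lt h5 h7 h6).symm
    rw [sum_congr rfl h2, sum_product]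
    rw [Complex.ofReal_mul, Complex.ofReal_sum, mul_sum]
    refine sum_congr rfl fun x hx => ?_
    simp only
    rw [sum_ite_eq, if_pos hx, Complex.mul_conj, Complex.normSq_eq_norm_sq]
    push_cast
    rfl
  exact_mod_cast h1

end Pool.Agent.H12.TL
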