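import Pool.Agent.H12.TL.Rng

/-!
# Module PR1: choice of the parameters, numerical part

PROOF. `θ = (1-1/k)^U`, `0 < θ < 1` (`U = 0` is impossible), `lam (1-θ) > 1`, so `lam > 1`. Put `σ > 0` so small that
`σ (A + 1) <= θ/16` and `σ A < (k - k/lam)/4`, `δ = σ/(4(4k+4))`, `ε = δ`. `P = floor (c0 Q^(lam/k))` with `0 < c0 <= 1`,
`(2 c0)^k (2k+1) 2^lam <= 1`; `κ = P^(-σ)`, `D = ceil (k! P^(σA))`, `Z = floor (P^δ)`, `L` from `ranges`. All conditions hold for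
`Q` large (`P -> oo` with `Q`, `P >= (c0/2) Q^(lam/k)`): `(2k+1)(2P)^k <= (2k+1)(2 c0)^k Q^lam <= (Q/2)^lam`.
`4 Z D^2 <= 4 P^δ (2 k! P^(σA))^2 = 16 (k!)^2 P^(δ + 2σA) <= 8^(-k) P^θ <= L i`, because `(1-1/k)^i >= θ` for `i < U` and
`δ + 2σA < θ`. `(1/κ)^A = P^(σA) <= P`. `Q (1/κ)^A <= (2P/c0)^(k/lam) P^(σA) < P^k` as `k/lam + σA < k`.
`|Box L| = prod L i >= 8^(-kU) P^(sum_(i<U) (1-1/k)^i) = 8^(-kU) P^(k(1-θ)) >= c Q^(lam(1-θ)) >= Q` (geometric sum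
`sum_(i<U) (1-1/k)^i = k(1-θ)`, exponent `> 1`). `κ (2Z)^(4k+4) P^ε <= 2^(4k+4) P^(-σ + σ/4 + σ/16) <= 2^(4k+4) P^(-σ/2)`,
`sqrt Z >= P^(δ/2)/2` and `P^(ε/2)` are powers of `P >= (c0/2) Q^(lam/k)`: so `c` small enough (`c <= 1/2`,
`c < (lam/k) min(σ/2, δ/2)`) works for `Q >= Q0`. (All comparisons are of the form `C x^a <= x^b` eventually, `a < b`.)
-/

set_option autoImplicit false

namespace Pool.Agent.H12.TL

open Finset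
open Pool.Agent.H26.LDP (e)

open Filter in
private theorem pr1_ev (C a b : ℝ) (hab : a < b) :
    ∀ᶠ P : ℕ in atTop, C * (P : ℝ) ^ a ≤ (P : ℝ) ^ b := by
  have h1 : Tendsto (fun P : ℕ => (P : ℝ) ^ (b - a)) atTop atTop :=
    (tendsto_rpow_atTop (by linarith)).comp tendsto_natCast_atTop_atTop
  filter_upwards [h1.eventually_ge_atTop C, eventually_ge_atTop 1] with P hP hP1
  have hP0 : (0 : ℝ) < P := by
    have : 0 < P := hP1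
    exact_mod_cast this
  calc C * (P : ℝ) ^ a ≤ (P : ℝ) ^ (b - a) * (P : ℝ) ^ a :=
        mul_le_mul_of_nonneg_right hP (Real.rpow_nonneg hP0.le _)
    _ = (P : ℝ) ^ b := by
        rw [← Real.rpow_add hP0]
        congr 1
        ring

private theorem pr1_box (k U : ℕ) (hk : 3 ≤ k) (P : ℕ) (hP : 1 ≤ P) (L : Fin U → ℕ)
    (hL : ∀ i : Fin U, (P : ℝ) ^ ((1 - 1 / (k : ℝ)) ^ (i : ℕ)) ≤ 8 ^ k * (L i : ℝ)) :
    (P : ℝ) ^ ((k : ℝ) * (1 - (1 - 1 / (k : ℝ)) ^ U)) ≤ (8 ^ k) ^ U * ((Box L).card : ℝ) := by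
  have hP0 : (0 : ℝ) < P := by
    have : 0 < P := hP
    exact_mod_cast this
  have hk0 : (k : ℝ) ≠ 0 := by
    have : k ≠ 0 := by omega
    exact_mod_cast this
  have hcard : ((Box L).card : ℝ) = ∏ i, (L i : ℝ) := by
    unfold Box
    rw [Fintype.card_piFinset]
    push_cast
    refine prod_congr rfl fun i _ => ?_
    rw [Nat.card_Ioc]
    congr 1
    omega
  have hgeom : ∑ i : Fin U, (1 - 1 / (k : ℝ)) ^ (i : ℕ) =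
      (k : ℝ) * (1 - (1 - 1 / (k : ℝ)) ^ U) := by
    rw [Fin.sum_univ_eq_sum_range (fun i => (1 - 1 / (k : ℝ)) ^ i) U]
    have h1 := geom_sum_mul (1 - 1 / (k : ℝ)) U
    have h2 : (1 - 1 / (k : ℝ)) - 1 = -(1 / (k : ℝ)) := by ring
    rw [h2] at h1
    have h3 : ∑ i ∈ range U, (1 - 1 / (k : ℝ)) ^ i =
        (k : ℝ) * ((∑ i ∈ range U, (1 - 1 / (k : ℝ)) ^ i) * (1 / (k : ℝ))) := by
      field_simp
    rw [h3]
    congr 1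
    linarith
  rw [← hgeom, Real.rpow_sum_of_pos hP0, hcard]
  calc ∏ i : Fin U, (P : ℝ) ^ ((1 - 1 / (k : ℝ)) ^ (i : ℕ)) ≤ ∏ i : Fin U, (8 ^ k * (L i : ℝ)) :=
        prod_le_prod (fun i _ => Real.rpow_nonneg hP0.le _) (fun i _ => hL i)
    _ = (8 ^ k) ^ U * ∏ i, (L i : ℝ) := by
        rw [prod_mul_distrib, prod_const, card_univ, Fintype.card_fin]

open Filter in
private theorem pr1_core (k U A : ℕ) (hk : 3 ≤ k) (hA : 1 ≤ A) (lam θ σ δ C3 c : ℝ)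
    (hθ : θ = (1 - 1 / (k : ℝ)) ^ U) (hθ0 : 0 < θ) (hθ1 : θ ≤ 1) (hσ : 0 < σ)
    (hσθ : σ * (A + 1) ≤ θ / 16) (hlam : 0 < lam) (hkl : (k : ℝ) / lam < k * (1 - θ))
    (hσk : σ * A < k - k / lam) (hδ : δ = σ / (4 * (4 * k + 4))) (hC3 : 1 ≤ C3)
    (hc : 0 < c) (hc2 : c ≤ 1 / 2) (hcl : c * (k / lam) ≤ δ / 4) :
    ∀ᶠ P : ℕ in atTop, ∀ Q : ℕ, 1 ≤ Q → (Q : ℝ) ≤ C3 * (P : ℝ) ^ ((k : ℝ) / lam) →
      ∃ (D Z : ℕ) (κ : ℝ) (L : Fin U → ℕ), 1 ≤ D ∧ 1 ≤ Z ∧ 0 < κ ∧ κ ≤ 1 / 2 ∧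
      (∀ i, L i ≤ P) ∧ (∀ i, 4 * Z * D ^ 2 ≤ L i) ∧ Set.InjOn (pw k) (Box L : Set (Fin U → ℕ)) ∧
      (k.factorial : ℝ) * (1 / κ) ^ A ≤ D ∧ (1 / κ) ^ A ≤ P ∧ (Q : ℝ) * (1 / κ) ^ A < (P : ℝ) ^ k ∧
      Q ≤ (Box L).card ∧
      κ * (2 * (Z : ℝ)) ^ (4 * k + 4) * (P : ℝ) ^ δ ≤ 1 / 2 * (Q : ℝ) ^ (-c) ∧
      (Q : ℝ) ^ c ≤ Real.sqrt Z ∧ (Q : ℝ) ^ c ≤ (P : ℝ) ^ (δ / 2) := by
  obtain ⟨P0, hran⟩ := ranges k (by omega) U
  have hkR : (3 : ℝ) ≤ k := by exact_mod_cast hk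
  have hk0 : (0 : ℝ) < k := by linarith
  have hAR : (1 : ℝ) ≤ A := by exact_mod_cast hA
  have hδ0 : 0 < δ := by rw [hδ]; positivity
  have hδσ : δ * (4 * k + 4) = σ / 4 := by
    rw [hδ]
    field_simp
  have hδσ2 : δ ≤ σ / 4 := by
    rw [← hδσ]
    nlinarith
  have hfac : (0 : ℝ) < k.factorial := by exact_mod_cast Nat.factorial_pos k
  have e1 := pr1_ev 2 0 σ hσ
  have e2 := pr1_ev (16 * (k.factorial : ℝ) ^ 2 * 8 ^ k) (δ + 2 * (σ * A)) θ (by nlinarith)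
  have e3 := pr1_ev (2 * C3) (k / lam + σ * A) k (by linarith)
  have e4 := pr1_ev ((8 ^ k) ^ U * C3) (k / lam) (k * (1 - θ)) hkl
  have e5 := pr1_ev (2 ^ (4 * k + 5) * C3) (δ / 4) (σ / 2) (by linarith)
  have e6 := pr1_ev (2 * C3) (δ / 4) (δ / 2) (by linarith)
  have e7 := pr1_ev 2 0 δ hδ0
  have e8 := pr1_ev (1 / k.factorial) 0 (σ * A) (by positivity)
  filter_upwards [e1, e2, e3, e4, e5, e6, e7, e8, eventually_ge_atTop P0, eventually_ge_atTop 1]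
    with P e1 e2 e3 e4 e5 e6 e7 e8 hPP0 hP1 Q hQ hQC
  have hP1R : (1 : ℝ) ≤ P := by exact_mod_cast hP1
  have hP0 : (0 : ℝ) < P := by linarith
  have hQR : (1 : ℝ) ≤ Q := by exact_mod_cast hQ
  have hQ0 : (0 : ℝ) < Q := by linarith
  rw [Real.rpow_zero, mul_one] at e1 e7 e8
  obtain ⟨L, hL1, hLP, hLθ, hinj⟩ := hran P hPP0
  obtain ⟨κ, hκ⟩ : ∃ κ : ℝ, κ = (P : ℝ) ^ (-σ) := ⟨_, rfl⟩
  have hκ0 : 0 < κ := by rw [hκ]; exact Real.rpow_pos_of_pos hP0 _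
  have hκinv : 1 / κ = (P : ℝ) ^ σ := by
    rw [hκ, Real.rpow_neg hP0.le, one_div, inv_inv]
  have hκA : (1 / κ) ^ A = (P : ℝ) ^ (σ * A) := by
    rw [hκinv, ← Real.rpow_natCast, ← Real.rpow_mul hP0.le]
  have hPσA : 0 < (P : ℝ) ^ (σ * A) := Real.rpow_pos_of_pos hP0 _
  obtain ⟨D, hD⟩ : ∃ D : ℕ, D = ⌈(k.factorial : ℝ) * (P : ℝ) ^ (σ * A)⌉₊ := ⟨_, rfl⟩
  obtain ⟨Z, hZ⟩ : ∃ Z : ℕ, Z = ⌊(P : ℝ) ^ δ⌋₊ := ⟨_, rfl⟩
  have hD1 : 1 ≤ D := by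
    rw [hD]
    exact Nat.one_le_ceil_iff.2 (by positivity)
  have hDle : (k.factorial : ℝ) * (P : ℝ) ^ (σ * A) ≤ D := by
    rw [hD]
    exact Nat.le_ceil _
  have hDup : (D : ℝ) ≤ 2 * (k.factorial : ℝ) * (P : ℝ) ^ (σ * A) := by
    have h1 : (D : ℝ) < (k.factorial : ℝ) * (P : ℝ) ^ (σ * A) + 1 := by
      rw [hD]
      exact Nat.ceil_lt_add_one (by positivity)
    have h2 : 1 ≤ (k.factorial : ℝ) * (P : ℝ) ^ (σ * A) := by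
      rw [div_le_iff₀ hfac] at e8
      linarith
    linarith
  have hPδ1 : 1 ≤ (P : ℝ) ^ δ := Real.one_le_rpow hP1R hδ0.le
  have hZ1 : 1 ≤ Z := by
    rw [hZ]
    exact Nat.le_floor (by simpa using hPδ1)
  have hZup : (Z : ℝ) ≤ (P : ℝ) ^ δ := by
    rw [hZ]
    exact Nat.floor_le (by positivity)
  have hZlow : (P : ℝ) ^ δ / 2 ≤ Z := by
    have h1 : (P : ℝ) ^ δ < Z + 1 := by
      rw [hZ]
      exact Nat.lt_floor_add_one _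
    linarith
  have hQc : (Q : ℝ) ^ c ≤ C3 * (P : ℝ) ^ (δ / 4) := by
    calc (Q : ℝ) ^ c ≤ (C3 * (P : ℝ) ^ ((k : ℝ) / lam)) ^ c :=
          Real.rpow_le_rpow hQ0.le hQC hc.le
      _ = C3 ^ c * (P : ℝ) ^ (k / lam * c) := by
          rw [Real.mul_rpow (by linarith) (Real.rpow_nonneg hP0.le _), ← Real.rpow_mul hP0.le]
      _ ≤ C3 ^ (1 : ℝ) * (P : ℝ) ^ (δ / 4) := by
          refine mul_le_mul ?_ ?_ (Real.rpow_nonneg hP0.le _) (Real.rpow_nonneg (by linarith) _)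
          · exact Real.rpow_le_rpow_of_exponent_le hC3 (by linarith)
          · exact Real.rpow_le_rpow_of_exponent_le hP1R (by linarith)
      _ = C3 * (P : ℝ) ^ (δ / 4) := by rw [Real.rpow_one]
  have hQcpos : 0 < (Q : ℝ) ^ c := Real.rpow_pos_of_pos hQ0 _
  refine ⟨D, Z, κ, L, hD1, hZ1, hκ0, ?_, hLP, fun i => ?_, hinj, ?_, ?_, ?_, ?_, ?_, ?_, ?_⟩
  · -- κ ≤ 1/2
    rw [hκ, Real.rpow_neg hP0.le, ← one_div]
    exact one_div_le_one_div_of_le (by norm_num) e1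
  · -- 4 Z D^2 ≤ L i
    have h1 : (4 * (Z : ℝ) * (D : ℝ) ^ 2) ≤
        16 * (k.factorial : ℝ) ^ 2 * (P : ℝ) ^ (δ + 2 * (σ * A)) := by
      have h2 : (D : ℝ) ^ 2 ≤ (2 * (k.factorial : ℝ) * (P : ℝ) ^ (σ * A)) ^ 2 :=
        pow_le_pow_left₀ (by positivity) hDup 2
      calc 4 * (Z : ℝ) * (D : ℝ) ^ 2 ≤
            4 * (P : ℝ) ^ δ * (2 * (k.factorial : ℝ) * (P : ℝ) ^ (σ * A)) ^ 2 := by gcongr
        _ = 16 * (k.factorial : ℝ) ^ 2 * ((P : ℝ) ^ δ * ((P : ℝ) ^ (σ * A)) ^ 2) := by ring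
        _ = 16 * (k.factorial : ℝ) ^ 2 * (P : ℝ) ^ (δ + 2 * (σ * A)) := by
            rw [Real.rpow_add hP0, two_mul (σ * A), Real.rpow_add hP0, ← sq]
    have h3 : (P : ℝ) ^ θ ≤ 8 ^ k * (L i : ℝ) := by
      refine le_trans ?_ (hLθ i)
      refine Real.rpow_le_rpow_of_exponent_le hP1R ?_
      rw [hθ]
      refine pow_le_pow_of_le_one ?_ ?_ i.2.le
      · rw [sub_nonneg, div_le_one hk0]
        linarith
      · have : 0 < 1 / (k : ℝ) := by positivity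
        linarith
    have h4 : (4 * (Z : ℝ) * (D : ℝ) ^ 2) ≤ L i := by
      have h5 : 8 ^ k * (4 * (Z : ℝ) * (D : ℝ) ^ 2) ≤ 8 ^ k * (L i : ℝ) := by
        calc 8 ^ k * (4 * (Z : ℝ) * (D : ℝ) ^ 2) ≤
              8 ^ k * (16 * (k.factorial : ℝ) ^ 2 * (P : ℝ) ^ (δ + 2 * (σ * A))) := by gcongr
          _ = 16 * (k.factorial : ℝ) ^ 2 * 8 ^ k * (P : ℝ) ^ (δ + 2 * (σ * A)) := by ring
          _ ≤ (P : ℝ) ^ θ := e2
          _ ≤ 8 ^ k * (L i : ℝ) := h3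
      exact le_of_mul_le_mul_left h5 (by positivity)
    exact_mod_cast h4
  · rw [hκA]
    exact hDle
  · rw [hκA]
    calc (P : ℝ) ^ (σ * A) ≤ (P : ℝ) ^ (1 : ℝ) :=
          Real.rpow_le_rpow_of_exponent_le hP1R (by nlinarith)
      _ = P := Real.rpow_one _
  · rw [hκA]
    have h1 : (Q : ℝ) * (P : ℝ) ^ (σ * A) ≤ C3 * (P : ℝ) ^ (k / lam + σ * A) := by
      rw [Real.rpow_add hP0, ← mul_assoc]
      exact mul_le_mul_of_nonneg_right hQC hPσA.le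
    have h2 : 0 < C3 * (P : ℝ) ^ (k / lam + σ * A) := by
      have := Real.rpow_pos_of_pos hP0 (k / lam + σ * A)
      positivity
    rw [Real.rpow_natCast] at e3
    linarith
  · have h1 := pr1_box k U hk P hP1 L hLθ
    rw [← hθ] at h1
    have h2 : (8 ^ k) ^ U * (Q : ℝ) ≤ (8 ^ k) ^ U * ((Box L).card : ℝ) := by
      calc (8 ^ k) ^ U * (Q : ℝ) ≤ (8 ^ k) ^ U * (C3 * (P : ℝ) ^ ((k : ℝ) / lam)) := by gcongr
        _ = (8 ^ k) ^ U * C3 * (P : ℝ) ^ ((k : ℝ) / lam) := by ring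
        _ ≤ (P : ℝ) ^ ((k : ℝ) * (1 - θ)) := e4
        _ ≤ (8 ^ k) ^ U * ((Box L).card : ℝ) := h1
    have h3 : (Q : ℝ) ≤ ((Box L).card : ℝ) := le_of_mul_le_mul_left h2 (by positivity)
    exact_mod_cast h3
  · -- κ (2Z)^(4k+4) P^δ ≤ 1/2 Q^(-c)
    have h1 : κ * (2 * (Z : ℝ)) ^ (4 * k + 4) * (P : ℝ) ^ δ ≤
        2 ^ (4 * k + 4) * (P : ℝ) ^ (-(σ / 2)) := by
      have h2 : (2 * (Z : ℝ)) ^ (4 * k + 4) ≤ (2 * (P : ℝ) ^ δ) ^ (4 * k + 4) :=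
        pow_le_pow_left₀ (by positivity) (by linarith) _
      have h3 : (2 * (P : ℝ) ^ δ) ^ (4 * k + 4) = 2 ^ (4 * k + 4) * (P : ℝ) ^ (σ / 4) := by
        rw [mul_pow, ← Real.rpow_natCast ((P : ℝ) ^ δ), ← Real.rpow_mul hP0.le]
        push_cast
        rw [hδσ]
      calc κ * (2 * (Z : ℝ)) ^ (4 * k + 4) * (P : ℝ) ^ δ ≤
            κ * (2 ^ (4 * k + 4) * (P : ℝ) ^ (σ / 4)) * (P : ℝ) ^ (σ / 4) := by
            have h4 : (P : ℝ) ^ δ ≤ (P : ℝ) ^ (σ / 4) :=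
              Real.rpow_le_rpow_of_exponent_le hP1R hδσ2
            rw [h3] at h2
            gcongr
        _ = 2 ^ (4 * k + 4) * (κ * (P : ℝ) ^ (σ / 4) * (P : ℝ) ^ (σ / 4)) := by ring
        _ = 2 ^ (4 * k + 4) * (P : ℝ) ^ (-(σ / 2)) := by
            rw [hκ, ← Real.rpow_add hP0, ← Real.rpow_add hP0]
            congr 2
            ring
    refine h1.trans ?_
    have h5 : 2 ^ (4 * k + 5) * (Q : ℝ) ^ c ≤ (P : ℝ) ^ (σ / 2) := by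
      calc 2 ^ (4 * k + 5) * (Q : ℝ) ^ c ≤ 2 ^ (4 * k + 5) * (C3 * (P : ℝ) ^ (δ / 4)) := by gcongr
        _ = 2 ^ (4 * k + 5) * C3 * (P : ℝ) ^ (δ / 4) := by ring
        _ ≤ (P : ℝ) ^ (σ / 2) := e5
    have hPs : 0 < (P : ℝ) ^ (σ / 2) := Real.rpow_pos_of_pos hP0 _
    rw [Real.rpow_neg hP0.le, Real.rpow_neg hQ0.le, ← div_eq_mul_inv, ← div_eq_mul_inv,
      div_le_div_iff₀ hPs hQcpos]
    have h6 : (2 : ℝ) ^ (4 * k + 5) = 2 * 2 ^ (4 * k + 4) := by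
      rw [pow_succ]
      ring
    rw [h6] at h5
    linarith
  · refine Real.le_sqrt_of_sq_le ?_
    have h1 : ((Q : ℝ) ^ c) ^ 2 ≤ (C3 * (P : ℝ) ^ (δ / 4)) ^ 2 :=
      pow_le_pow_left₀ hQcpos.le hQc 2
    have h2 : (C3 * (P : ℝ) ^ (δ / 4)) ^ 2 * 4 ≤ (P : ℝ) ^ δ := by
      have h3 : (2 * C3 * (P : ℝ) ^ (δ / 4)) ^ 2 ≤ ((P : ℝ) ^ (δ / 2)) ^ 2 :=
        pow_le_pow_left₀ (by positivity) e6 2
      have h4 : ((P : ℝ) ^ (δ / 2)) ^ 2 = (P : ℝ) ^ δ := by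
        rw [sq, ← Real.rpow_add hP0]
        congr 1
        ring
      rw [h4] at h3
      calc (C3 * (P : ℝ) ^ (δ / 4)) ^ 2 * 4 = (2 * C3 * (P : ℝ) ^ (δ / 4)) ^ 2 := by ring
        _ ≤ (P : ℝ) ^ δ := h3
    have h5 : 0 ≤ (C3 * (P : ℝ) ^ (δ / 4)) ^ 2 := sq_nonneg _
    linarith
  · have h1 : 0 ≤ C3 * (P : ℝ) ^ (δ / 4) := by positivity
    have h2 : 2 * C3 * (P : ℝ) ^ (δ / 4) = 2 * (C3 * (P : ℝ) ^ (δ / 4)) := by ring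
    rw [h2] at e6
    linarith

theorem numerics (k U A : ℕ) (hk : 3 ≤ k) (hA : 1 ≤ A) (lam : ℝ)
    (hlam : 1 < lam * (1 - (1 - 1 / (k : ℝ)) ^ U)) : ∃ ε c : ℝ, 0 < ε ∧ 0 < c ∧ c ≤ 1 / 2 ∧ ∃ Q0 : ℕ,
    ∀ Q : ℕ, Q0 ≤ Q → ∃ (P D Z : ℕ) (κ : ℝ) (L : Fin U → ℕ), 1 ≤ P ∧ 1 ≤ D ∧ 1 ≤ Z ∧ 0 < κ ∧ κ ≤ 1 / 2 ∧
      (∀ i, L i ≤ P) ∧ (∀ i, 4 * Z * D ^ 2 ≤ L i) ∧ Set.InjOn (pw k) (Box L : Set (Fin U → ℕ)) ∧
      (k.factorial : ℝ) * (1 / κ) ^ A ≤ D ∧ (1 / κ) ^ A ≤ P ∧ (Q : ℝ) * (1 / κ) ^ A < (P : ℝ) ^ k ∧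
      Q ≤ (Box L).card ∧ (2 * (k : ℝ) + 1) * (2 * (P : ℝ)) ^ k ≤ ((Q : ℝ) / 2) ^ lam ∧
      κ * (2 * (Z : ℝ)) ^ (4 * k + 4) * (P : ℝ) ^ ε ≤ 1 / 2 * (Q : ℝ) ^ (-c) ∧
      (Q : ℝ) ^ c ≤ Real.sqrt Z ∧ (Q : ℝ) ^ c ≤ (P : ℝ) ^ (ε / 2) := by
  have hkR : (3 : ℝ) ≤ k := by exact_mod_cast hk
  have hk0 : (0 : ℝ) < k := by linarith
  have hAR : (1 : ℝ) ≤ A := by exact_mod_cast hA
  obtain ⟨θ, hθ⟩ : ∃ θ : ℝ, θ = (1 - 1 / (k : ℝ)) ^ U := ⟨_, rfl⟩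
  have hk1 : 1 / (k : ℝ) ≤ 1 / 3 := one_div_le_one_div_of_le (by norm_num) hkR
  have hk2 : 0 < 1 / (k : ℝ) := by positivity
  have hθ0 : 0 < θ := by
    rw [hθ]
    exact pow_pos (by linarith) U
  have hθ1 : θ ≤ 1 := by
    rw [hθ]
    exact pow_le_one₀ (by linarith) (by linarith)
  rw [← hθ] at hlam
  have hlam0 : 0 < lam := by
    by_contra hcon
    push Not at hcon
    have h2 : lam * (1 - θ) ≤ 0 := mul_nonpos_of_nonpos_of_nonneg hcon (by linarith)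
    linarith
  have hlam1 : 1 < lam := by nlinarith
  have hkl : (k : ℝ) / lam < k * (1 - θ) := by
    rw [div_lt_iff₀ hlam0]
    nlinarith
  have hkk : 0 < (k : ℝ) - k / lam := by
    have : (k : ℝ) / lam < k := by
      rw [div_lt_iff₀ hlam0]
      nlinarith
    linarith
  obtain ⟨σ, hσ⟩ : ∃ σ : ℝ, σ = min (θ / (16 * (A + 1))) ((k - k / lam) / (2 * A)) := ⟨_, rfl⟩
  have hσ0 : 0 < σ := by
    rw [hσ]
    have : (0 : ℝ) < A := by linarith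
    positivity
  have hσθ : σ * (A + 1) ≤ θ / 16 := by
    have h1 : σ ≤ θ / (16 * (A + 1)) := by rw [hσ]; exact min_le_left _ _
    calc σ * (A + 1) ≤ θ / (16 * (A + 1)) * (A + 1) := by gcongr
      _ = θ / 16 := by field_simp
  have hσk : σ * A < k - k / lam := by
    have h1 : σ ≤ (k - k / lam) / (2 * A) := by rw [hσ]; exact min_le_right _ _
    have h2 : σ * A ≤ (k - k / lam) / 2 := by
      calc σ * A ≤ (k - k / lam) / (2 * A) * A := by gcongr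
        _ = (k - k / lam) / 2 := by field_simp
    linarith
  obtain ⟨δ, hδ⟩ : ∃ δ : ℝ, δ = σ / (4 * (4 * k + 4)) := ⟨_, rfl⟩
  have hδ0 : 0 < δ := by rw [hδ]; positivity
  -- c0
  obtain ⟨c0, hc00, hc01, hc0⟩ : ∃ c0 : ℝ, 0 < c0 ∧ c0 ≤ 1 ∧
      (2 * c0) ^ k * (2 * (k : ℝ) + 1) * (2 : ℝ) ^ lam ≤ 1 := by
    obtain ⟨W, hW⟩ : ∃ W : ℝ, W = 2 ^ k * (2 * (k : ℝ) + 1) * (2 : ℝ) ^ lam := ⟨_, rfl⟩
    have h2l : 1 ≤ (2 : ℝ) ^ lam := Real.one_le_rpow (by norm_num) hlam0.le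
    have hW1 : 1 ≤ W := by
      rw [hW]
      have h1 : (1 : ℝ) ≤ 2 ^ k := one_le_pow₀ (by norm_num)
      have h3 : (1 : ℝ) ≤ 2 * (k : ℝ) + 1 := by linarith
      calc (1 : ℝ) = 1 * 1 * 1 := by norm_num
        _ ≤ 2 ^ k * (2 * (k : ℝ) + 1) * (2 : ℝ) ^ lam := by gcongr
    refine ⟨1 / W, by positivity, ?_, ?_⟩
    · rw [div_le_one (by linarith)]
      exact hW1
    · have h4 : (1 / W) ^ k ≤ 1 / W := by
        have h5 : 1 / W ≤ 1 := by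
          rw [div_le_one (by linarith)]
          exact hW1
        calc (1 / W) ^ k ≤ (1 / W) ^ 1 :=
              pow_le_pow_of_le_one (by positivity) h5 (by omega)
          _ = 1 / W := pow_one _
      calc (2 * (1 / W)) ^ k * (2 * (k : ℝ) + 1) * (2 : ℝ) ^ lam = (1 / W) ^ k * W := by
            rw [mul_pow, hW]
            ring
        _ ≤ 1 / W * W := by gcongr
        _ = 1 := by
            have : W ≠ 0 := by linarith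
            field_simp
  obtain ⟨C3, hC3⟩ : ∃ C3 : ℝ, C3 = (2 / c0) ^ ((k : ℝ) / lam) := ⟨_, rfl⟩
  have hC31 : 1 ≤ C3 := by
    rw [hC3]
    refine Real.one_le_rpow ?_ (by positivity)
    rw [le_div_iff₀ hc00]
    linarith
  obtain ⟨c, hc⟩ : ∃ c : ℝ, c = min (1 / 2) (lam / k * (δ / 4)) := ⟨_, rfl⟩
  have hcpos : 0 < c := by rw [hc]; positivity
  have hc2 : c ≤ 1 / 2 := by rw [hc]; exact min_le_left _ _
  have hcl : c * (k / lam) ≤ δ / 4 := by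
    have h1 : c ≤ lam / k * (δ / 4) := by rw [hc]; exact min_le_right _ _
    calc c * (k / lam) ≤ lam / k * (δ / 4) * (k / lam) := by gcongr
      _ = δ / 4 := by field_simp
  have hcore := pr1_core k U A hk hA lam θ σ δ C3 c hθ hθ0 hθ1 hσ0 hσθ hlam0 hkl hσk hδ hC31
    hcpos hc2 hcl
  have hx : Filter.Tendsto (fun Q : ℕ => c0 * (Q : ℝ) ^ (lam / k)) Filter.atTop Filter.atTop :=
    ((tendsto_rpow_atTop (by positivity : 0 < lam / k)).comp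
      tendsto_natCast_atTop_atTop).const_mul_atTop hc00
  have hfl : Filter.Tendsto (fun Q : ℕ => ⌊c0 * (Q : ℝ) ^ (lam / k)⌋₊) Filter.atTop Filter.atTop :=
    tendsto_nat_floor_atTop.comp hx
  obtain ⟨Q0, hQ0⟩ := Filter.eventually_atTop.1
    ((hfl.eventually hcore).and ((hx.eventually_ge_atTop 1).and (Filter.eventually_ge_atTop 1)))
  refine ⟨δ, c, hδ0, hcpos, hc2, Q0, fun Q hQ => ?_⟩
  obtain ⟨h1, h2, h3⟩ := hQ0 Q hQ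
  obtain ⟨P, hP⟩ : ∃ P : ℕ, P = ⌊c0 * (Q : ℝ) ^ (lam / k)⌋₊ := ⟨_, rfl⟩
  rw [← hP] at h1
  have hQR : (1 : ℝ) ≤ Q := by exact_mod_cast h3
  have hQR0 : (0 : ℝ) < Q := by linarith
  have hP1 : 1 ≤ P := by
    rw [hP]
    exact Nat.le_floor (by simpa using h2)
  have hPle : (P : ℝ) ≤ c0 * (Q : ℝ) ^ (lam / k) := by
    rw [hP]
    exact Nat.floor_le (by linarith)
  have hPlow : c0 * (Q : ℝ) ^ (lam / k) ≤ 2 * P := by
    have h4 : c0 * (Q : ℝ) ^ (lam / k) < P + 1 := by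
      rw [hP]
      exact Nat.lt_floor_add_one _
    have h5 : (1 : ℝ) ≤ P := by exact_mod_cast hP1
    linarith
  have hQC : (Q : ℝ) ≤ C3 * (P : ℝ) ^ ((k : ℝ) / lam) := by
    have h4 : (Q : ℝ) ^ (lam / k) ≤ 2 / c0 * P := by
      rw [div_mul_eq_mul_div, le_div_iff₀ hc00]
      linarith
    have h5 : (Q : ℝ) = ((Q : ℝ) ^ (lam / k)) ^ ((k : ℝ) / lam) := by
      rw [← Real.rpow_mul hQR0.le]
      have : lam / k * (k / lam) = 1 := by field_simp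
      rw [this, Real.rpow_one]
    rw [h5, hC3, ← Real.mul_rpow (by positivity) (by positivity)]
    exact Real.rpow_le_rpow (by positivity) h4 (by positivity)
  obtain ⟨D, Z, κ, L, r1, r2, r3, r4, r5, r6, r7, r8, r9, r10, r11, r12, r13, r14⟩ :=
    h1 Q h3 hQC
  refine ⟨P, D, Z, κ, L, hP1, r1, r2, r3, r4, r5, r6, r7, r8, r9, r10, r11, ?_, r12, r13, r14⟩
  have h4 : (2 * (P : ℝ)) ^ k ≤ (2 * c0) ^ k * (Q : ℝ) ^ lam := by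
    calc (2 * (P : ℝ)) ^ k ≤ (2 * (c0 * (Q : ℝ) ^ (lam / k))) ^ k :=
          pow_le_pow_left₀ (by positivity) (by linarith) k
      _ = (2 * c0) ^ k * ((Q : ℝ) ^ (lam / k)) ^ k := by
          rw [← mul_assoc, mul_pow]
      _ = (2 * c0) ^ k * (Q : ℝ) ^ lam := by
          rw [← Real.rpow_natCast ((Q : ℝ) ^ (lam / k)), ← Real.rpow_mul hQR0.le]
          congr 2
          field_simp
  have h2l : 0 < (2 : ℝ) ^ lam := Real.rpow_pos_of_pos (by norm_num) _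
  have hQl : 0 < (Q : ℝ) ^ lam := Real.rpow_pos_of_pos hQR0 _
  rw [Real.div_rpow hQR0.le (by norm_num), le_div_iff₀ h2l]
  calc (2 * (k : ℝ) + 1) * (2 * (P : ℝ)) ^ k * 2 ^ lam ≤
        (2 * (k : ℝ) + 1) * ((2 * c0) ^ k * (Q : ℝ) ^ lam) * 2 ^ lam := by gcongr
    _ = ((2 * c0) ^ k * (2 * (k : ℝ) + 1) * (2 : ℝ) ^ lam) * (Q : ℝ) ^ lam := by ring
    _ ≤ 1 * (Q : ℝ) ^ lam := by gcongr
    _ = (Q : ℝ) ^ lam := one_mul _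

end Pool.Agent.H12.TL
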