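import Pool.Agent.H12.TL.Defs

/-!
# Module SMO: few integers have a large smooth divisor (MATHLIB ONLY)

PROOF. If `m` divides `q <= Q`, `m > Z` and all primes of `m` are `<= w`: the number of such `q` is at most
`sum over such m of Q/m <= Q Z^(-1/2) sum m^(-1/2)`, and the sum over all `w`-smooth `m >= 1` of `m^(-1/2)` converges: it is
`prod_(p <= w) (1 - p^(-1/2))^(-1)` (Mathlib: `EulerProduct.summable_and_hasSum_smoothNumbers_prod_primesBelow_geometric`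
or `Nat.smoothNumbers` with `Summable`), or elementary: an `m` with all primes `<= w` is `prod_(p<=w) p^(e_p)`, so the number
of them in `[2^j, 2^(j+1))` is at most `(j+2)^w` (each `e_p <= j+1`), hence the sum is at most
`sum_j (j+2)^w 2^(-j/2) < oo`. The constant `C` may depend on `w`.
-/

set_option autoImplicit false

namespace Pool.Agent.H12.TL

open Finset
open Pool.Agent.H26.LDP (e)

theorem smooth_count (w : ℕ) : ∃ C : ℝ, 0 < C ∧ ∀ Q Z : ℕ, 1 ≤ Z →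
    (({q : ℕ | 1 ≤ q ∧ q ≤ Q ∧ ∃ m : ℕ, m ∣ q ∧ Z < m ∧ ∀ p : ℕ, p.Prime → p ∣ m → p ≤ w}).ncard : ℝ)
      ≤ C * Q / Real.sqrt Z := by
  classical
  let f : ℕ →* ℝ :=
    { toFun := fun n => (n : ℝ) ^ (-(1 / 2) : ℝ)
      map_one' := by simp
      map_mul' := fun m n => by
        push_cast
        exact Real.mul_rpow (Nat.cast_nonneg m) (Nat.cast_nonneg n) }
  have hf : ∀ n, f n = (n : ℝ) ^ (-(1 / 2) : ℝ) := fun n => rfl
  have h1 : ∀ {p : ℕ}, p.Prime → ‖f p‖ < 1 := by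
    intro p hp
    have h3 : 0 ≤ (p : ℝ) ^ (-(1 / 2) : ℝ) := by positivity
    rw [hf, Real.norm_of_nonneg h3]
    exact Real.rpow_lt_one_of_one_lt_of_neg (by exact_mod_cast hp.one_lt) (by norm_num)
  obtain ⟨hsum, _⟩ := EulerProduct.summable_and_hasSum_smoothNumbers_prod_primesBelow_geometric
    (f := f) h1 (w + 1)
  have hsum' : Summable (fun m : (w + 1).smoothNumbers => f m) := hsum.of_norm
  have hnn : ∀ m : (w + 1).smoothNumbers, 0 ≤ f m := fun m => by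
    rw [hf]; positivity
  have htn : 0 ≤ ∑' m : (w + 1).smoothNumbers, f m := tsum_nonneg hnn
  refine ⟨(∑' m : (w + 1).smoothNumbers, f m) + 1, by linarith, ?_⟩
  intro Q Z hZ
  have hZ0 : (0 : ℝ) < Real.sqrt Z := Real.sqrt_pos.mpr (by exact_mod_cast hZ)
  set M : Finset ℕ := (Ioc Z Q).filter (fun m => m ∈ (w + 1).smoothNumbers) with hM
  have h2 : {q : ℕ | 1 ≤ q ∧ q ≤ Q ∧ ∃ m : ℕ, m ∣ q ∧ Z < m ∧
      ∀ p : ℕ, p.Prime → p ∣ m → p ≤ w} ⊆
      ((M.biUnion (fun m => (Ioc 0 Q).filter (fun q => m ∣ q)) : Finset ℕ) : Set ℕ) := by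
    rintro q ⟨hq1, hq2, m, hmq, hZm, hm⟩
    rw [Finset.mem_coe, Finset.mem_biUnion]
    refine ⟨m, ?_, ?_⟩
    · rw [hM, Finset.mem_filter, Finset.mem_Ioc]
      refine ⟨⟨hZm, (Nat.le_of_dvd (by omega) hmq).trans hq2⟩, ?_⟩
      rw [Nat.mem_smoothNumbers']
      intro p hp hpm
      have := hm p hp hpm
      omega
    · rw [Finset.mem_filter, Finset.mem_Ioc]
      exact ⟨⟨by omega, hq2⟩, hmq⟩
  have h3 := Set.ncard_le_ncard h2 (Finset.finite_toSet _)
  rw [Set.ncard_coe_finset] at h3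
  have h4 : (M.biUnion (fun m => (Ioc 0 Q).filter (fun q => m ∣ q))).card ≤
      ∑ m ∈ M, ((Ioc 0 Q).filter (fun q => m ∣ q)).card := Finset.card_biUnion_le
  have h5 : ∑ m ∈ M, (((Ioc 0 Q).filter (fun q => m ∣ q)).card : ℝ) ≤
      ∑ m ∈ M, (Q / Real.sqrt Z) * (m : ℝ) ^ (-(1 / 2) : ℝ) := by
    apply Finset.sum_le_sum
    intro m hm
    rw [hM, Finset.mem_filter, Finset.mem_Ioc] at hm
    have hm0 : 0 < m := by omega
    have hm0' : (0 : ℝ) < m := by exact_mod_cast hm0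
    have h6 : ((Ioc 0 Q).filter (fun q => m ∣ q)).card = Q / m := Nat.Ioc_filter_dvd_card_eq_div Q m
    rw [h6]
    have h7 : ((Q / m : ℕ) : ℝ) ≤ (Q : ℝ) / m := Nat.cast_div_le
    refine h7.trans ?_
    have h8 : (m : ℝ) ^ (-(1 / 2) : ℝ) = 1 / Real.sqrt m := by
      rw [Real.rpow_neg hm0'.le, ← Real.sqrt_eq_rpow, one_div]
    rw [h8, div_mul_div_comm, mul_one]
    apply div_le_div_of_nonneg_left (by positivity) (by positivity)
    have h9 : Real.sqrt Z ≤ Real.sqrt m := Real.sqrt_le_sqrt (by exact_mod_cast hm.1.1.le)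
    calc Real.sqrt Z * Real.sqrt m ≤ Real.sqrt m * Real.sqrt m :=
          mul_le_mul_of_nonneg_right h9 (Real.sqrt_nonneg _)
      _ = m := Real.mul_self_sqrt hm0'.le
  have h10 : ∑ m ∈ M, (m : ℝ) ^ (-(1 / 2) : ℝ) ≤ ∑' m : (w + 1).smoothNumbers, f m := by
    have hmem : ∀ m ∈ M, m ∈ (w + 1).smoothNumbers := fun m hm => by
      rw [hM, Finset.mem_filter] at hm
      exact hm.2
    have h11 := Finset.sum_subtype_of_mem (fun m : ℕ => (m : ℝ) ^ (-(1 / 2) : ℝ))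
      (p := fun m => m ∈ (w + 1).smoothNumbers) hmem
    rw [← h11]
    exact hsum'.sum_le_tsum _ (fun m _ => hnn m)
  calc _ ≤ ((∑ m ∈ M, ((Ioc 0 Q).filter (fun q => m ∣ q)).card : ℕ) : ℝ) := by
        exact_mod_cast h3.trans h4
    _ = ∑ m ∈ M, (((Ioc 0 Q).filter (fun q => m ∣ q)).card : ℝ) := by push_cast; rfl
    _ ≤ _ := h5
    _ = (Q / Real.sqrt Z) * ∑ m ∈ M, (m : ℝ) ^ (-(1 / 2) : ℝ) := by rw [Finset.mul_sum]
    _ ≤ (Q / Real.sqrt Z) * ((∑' m : (w + 1).smoothNumbers, f m) + 1) := by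
        apply mul_le_mul_of_nonneg_left _ (by positivity)
        linarith
    _ = _ := by ring

end Pool.Agent.H12.TL
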