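import Pool.Agent.H12.TL.Defs
import Pool.Agent.H92.DivBound

/-!
# Module TAV: the average of T over the moduli

PROOF. `sum_(q <= Q) T q = sum over pairs (x, x') of the box of #{q in Icc 1 Q : pw x ≡ pw x' mod q}`. If `pw x = pw x'` then
`x = x'` by hypothesis: these pairs contribute at most `|Box| Q`. Otherwise `q` divides `N = |pw x - pw x'| >= 1`
(`Nat.modEq_iff_dvd` or `Nat.modEq_iff_dvd'`), so the number of `q` is at most `N.divisors.card <= C1 N^ε'` by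
`Pool.Agent.H5.W.divisor_bound`, with `N <= pw x + pw x' <= 2 m (2P)^k`. With `ε' = ε/(k+1)`: `N^ε' <= (2 m 2^k + 1)^ε' *
P^(k ε/(k+1)) <= (2 m 2^k + 1)^ε' P^ε` as `P >= 1`. So `C = C1 (2 m 2^k + 1)^ε'` works.
-/

set_option autoImplicit false

namespace Pool.Agent.H12.TL

open Finset
open Pool.Agent.H26.LDP (e)


private theorem tav_pw_le (k m P : ℕ) (L : Fin m → ℕ) (hL : ∀ i, L i ≤ P) (x : Fin m → ℕ) (hx : x ∈ Box L) :
    pw k x ≤ m * (2 * P) ^ k := by
  unfold pw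
  have : ∀ i ∈ (univ : Finset (Fin m)), x i ^ k ≤ (2 * P) ^ k := by
    intro i _
    unfold Box at hx
    rw [Fintype.mem_piFinset] at hx
    have h1 := (mem_Ioc.mp (hx i)).2
    have h2 := hL i
    exact Nat.pow_le_pow_left (by omega) k
  calc ∑ i, x i ^ k ≤ ∑ _i : Fin m, (2 * P) ^ k := sum_le_sum this
    _ = m * (2 * P) ^ k := by rw [sum_const, smul_eq_mul, card_univ, Fintype.card_fin]

private theorem tav_count (a b Q : ℕ) (hab : a ≠ b) :
    ((Icc 1 Q).filter (fun q => a ≡ b [MOD q])).card ≤ (((a : ℤ) - b).natAbs).divisors.card := by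
  apply card_le_card
  intro q hq
  rw [mem_filter] at hq
  rw [Nat.mem_divisors]
  refine ⟨?_, ?_⟩
  · have h1 : (q : ℤ) ∣ (b : ℤ) - a := Nat.modEq_iff_dvd.mp hq.2
    have h2 : (q : ℤ) ∣ (a : ℤ) - b := by
      have := dvd_neg.mpr h1
      rwa [neg_sub] at this
    exact Int.natCast_dvd.mp h2
  · intro h
    rw [Int.natAbs_eq_zero] at h
    apply hab
    omega

theorem T_avg (k m : ℕ) (ε : ℝ) (hε : 0 < ε) : ∃ C : ℝ, 0 < C ∧ ∀ (P Q : ℕ) (L : Fin m → ℕ), 1 ≤ P →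
    (∀ i, L i ≤ P) → Set.InjOn (pw k) (Box L : Set (Fin m → ℕ)) →
    ∑ q ∈ Icc 1 Q, (T k L q : ℝ) ≤ ((Box L).card : ℝ) * Q + C * ((Box L).card : ℝ) ^ 2 * (P : ℝ) ^ ε := by
  set ε' : ℝ := ε / (k + 1) with hε'
  have hk1 : (0 : ℝ) < (k : ℝ) + 1 := by positivity
  have hε'0 : 0 < ε' := by positivity
  obtain ⟨C1, hC1, hdiv⟩ := Pool.Agent.H5.W.divisor_bound ε' hε'0
  set B : ℝ := (m : ℝ) * 2 ^ k + 1 with hB
  have hB1 : 1 ≤ B := by
    have : (0 : ℝ) ≤ (m : ℝ) * 2 ^ k := by positivity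
    linarith
  have hB0 : 0 < B := by linarith
  refine ⟨C1 * B ^ ε', by positivity, ?_⟩
  intro P Q L hP hL hinj
  have hP1 : (1 : ℝ) ≤ (P : ℝ) := by exact_mod_cast hP
  have hP0 : (0 : ℝ) < (P : ℝ) := by linarith
  have hT : ∀ q : ℕ, (T k L q : ℝ) = ∑ z ∈ Box L ×ˢ Box L, (if pw k z.1 ≡ pw k z.2 [MOD q] then (1 : ℝ) else 0) := by
    intro q
    unfold T
    rw [card_filter]
    push_cast
    rfl
  simp_rw [hT]
  rw [sum_comm]
  have hcount : ∀ z ∈ Box L ×ˢ Box L, ∑ q ∈ Icc 1 Q, (if pw k z.1 ≡ pw k z.2 [MOD q] then (1 : ℝ) else 0) ≤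
      (if z.1 = z.2 then (Q : ℝ) else 0) + C1 * B ^ ε' * (P : ℝ) ^ ε := by
    intro z hz
    rw [mem_product] at hz
    have hpos : 0 ≤ C1 * B ^ ε' * (P : ℝ) ^ ε := by positivity
    have hsum : ∑ q ∈ Icc 1 Q, (if pw k z.1 ≡ pw k z.2 [MOD q] then (1 : ℝ) else 0) =
        (((Icc 1 Q).filter (fun q => pw k z.1 ≡ pw k z.2 [MOD q])).card : ℝ) := by
      rw [card_filter]
      push_cast
      rfl
    rw [hsum]
    by_cases h : z.1 = z.2
    · rw [if_pos h]
      have : (((Icc 1 Q).filter (fun q => pw k z.1 ≡ pw k z.2 [MOD q])).card : ℝ) ≤ Q := by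
        have h1 := card_filter_le (Icc 1 Q) (fun q => pw k z.1 ≡ pw k z.2 [MOD q])
        rw [Nat.card_Icc] at h1
        have h2 : ((Icc 1 Q).filter (fun q => pw k z.1 ≡ pw k z.2 [MOD q])).card ≤ Q := by omega
        exact_mod_cast h2
      linarith
    · rw [if_neg h, zero_add]
      have hne : pw k z.1 ≠ pw k z.2 := by
        intro h1
        exact h (hinj (mem_coe.mpr hz.1) (mem_coe.mpr hz.2) h1)
      set N : ℕ := (((pw k z.1 : ℕ) : ℤ) - (pw k z.2 : ℕ)).natAbs with hN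
      have hN1 : 1 ≤ N := by omega
      have h1 := tav_count (pw k z.1) (pw k z.2) Q hne
      have h2 := hdiv N hN1
      have h3 : N ≤ m * (2 * P) ^ k := by
        have h4 := tav_pw_le k m P L hL z.1 hz.1
        have h5 := tav_pw_le k m P L hL z.2 hz.2
        generalize m * (2 * P) ^ k = M at *
        omega
      have h4 : (N : ℝ) ≤ B * (P : ℝ) ^ k := by
        have h5 : (N : ℝ) ≤ (m : ℝ) * (2 * (P : ℝ)) ^ k := by exact_mod_cast h3
        rw [mul_pow] at h5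
        have h6 : 0 ≤ (P : ℝ) ^ k := by positivity
        rw [hB]
        nlinarith
      have h5 : (N : ℝ) ^ ε' ≤ B ^ ε' * (P : ℝ) ^ ε := by
        calc (N : ℝ) ^ ε' ≤ (B * (P : ℝ) ^ k) ^ ε' := Real.rpow_le_rpow (Nat.cast_nonneg _) h4 hε'0.le
          _ = B ^ ε' * ((P : ℝ) ^ k) ^ ε' := Real.mul_rpow hB0.le (by positivity)
          _ = B ^ ε' * (P : ℝ) ^ ((k : ℝ) * ε') := by
              rw [← Real.rpow_natCast, ← Real.rpow_mul hP0.le]
          _ ≤ B ^ ε' * (P : ℝ) ^ ε := by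
              apply mul_le_mul_of_nonneg_left _ (by positivity)
              apply Real.rpow_le_rpow_of_exponent_le hP1
              rw [hε', mul_div_assoc', div_le_iff₀ hk1]
              nlinarith
      have h6 : (((Icc 1 Q).filter (fun q => pw k z.1 ≡ pw k z.2 [MOD q])).card : ℝ) ≤ (N.divisors.card : ℝ) := Nat.cast_le.mpr h1
      calc (((Icc 1 Q).filter (fun q => pw k z.1 ≡ pw k z.2 [MOD q])).card : ℝ) ≤ (N.divisors.card : ℝ) := h6
        _ ≤ C1 * (N : ℝ) ^ ε' := h2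
        _ ≤ C1 * (B ^ ε' * (P : ℝ) ^ ε) := mul_le_mul_of_nonneg_left h5 hC1.le
        _ = C1 * B ^ ε' * (P : ℝ) ^ ε := by ring
  refine (sum_le_sum hcount).trans ?_
  rw [sum_add_distrib, sum_const, card_product, nsmul_eq_mul, sum_product]
  have hdiag : ∑ x ∈ Box L, ∑ y ∈ Box L, (if x = y then (Q : ℝ) else 0) = ((Box L).card : ℝ) * Q := by
    rw [sum_congr rfl (fun x hx => by rw [sum_ite_eq, if_pos hx]), sum_const, nsmul_eq_mul]
  simp only at *
  rw [hdiag]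
  push_cast
  apply le_of_eq
  ring

end Pool.Agent.H12.TL
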