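import Pool.Agent.H12.TL.Pr1
import Pool.Agent.H12.TL.Tav
import Pool.Agent.H12.TL.Smo
import Pool.Agent.H12.TL.Dec

/-!
# Module PRM: almost all moduli of a dyadic interval satisfy the conditions

PROOF. `ε, c, Q0` from `numerics`. Let `Q >= max Q0 1` and `P, D, Z, κ, L` as there. Bad `q` are of two kinds: (i) those with a
divisor `m > Z` all of whose primes are `<= w`: at most `C1 Q/sqrt Z <= C1 Q^(1-c)` (`smooth_count`); (ii) those with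
`Q T(q) > |Box|^2 P^ε`: by `T_avg` with `ε/2` and Markov at most `(|Box| Q + C2 |Box|^2 P^(ε/2)) Q/(|Box|^2 P^ε) <=
(1 + C2) Q P^(-ε/2) <= (1 + C2) Q^(1-c)` (`Q <= |Box|`, `P >= 1`). Any other `q` with `Q < 2q`, `q <= Q` satisfies the long
condition: `q0, q1` from `decomp` (`q >= 1`); `q0 <= Z`, as `q0` divides `q` and all its primes are `<= w`; so
`4 q0 D^2 <= 4 Z D^2 <= L i`; `q1 <= q <= Q`; `(Q/2)^lam <= q^lam` (`lam > 0`, in fact `lam (1 - (..)^U) > 1` with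
`0 <= 1 - (..)^U <= 1`); and `κ q1 (2 q0)^(4k+4) T <= κ Q (2Z)^(4k+4) |Box|^2 P^ε/Q <= |Box|^2/2 Q^(-c) <= |Box|^2/2 q^(-c)`.
For `Q < max Q0 1` the number of `q <= Q` is at most `Q0 + 1 <= (Q0 + 1) Q^(1-c)` (`Q >= 1`). So
`C = C1 + 1 + C2 + Q0 + 1` works. (The set of bad `q` is contained in the union of the two sets, all finite.)
-/

set_option autoImplicit false

namespace Pool.Agent.H12.TL

open Finset
open Pool.Agent.H26.LDP (e)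

theorem params (k U w A : ℕ) (hk : 3 ≤ k) (hA : 1 ≤ A) (lam : ℝ)
    (hlam : 1 < lam * (1 - (1 - 1 / (k : ℝ)) ^ U)) : ∃ C c : ℝ, 0 < C ∧ 0 < c ∧ c ≤ 1 / 2 ∧ ∀ Q : ℕ, 1 ≤ Q →
    (({q : ℕ | Q < 2 * q ∧ q ≤ Q ∧ ¬ ∃ (q0 q1 D P : ℕ) (L : Fin U → ℕ) (κ : ℝ), q0 * q1 = q ∧ 1 ≤ q0 ∧ 1 ≤ q1 ∧
      1 ≤ D ∧ Nat.Coprime q0 q1 ∧ Rough w q1 ∧ (∀ i, L i ≤ P) ∧ (∀ i, 4 * q0 * D ^ 2 ≤ L i) ∧ 0 < κ ∧ κ ≤ 1 / 2 ∧
      (k.factorial : ℝ) * (1 / κ) ^ A ≤ D ∧ (1 / κ) ^ A ≤ P ∧ (q1 : ℝ) * (1 / κ) ^ A < (P : ℝ) ^ k ∧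
      1 ≤ (Box L).card ∧ (2 * (k : ℝ) + 1) * (2 * (P : ℝ)) ^ k ≤ (q : ℝ) ^ lam ∧
      κ * q1 * (2 * (q0 : ℝ)) ^ (4 * k + 4) * (T k L (q0 * q1) : ℝ) ≤
        ((Box L).card : ℝ) ^ 2 / 2 * (q : ℝ) ^ (-c)}).ncard : ℝ) ≤ C * (Q : ℝ) ^ (1 - c) := by
  classical
  have hlam0 : 0 < lam := by
    by_contra hcon
    push Not at hcon
    have hk0 : (0 : ℝ) < k := by
      have : 0 < k := by omega
      exact_mod_cast this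
    have hk1 : 1 / (k : ℝ) ≤ 1 := by
      rw [div_le_one hk0]
      have : 1 ≤ k := by omega
      exact_mod_cast this
    have h1 : (1 - 1 / (k : ℝ)) ^ U ≤ 1 := pow_le_one₀ (by linarith) (by
      have : 0 < 1 / (k : ℝ) := by positivity
      linarith)
    have h2 : lam * (1 - (1 - 1 / (k : ℝ)) ^ U) ≤ 0 :=
      mul_nonpos_of_nonpos_of_nonneg hcon (by linarith)
    linarith
  obtain ⟨ε, c, hε, hc, hc2, Q0, hnum⟩ := numerics k U A hk hA lam hlam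
  obtain ⟨C1, hC1, hsm⟩ := smooth_count w
  obtain ⟨C2, hC2, hT⟩ := T_avg k U (ε / 2) (by positivity)
  refine ⟨C1 + 1 + C2 + Q0 + 1, c, by positivity, hc, hc2, ?_⟩
  intro Q hQ
  have hQR : (1 : ℝ) ≤ Q := by exact_mod_cast hQ
  have hQR0 : (0 : ℝ) < Q := by linarith
  have hQc1 : 1 ≤ (Q : ℝ) ^ (1 - c) := Real.one_le_rpow hQR (by linarith)
  by_cases hQQ : Q0 ≤ Q
  · obtain ⟨P, D, Z, κ, L, hP, hD, hZ, hκ0, hκ1, hLP, hLD, hinj, hkD, hkP, hQP, hBox, h2k, hκZ,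
      hQZ, hQPε⟩ := hnum Q hQQ
    have hPR : (1 : ℝ) ≤ P := by exact_mod_cast hP
    have hPR0 : (0 : ℝ) < P := by linarith
    have hZR0 : (0 : ℝ) < Z := by
      have : 0 < Z := hZ
      exact_mod_cast this
    have hBR : (Q : ℝ) ≤ ((Box L).card : ℝ) := by exact_mod_cast hBox
    have hB0 : 0 < ((Box L).card : ℝ) := by linarith
    obtain ⟨b, hb⟩ : ∃ b : ℝ, b = ((Box L).card : ℝ) := ⟨_, rfl⟩
    rw [← hb] at hBR hB0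
    obtain ⟨B1, hB1⟩ : ∃ B1 : Set ℕ, B1 = {q : ℕ | 1 ≤ q ∧ q ≤ Q ∧ ∃ m : ℕ, m ∣ q ∧ Z < m ∧
      ∀ p : ℕ, p.Prime → p ∣ m → p ≤ w} := ⟨_, rfl⟩
    obtain ⟨B2, hB2⟩ : ∃ B2 : Finset ℕ, B2 = (Icc 1 Q).filter
      (fun q => b ^ 2 * (P : ℝ) ^ ε < (Q : ℝ) * (T k L q : ℝ)) := ⟨_, rfl⟩
    have hB1fin : B1.Finite := (Set.finite_Icc 1 Q).subset (by
      rw [hB1]
      rintro q ⟨h1, h2, -⟩
      exact ⟨h1, h2⟩)
    have hsub : {q : ℕ | Q < 2 * q ∧ q ≤ Q ∧ ¬ ∃ (q0 q1 D P : ℕ) (L : Fin U → ℕ) (κ : ℝ),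
      q0 * q1 = q ∧ 1 ≤ q0 ∧ 1 ≤ q1 ∧
      1 ≤ D ∧ Nat.Coprime q0 q1 ∧ Rough w q1 ∧ (∀ i, L i ≤ P) ∧ (∀ i, 4 * q0 * D ^ 2 ≤ L i) ∧
      0 < κ ∧ κ ≤ 1 / 2 ∧
      (k.factorial : ℝ) * (1 / κ) ^ A ≤ D ∧ (1 / κ) ^ A ≤ P ∧
      (q1 : ℝ) * (1 / κ) ^ A < (P : ℝ) ^ k ∧
      1 ≤ (Box L).card ∧ (2 * (k : ℝ) + 1) * (2 * (P : ℝ)) ^ k ≤ (q : ℝ) ^ lam ∧
      κ * q1 * (2 * (q0 : ℝ)) ^ (4 * k + 4) * (T k L (q0 * q1) : ℝ) ≤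
        ((Box L).card : ℝ) ^ 2 / 2 * (q : ℝ) ^ (-c)} ⊆ B1 ∪ (B2 : Set ℕ) := by
      rintro q ⟨hq1, hq2, hq3⟩
      by_contra hcon
      rw [Set.mem_union, not_or] at hcon
      obtain ⟨hn1, hn2⟩ := hcon
      have hqpos : 1 ≤ q := by omega
      have hqR : (1 : ℝ) ≤ q := by exact_mod_cast hqpos
      have hqR0 : (0 : ℝ) < q := by linarith
      apply hq3
      obtain ⟨q0, q1, hqq, hq01, hq11, hcop, hrough, hsmooth⟩ := decomp w q hqpos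
      have hq0Z : q0 ≤ Z := by
        by_contra hlt
        push Not at hlt
        apply hn1
        rw [hB1]
        exact ⟨hqpos, hq2, q0, ⟨q1, hqq.symm⟩, hlt, hsmooth⟩
      have hq1q : q1 ≤ Q := by
        have : q1 ≤ q0 * q1 := Nat.le_mul_of_pos_left _ hq01
        omega
      have hq1R : (q1 : ℝ) ≤ Q := by exact_mod_cast hq1q
      have hq0R : (q0 : ℝ) ≤ Z := by exact_mod_cast hq0Z
      have hTq : (Q : ℝ) * (T k L q : ℝ) ≤ b ^ 2 * (P : ℝ) ^ ε := by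
        by_contra hlt
        push Not at hlt
        apply hn2
        rw [hB2, coe_filter]
        exact ⟨mem_Icc.2 ⟨hqpos, hq2⟩, hlt⟩
      refine ⟨q0, q1, D, P, L, κ, hqq, hq01, hq11, hD, hcop, hrough, hLP, fun i => ?_, hκ0, hκ1,
        hkD, hkP, ?_, ?_, ?_, ?_⟩
      · refine le_trans ?_ (hLD i)
        exact Nat.mul_le_mul_right _ (Nat.mul_le_mul_left 4 hq0Z)
      · refine lt_of_le_of_lt ?_ hQP
        exact mul_le_mul_of_nonneg_right hq1R (by positivity)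
      · exact hQ.trans hBox
      · refine h2k.trans ?_
        refine Real.rpow_le_rpow (by positivity) ?_ hlam0.le
        have : (Q : ℝ) < 2 * q := by exact_mod_cast hq1
        linarith
      · rw [hqq, ← hb]
        have e1 : κ * q1 * (2 * (q0 : ℝ)) ^ (4 * k + 4) * (T k L q : ℝ) ≤
            κ * Q * (2 * (Z : ℝ)) ^ (4 * k + 4) * (T k L q : ℝ) := by
          gcongr
        have e2 : κ * Q * (2 * (Z : ℝ)) ^ (4 * k + 4) * (T k L q : ℝ) =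
            κ * (2 * (Z : ℝ)) ^ (4 * k + 4) * (Q * (T k L q : ℝ)) := by ring
        have e3 : κ * (2 * (Z : ℝ)) ^ (4 * k + 4) * (Q * (T k L q : ℝ)) ≤
            κ * (2 * (Z : ℝ)) ^ (4 * k + 4) * (b ^ 2 * (P : ℝ) ^ ε) :=
          mul_le_mul_of_nonneg_left hTq (by positivity)
        have e4 : κ * (2 * (Z : ℝ)) ^ (4 * k + 4) * (b ^ 2 * (P : ℝ) ^ ε) =
            b ^ 2 * (κ * (2 * (Z : ℝ)) ^ (4 * k + 4) * (P : ℝ) ^ ε) := by ring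
        have e5 : b ^ 2 * (κ * (2 * (Z : ℝ)) ^ (4 * k + 4) * (P : ℝ) ^ ε) ≤
            b ^ 2 * (1 / 2 * (Q : ℝ) ^ (-c)) := mul_le_mul_of_nonneg_left hκZ (by positivity)
        have e6 : (Q : ℝ) ^ (-c) ≤ (q : ℝ) ^ (-c) :=
          Real.rpow_le_rpow_of_nonpos hqR0 (by exact_mod_cast hq2) (by linarith)
        calc κ * q1 * (2 * (q0 : ℝ)) ^ (4 * k + 4) * (T k L q : ℝ) ≤
              b ^ 2 * (1 / 2 * (Q : ℝ) ^ (-c)) := by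
              refine e1.trans ?_
              rw [e2]
              refine e3.trans ?_
              rw [e4]
              exact e5
          _ ≤ b ^ 2 * (1 / 2 * (q : ℝ) ^ (-c)) := by gcongr
          _ = b ^ 2 / 2 * (q : ℝ) ^ (-c) := by ring
    have hcard1 : (B1.ncard : ℝ) ≤ C1 * (Q : ℝ) ^ (1 - c) := by
      have h1 := hsm Q Z hZ
      rw [← hB1] at h1
      refine h1.trans ?_
      have hQc0 : 0 < (Q : ℝ) ^ c := Real.rpow_pos_of_pos hQR0 c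
      have h2 : C1 * Q / Real.sqrt Z ≤ C1 * Q / (Q : ℝ) ^ c :=
        div_le_div_of_nonneg_left (by positivity) hQc0 hQZ
      refine h2.trans (le_of_eq ?_)
      rw [Real.rpow_sub hQR0, Real.rpow_one]
      ring
    have hcard2 : (B2.card : ℝ) ≤ (1 + C2) * (Q : ℝ) ^ (1 - c) := by
      have hPε0 : 0 < (P : ℝ) ^ ε := Real.rpow_pos_of_pos hPR0 _
      have hPε2 : 0 < (P : ℝ) ^ (ε / 2) := Real.rpow_pos_of_pos hPR0 _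
      have hPε1 : 1 ≤ (P : ℝ) ^ (ε / 2) := Real.one_le_rpow hPR (by positivity)
      have h1 : (B2.card : ℝ) * (b ^ 2 * (P : ℝ) ^ ε) ≤ Q * ∑ q ∈ Icc 1 Q, (T k L q : ℝ) := by
        calc (B2.card : ℝ) * (b ^ 2 * (P : ℝ) ^ ε) = ∑ q ∈ B2, (b ^ 2 * (P : ℝ) ^ ε) := by
              rw [sum_const, nsmul_eq_mul]
          _ ≤ ∑ q ∈ B2, (Q : ℝ) * (T k L q : ℝ) := by
              refine sum_le_sum fun q hq => ?_
              rw [hB2, mem_filter] at hq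
              exact hq.2.le
          _ ≤ ∑ q ∈ Icc 1 Q, (Q : ℝ) * (T k L q : ℝ) := by
              refine sum_le_sum_of_subset_of_nonneg ?_ (fun q _ _ => by positivity)
              rw [hB2]
              exact filter_subset _ _
          _ = Q * ∑ q ∈ Icc 1 Q, (T k L q : ℝ) := by rw [mul_sum]
      have h2 := hT P Q L hP hLP hinj
      rw [← hb] at h2
      have h3 : b * Q + C2 * b ^ 2 * (P : ℝ) ^ (ε / 2) ≤ (1 + C2) * b ^ 2 * (P : ℝ) ^ (ε / 2) := by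
        have h4 : b * Q ≤ b ^ 2 := by
          rw [sq]
          exact mul_le_mul_of_nonneg_left hBR hB0.le
        have h5 : b ^ 2 * 1 ≤ b ^ 2 * (P : ℝ) ^ (ε / 2) :=
          mul_le_mul_of_nonneg_left hPε1 (by positivity)
        linarith
      have h4 : (B2.card : ℝ) * (b ^ 2 * (P : ℝ) ^ ε) ≤
          Q * ((1 + C2) * b ^ 2 * (P : ℝ) ^ (ε / 2)) :=
        h1.trans (mul_le_mul_of_nonneg_left (h2.trans h3) hQR0.le)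
      have h5 : (P : ℝ) ^ ε = (P : ℝ) ^ (ε / 2) * (P : ℝ) ^ (ε / 2) := by
        rw [← Real.rpow_add hPR0]
        congr 1
        ring
      have h6 : (B2.card : ℝ) * (P : ℝ) ^ (ε / 2) ≤ Q * (1 + C2) := by
        have h7 : ((B2.card : ℝ) * (P : ℝ) ^ (ε / 2)) * (b ^ 2 * (P : ℝ) ^ (ε / 2)) ≤
            (Q * (1 + C2)) * (b ^ 2 * (P : ℝ) ^ (ε / 2)) := by
          calc ((B2.card : ℝ) * (P : ℝ) ^ (ε / 2)) * (b ^ 2 * (P : ℝ) ^ (ε / 2)) =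
                (B2.card : ℝ) * (b ^ 2 * (P : ℝ) ^ ε) := by rw [h5]; ring
            _ ≤ Q * ((1 + C2) * b ^ 2 * (P : ℝ) ^ (ε / 2)) := h4
            _ = (Q * (1 + C2)) * (b ^ 2 * (P : ℝ) ^ (ε / 2)) := by ring
        exact le_of_mul_le_mul_right h7 (by positivity)
      have hQc0 : 0 < (Q : ℝ) ^ c := Real.rpow_pos_of_pos hQR0 c
      have h7 : (B2.card : ℝ) * (Q : ℝ) ^ c ≤ Q * (1 + C2) :=
        (mul_le_mul_of_nonneg_left hQPε (by positivity)).trans h6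
      rw [Real.rpow_sub hQR0, Real.rpow_one, mul_div_assoc', le_div_iff₀ hQc0]
      linarith
    have hfin : (B1 ∪ (B2 : Set ℕ)).Finite := hB1fin.union B2.finite_toSet
    have h1 := Set.ncard_le_ncard hsub hfin
    have h2 : (B1 ∪ (B2 : Set ℕ)).ncard ≤ B1.ncard + B2.card := by
      refine (Set.ncard_union_le _ _).trans ?_
      rw [Set.ncard_coe_finset]
    have h3 : ((({q : ℕ | Q < 2 * q ∧ q ≤ Q ∧ ¬ ∃ (q0 q1 D P : ℕ) (L : Fin U → ℕ) (κ : ℝ),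
      q0 * q1 = q ∧ 1 ≤ q0 ∧ 1 ≤ q1 ∧
      1 ≤ D ∧ Nat.Coprime q0 q1 ∧ Rough w q1 ∧ (∀ i, L i ≤ P) ∧ (∀ i, 4 * q0 * D ^ 2 ≤ L i) ∧
      0 < κ ∧ κ ≤ 1 / 2 ∧
      (k.factorial : ℝ) * (1 / κ) ^ A ≤ D ∧ (1 / κ) ^ A ≤ P ∧
      (q1 : ℝ) * (1 / κ) ^ A < (P : ℝ) ^ k ∧
      1 ≤ (Box L).card ∧ (2 * (k : ℝ) + 1) * (2 * (P : ℝ)) ^ k ≤ (q : ℝ) ^ lam ∧
      κ * q1 * (2 * (q0 : ℝ)) ^ (4 * k + 4) * (T k L (q0 * q1) : ℝ) ≤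
        ((Box L).card : ℝ) ^ 2 / 2 * (q : ℝ) ^ (-c)}).ncard : ℝ)) ≤ (B1.ncard : ℝ) + B2.card := by
      exact_mod_cast h1.trans h2
    refine h3.trans ?_
    have h4 : (0 : ℝ) ≤ Q0 := Nat.cast_nonneg _
    have h5 : (C1 + 1 + C2 + Q0 + 1) * (Q : ℝ) ^ (1 - c) = C1 * (Q : ℝ) ^ (1 - c) +
        (1 + C2) * (Q : ℝ) ^ (1 - c) + (Q0 + 1) * (Q : ℝ) ^ (1 - c) := by ring
    rw [h5]
    have h6 : 0 ≤ (Q0 + 1 : ℝ) * (Q : ℝ) ^ (1 - c) := by positivity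
    linarith
  · have hsub : {q : ℕ | Q < 2 * q ∧ q ≤ Q ∧ ¬ ∃ (q0 q1 D P : ℕ) (L : Fin U → ℕ) (κ : ℝ),
      q0 * q1 = q ∧ 1 ≤ q0 ∧ 1 ≤ q1 ∧
      1 ≤ D ∧ Nat.Coprime q0 q1 ∧ Rough w q1 ∧ (∀ i, L i ≤ P) ∧ (∀ i, 4 * q0 * D ^ 2 ≤ L i) ∧
      0 < κ ∧ κ ≤ 1 / 2 ∧
      (k.factorial : ℝ) * (1 / κ) ^ A ≤ D ∧ (1 / κ) ^ A ≤ P ∧
      (q1 : ℝ) * (1 / κ) ^ A < (P : ℝ) ^ k ∧
      1 ≤ (Box L).card ∧ (2 * (k : ℝ) + 1) * (2 * (P : ℝ)) ^ k ≤ (q : ℝ) ^ lam ∧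
      κ * q1 * (2 * (q0 : ℝ)) ^ (4 * k + 4) * (T k L (q0 * q1) : ℝ) ≤
        ((Box L).card : ℝ) ^ 2 / 2 * (q : ℝ) ^ (-c)} ⊆ ((Icc 1 Q : Finset ℕ) : Set ℕ) := by
      rintro q ⟨hq1, hq2, -⟩
      rw [mem_coe, mem_Icc]
      omega
    have h1 := Set.ncard_le_ncard hsub (Icc 1 Q).finite_toSet
    rw [Set.ncard_coe_finset, Nat.card_Icc, Nat.add_sub_cancel] at h1
    have h2 : ((({q : ℕ | Q < 2 * q ∧ q ≤ Q ∧ ¬ ∃ (q0 q1 D P : ℕ) (L : Fin U → ℕ) (κ : ℝ),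
      q0 * q1 = q ∧ 1 ≤ q0 ∧ 1 ≤ q1 ∧
      1 ≤ D ∧ Nat.Coprime q0 q1 ∧ Rough w q1 ∧ (∀ i, L i ≤ P) ∧ (∀ i, 4 * q0 * D ^ 2 ≤ L i) ∧
      0 < κ ∧ κ ≤ 1 / 2 ∧
      (k.factorial : ℝ) * (1 / κ) ^ A ≤ D ∧ (1 / κ) ^ A ≤ P ∧
      (q1 : ℝ) * (1 / κ) ^ A < (P : ℝ) ^ k ∧
      1 ≤ (Box L).card ∧ (2 * (k : ℝ) + 1) * (2 * (P : ℝ)) ^ k ≤ (q : ℝ) ^ lam ∧
      κ * q1 * (2 * (q0 : ℝ)) ^ (4 * k + 4) * (T k L (q0 * q1) : ℝ) ≤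
        ((Box L).card : ℝ) ^ 2 / 2 * (q : ℝ) ^ (-c)}).ncard : ℝ)) ≤ Q0 := by
      have h3 : Q ≤ Q0 := by omega
      exact_mod_cast h1.trans h3
    refine h2.trans ?_
    have h4 : (0 : ℝ) ≤ Q0 := Nat.cast_nonneg _
    have h5 : (Q0 : ℝ) ≤ (C1 + 1 + C2 + Q0 + 1) * 1 := by linarith
    exact h5.trans (mul_le_mul_of_nonneg_left hQc1 (by positivity))

end Pool.Agent.H12.TL
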