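import Pool.Agent.H12.TL.Cmp
import Pool.Agent.H12.TL.Gsd
import Pool.Agent.H12.TL.Frc

/-!
# Module SML: the fractions with small denominator

PROOF. `w = max w0 ((k 2^(2k+3))^k)`, `w0` from `gauss_bound`. Pointwise (`f_small`): by `cmp` and `gauss_bound`,
`|f| <= N d^(-1/k) + 2 d`, `N = card S >= L/(2 q0)` (`card_S_lower`, as `2 q0 <= 4 q0 D^2 <= L`), and
`2 d d^(1/k) <= 2 D^2 <= L/(2 q0) <= N`, so `|f| <= 2 N d^(-1/k)`. Then (`small`): group the `a` by `d = den q1 a`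
(`1 < d <= D`, `d ∣ q1`, so `d` is rough and all such `d` are `> w`); there are at most `d` of them (`card_den`), each product
is at most `2^s d^(-s/k) prod N_i` with `s = 2k+1`; sum over `d > w` of `d * 2^(2k+1) d^(-2-1/k) = 2^(2k+1) d^(-1-1/k)`, which
is at most `2^(2k+1) k w^(-1/k) <= 1/4` (`sum_(d>w) d^(-1-1/k) <= k w^(-1/k)`: compare with
`d^(-1-1/k) <= k ((d-1)^(-1/k) - d^(-1/k))`, telescoping; a finite sum suffices).
-/

set_option autoImplicit false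

namespace Pool.Agent.H12.TL

open Finset
open Pool.Agent.H26.LDP (e)

private theorem rpow_le_self (k d : ℕ) (hk : 1 ≤ k) (hd : 1 ≤ d) :
    (d : ℝ) ^ (1 / (k : ℝ)) ≤ d := by
  have hd1 : (1 : ℝ) ≤ d := by exact_mod_cast hd
  have hk1 : (1 : ℝ) ≤ k := by exact_mod_cast hk
  calc (d : ℝ) ^ (1 / (k : ℝ)) ≤ (d : ℝ) ^ (1 : ℝ) := by
        apply Real.rpow_le_rpow_of_exponent_le hd1
        rw [div_le_one (by linarith)]
        exact hk1
    _ = d := Real.rpow_one _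

theorem f_small (k : ℕ) (hk : 3 ≤ k) : ∃ w0 : ℕ, k ≤ w0 ∧ ∀ w : ℕ, w0 ≤ w → ∀ (q0 r L d b D : ℕ), 1 ≤ q0 → 1 ≤ d →
    d ≤ D → Nat.Coprime q0 d → Nat.Coprime b d → Rough w d → 4 * q0 * D ^ 2 ≤ L →
    ‖f k q0 r L ((b : ℝ) / d)‖ ≤ 2 * ((S q0 r L).card : ℝ) * (d : ℝ) ^ (-(1 / (k : ℝ))) := by
  obtain ⟨w0, hw0, hG⟩ := gauss_bound k hk
  refine ⟨w0, hw0, ?_⟩
  intro w hw q0 r L d b D hq hd hdD hc hb hr hL
  have hd1 : (1 : ℝ) ≤ d := by exact_mod_cast hd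
  have hd0 : (0 : ℝ) < d := by linarith
  have hq1 : (1 : ℝ) ≤ q0 := by exact_mod_cast hq
  have hq0 : (0 : ℝ) < q0 := by linarith
  have h1 := cmp k q0 r L d b hq hd hc
  have h2 := hG w hw d b hd hr hb
  set N : ℝ := ((S q0 r L).card : ℝ) with hN
  have hN0 : 0 ≤ N := by positivity
  -- size of N
  have hD1 : 1 ≤ D := hd.trans hdD
  have h3 : 2 * q0 ≤ L := by
    have : 1 ≤ D ^ 2 := Nat.one_le_pow _ _ hD1
    nlinarith
  have h4 := card_S_lower q0 r L hq h3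
  have hdD' : (d : ℝ) ≤ D := by exact_mod_cast hdD
  have h5 : 2 * (d : ℝ) ^ 2 ≤ N := by
    refine le_trans ?_ h4
    rw [le_div_iff₀ (by positivity)]
    have h6 : (4 * q0 * D ^ 2 : ℝ) ≤ L := by exact_mod_cast hL
    have h7 : (d : ℝ) ^ 2 ≤ (D : ℝ) ^ 2 := pow_le_pow_left₀ hd0.le hdD' 2
    nlinarith
  have h8 : 2 * (d : ℝ) ≤ N * (d : ℝ) ^ (-(1 / (k : ℝ))) := by
    have h9 := rpow_le_self k d (by omega) hd
    have h10 : (0 : ℝ) < (d : ℝ) ^ (1 / (k : ℝ)) := by positivity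
    rw [Real.rpow_neg hd0.le, ← div_eq_mul_inv, le_div_iff₀ h10]
    calc 2 * (d : ℝ) * (d : ℝ) ^ (1 / (k : ℝ)) ≤ 2 * (d : ℝ) * d :=
          mul_le_mul_of_nonneg_left h9 (by positivity)
      _ = 2 * (d : ℝ) ^ 2 := by ring
      _ ≤ N := h5
  have h11 : ‖((S q0 r L).card : ℂ) / d * G k d b‖ ≤ N * (d : ℝ) ^ (-(1 / (k : ℝ))) := by
    rw [norm_mul, norm_div, Complex.norm_natCast, Complex.norm_natCast, ← hN]
    calc N / d * ‖G k d b‖ ≤ N / d * (d : ℝ) ^ (1 - 1 / (k : ℝ)) :=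
          mul_le_mul_of_nonneg_left h2 (by positivity)
      _ = N * (d : ℝ) ^ (-(1 / (k : ℝ))) := by
          rw [sub_eq_add_neg, Real.rpow_add hd0, Real.rpow_one]
          field_simp
  calc ‖f k q0 r L ((b : ℝ) / d)‖
      = ‖(f k q0 r L ((b : ℝ) / d) - ((S q0 r L).card : ℂ) / d * G k d b) +
          ((S q0 r L).card : ℂ) / d * G k d b‖ := by rw [sub_add_cancel]
    _ ≤ ‖f k q0 r L ((b : ℝ) / d) - ((S q0 r L).card : ℂ) / d * G k d b‖ +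
          ‖((S q0 r L).card : ℂ) / d * G k d b‖ := norm_add_le _ _
    _ ≤ 2 * d + N * (d : ℝ) ^ (-(1 / (k : ℝ))) := add_le_add h1 h11
    _ ≤ 2 * N * (d : ℝ) ^ (-(1 / (k : ℝ))) := by linarith

/-- telescoping step -/
private theorem tel_step (k d : ℕ) (hk : 1 ≤ k) (hd : 2 ≤ d) :
    (d : ℝ) ^ (-1 - 1 / (k : ℝ)) ≤
      k * (((d - 1 : ℕ) : ℝ) ^ (-(1 / (k : ℝ))) - (d : ℝ) ^ (-(1 / (k : ℝ)))) := by
  have hk1 : (1 : ℝ) ≤ k := by exact_mod_cast hk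
  have hk0 : (0 : ℝ) < k := by linarith
  have hd2 : (2 : ℝ) ≤ d := by exact_mod_cast hd
  have hd0 : (0 : ℝ) < d := by linarith
  set c : ℝ := 1 / (k : ℝ) with hc
  have hc0 : 0 < c := by positivity
  have hc1 : c ≤ 1 := by
    rw [hc, div_le_one hk0]
    exact hk1
  have e1 : ((d - 1 : ℕ) : ℝ) = d * (1 - 1 / d) := by
    rw [Nat.cast_sub (by omega)]
    field_simp
    simp
  have hx0 : 0 < 1 - 1 / (d : ℝ) := by
    rw [sub_pos, div_lt_one hd0]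
    linarith
  have e2 : ((d - 1 : ℕ) : ℝ) ^ (-c) = (d : ℝ) ^ (-c) * (1 - 1 / (d : ℝ)) ^ (-c) := by
    rw [e1, Real.mul_rpow hd0.le hx0.le]
  -- (1 - 1/d)^(-c) >= 1 + c/d
  have h1 : 1 + c / d ≤ (1 - 1 / (d : ℝ)) ^ (-c) := by
    have h2 : (1 - 1 / (d : ℝ)) ^ c ≤ 1 + c * (-(1 / (d : ℝ))) := by
      have h3 := rpow_one_add_le_one_add_mul_self (s := -(1 / (d : ℝ))) (by
        rw [neg_le_neg_iff, div_le_one hd0]; linarith) hc0.le hc1
      have h4 : 1 - 1 / (d : ℝ) = 1 + -(1 / (d : ℝ)) := by ring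
      rw [h4]
      exact h3
    rw [Real.rpow_neg hx0.le]
    have h5 : (0 : ℝ) < (1 - 1 / (d : ℝ)) ^ c := by positivity
    rw [← one_div, le_div_iff₀ h5]
    have h6 : 0 ≤ c / d := by positivity
    calc (1 + c / d) * (1 - 1 / (d : ℝ)) ^ c ≤ (1 + c / d) * (1 + c * (-(1 / (d : ℝ)))) :=
          mul_le_mul_of_nonneg_left h2 (by linarith)
      _ = 1 - (c / d) ^ 2 := by ring
      _ ≤ 1 := by nlinarith [sq_nonneg (c / d)]
  rw [e2]
  have h7 : (0 : ℝ) < (d : ℝ) ^ (-c) := by positivity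
  have h8 : (d : ℝ) ^ (-1 - c) = (d : ℝ) ^ (-c) / d := by
    rw [sub_eq_add_neg, add_comm, Real.rpow_add hd0, Real.rpow_neg_one, div_eq_mul_inv]
  rw [h8]
  have h9 : (k : ℝ) * ((d : ℝ) ^ (-c) * (1 - 1 / (d : ℝ)) ^ (-c) - (d : ℝ) ^ (-c)) =
      (d : ℝ) ^ (-c) * (k * ((1 - 1 / (d : ℝ)) ^ (-c) - 1)) := by ring
  rw [h9, div_eq_mul_inv]
  apply mul_le_mul_of_nonneg_left _ h7.le
  have h10 : (k : ℝ) * (c / d) ≤ k * ((1 - 1 / (d : ℝ)) ^ (-c) - 1) :=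
    mul_le_mul_of_nonneg_left (by linarith) hk0.le
  have h11 : (k : ℝ) * (c / d) = (d : ℝ)⁻¹ := by
    rw [hc]
    field_simp
  linarith

private theorem tel_sum (k w D : ℕ) (hk : 1 ≤ k) (hw : 1 ≤ w) :
    ∑ d ∈ Ioc w D, (d : ℝ) ^ (-1 - 1 / (k : ℝ)) ≤ k * (w : ℝ) ^ (-(1 / (k : ℝ))) := by
  have key : ∀ n : ℕ, ∑ d ∈ Ioc w (w + n), (d : ℝ) ^ (-1 - 1 / (k : ℝ)) ≤
      k * ((w : ℝ) ^ (-(1 / (k : ℝ))) - ((w + n : ℕ) : ℝ) ^ (-(1 / (k : ℝ)))) := by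
    intro n
    induction n with
    | zero => simp
    | succ n ih =>
      rw [← add_assoc, Finset.sum_Ioc_succ_top (by omega)]
      have h1 := tel_step k (w + n + 1) hk (by omega)
      rw [Nat.add_sub_cancel] at h1
      calc _ ≤ k * ((w : ℝ) ^ (-(1 / (k : ℝ))) - ((w + n : ℕ) : ℝ) ^ (-(1 / (k : ℝ)))) +
            k * (((w + n : ℕ) : ℝ) ^ (-(1 / (k : ℝ))) -
              ((w + n + 1 : ℕ) : ℝ) ^ (-(1 / (k : ℝ)))) := add_le_add ih h1
        _ = _ := by ring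
  rcases le_or_gt w D with h | h
  · obtain ⟨n, rfl⟩ := Nat.exists_eq_add_of_le h
    refine (key n).trans ?_
    apply mul_le_mul_of_nonneg_left _ (by positivity)
    have : 0 ≤ ((w + n : ℕ) : ℝ) ^ (-(1 / (k : ℝ))) := by positivity
    linarith
  · rw [Finset.Ioc_eq_empty (by omega), Finset.sum_empty]
    positivity

private theorem big_w (k w : ℕ) (hk : 1 ≤ k) (h : (k * 2 ^ (2 * k + 3)) ^ k ≤ w) :
    (k : ℝ) * 2 ^ (2 * k + 3) ≤ (w : ℝ) ^ (1 / (k : ℝ)) := by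
  have hk0 : (0 : ℝ) < k := by exact_mod_cast hk
  have h2 : (((k * 2 ^ (2 * k + 3)) ^ k : ℕ) : ℝ) ≤ (w : ℝ) := Nat.cast_le.mpr h
  rw [Nat.cast_pow, Nat.cast_mul, Nat.cast_pow, Nat.cast_ofNat] at h2
  have hx : (0 : ℝ) ≤ (k : ℝ) * 2 ^ (2 * k + 3) := by positivity
  calc (k : ℝ) * 2 ^ (2 * k + 3) = (((k : ℝ) * 2 ^ (2 * k + 3)) ^ k) ^ (1 / (k : ℝ)) := by
        rw [one_div, Real.pow_rpow_inv_natCast hx (by omega)]
    _ ≤ (w : ℝ) ^ (1 / (k : ℝ)) := Real.rpow_le_rpow (by positivity) h2 (by positivity)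

private theorem num_w (k w : ℕ) (hw0 : (0 : ℝ) < w)
    (h1 : (k : ℝ) * 2 ^ (2 * k + 3) ≤ (w : ℝ) ^ (1 / (k : ℝ))) :
    (2 : ℝ) ^ (2 * k + 1) * (k * (w : ℝ) ^ (-(1 / (k : ℝ)))) ≤ 1 / 4 := by
  have h4 : (0 : ℝ) < (w : ℝ) ^ (1 / (k : ℝ)) := by positivity
  rw [Real.rpow_neg hw0.le, ← mul_assoc, ← div_eq_mul_inv, div_le_iff₀ h4]
  have h6 : (2 : ℝ) ^ (2 * k + 3) = 4 * 2 ^ (2 * k + 1) := by
    rw [show 2 * k + 3 = (2 * k + 1) + 2 by ring, pow_add]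
    ring
  rw [h6] at h1
  nlinarith

theorem small (k : ℕ) (hk : 3 ≤ k) : ∃ w : ℕ, k ≤ w ∧ ∀ (q0 q1 D : ℕ) (r L : Fin (k + k + 1) → ℕ), 1 ≤ q0 → 1 ≤ q1 →
    Nat.Coprime q0 q1 → Rough w q1 → (∀ i, 4 * q0 * D ^ 2 ≤ L i) →
    ∑ a ∈ (range q1).filter (fun a => 1 < den q1 a ∧ den q1 a ≤ D), ‖∏ i, f k q0 (r i) (L i) ((a : ℝ) / q1)‖
      ≤ (1 / 4) * ∏ i, ((S q0 (r i) (L i)).card : ℝ) := by
  obtain ⟨w0, hw0, hf⟩ := f_small k hk
  obtain ⟨w, hww0, hww⟩ : ∃ w : ℕ, w0 ≤ w ∧ (k * 2 ^ (2 * k + 3)) ^ k ≤ w :=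
    ⟨max w0 ((k * 2 ^ (2 * k + 3)) ^ k), le_max_left _ _, le_max_right _ _⟩
  have hk1 : (1 : ℝ) ≤ k := by exact_mod_cast (by omega : 1 ≤ k)
  have hk0 : (0 : ℝ) < k := by linarith
  have hw1 : 1 ≤ w := by omega
  refine ⟨w, by omega, ?_⟩
  intro q0 q1 D r L hq0 hq1 hc hr hL
  obtain ⟨P, hP⟩ : ∃ P : ℝ, P = ∏ i, ((S q0 (r i) (L i)).card : ℝ) := ⟨_, rfl⟩
  have hP0 : 0 ≤ P := by
    rw [hP]
    exact Finset.prod_nonneg fun i _ => Nat.cast_nonneg _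
  rw [← hP]
  -- one fraction
  have hone : ∀ a ∈ (range q1).filter (fun a => 1 < den q1 a ∧ den q1 a ≤ D),
      ‖∏ i, f k q0 (r i) (L i) ((a : ℝ) / q1)‖ ≤
        2 ^ (2 * k + 1) * (den q1 a : ℝ) ^ (-2 - 1 / (k : ℝ)) * P := by
    intro a ha
    rw [mem_filter] at ha
    obtain ⟨b, hb1, hb2, hb3, hb4⟩ := den_spec q1 a hq1
    have hd1 : (1 : ℝ) ≤ (den q1 a : ℝ) := by exact_mod_cast hb4
    have hd0 : (0 : ℝ) < (den q1 a : ℝ) := by linarith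
    rw [norm_prod]
    have h1 : ∀ i, ‖f k q0 (r i) (L i) ((a : ℝ) / q1)‖ ≤
        2 * ((S q0 (r i) (L i)).card : ℝ) * (den q1 a : ℝ) ^ (-(1 / (k : ℝ))) := by
      intro i
      rw [hb2]
      exact hf w (by omega) q0 (r i) (L i) (den q1 a) b D hq0 hb4 ha.2.2
        (hc.coprime_dvd_right hb3) hb1 (fun p hp hpd => hr p hp (hpd.trans hb3)) (hL i)
    calc ∏ i, ‖f k q0 (r i) (L i) ((a : ℝ) / q1)‖
        ≤ ∏ i : Fin (k + k + 1), (2 * ((S q0 (r i) (L i)).card : ℝ) *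
            (den q1 a : ℝ) ^ (-(1 / (k : ℝ)))) :=
          Finset.prod_le_prod (fun i _ => norm_nonneg _) (fun i _ => h1 i)
      _ = 2 ^ (2 * k + 1) * (den q1 a : ℝ) ^ (-2 - 1 / (k : ℝ)) * P := by
          rw [Finset.prod_mul_distrib, Finset.prod_mul_distrib, Finset.prod_const,
            Finset.prod_const, Finset.card_univ, Fintype.card_fin, ← hP]
          have h2 : ((den q1 a : ℝ) ^ (-(1 / (k : ℝ)))) ^ (k + k + 1) =
              (den q1 a : ℝ) ^ (-2 - 1 / (k : ℝ)) := by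
            rw [← Real.rpow_natCast, ← Real.rpow_mul hd0.le]
            congr 1
            push_cast
            field_simp
            ring
          rw [h2, show k + k + 1 = 2 * k + 1 by ring]
          ring
  have hmaps : ∀ a ∈ (range q1).filter (fun a => 1 < den q1 a ∧ den q1 a ≤ D),
      den q1 a ∈ Ioc w D := by
    intro a ha
    rw [mem_filter] at ha
    obtain ⟨b, hb1, hb2, hb3, hb4⟩ := den_spec q1 a hq1
    rw [mem_Ioc]
    refine ⟨?_, ha.2.2⟩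
    obtain ⟨p, hp, hpd⟩ := Nat.exists_prime_and_dvd (show den q1 a ≠ 1 by omega)
    exact lt_of_lt_of_le (hr p hp (hpd.trans hb3)) (Nat.le_of_dvd (by omega) hpd)
  calc ∑ a ∈ (range q1).filter (fun a => 1 < den q1 a ∧ den q1 a ≤ D),
        ‖∏ i, f k q0 (r i) (L i) ((a : ℝ) / q1)‖
      ≤ ∑ a ∈ (range q1).filter (fun a => 1 < den q1 a ∧ den q1 a ≤ D),
        2 ^ (2 * k + 1) * (den q1 a : ℝ) ^ (-2 - 1 / (k : ℝ)) * P := Finset.sum_le_sum hone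
    _ = ∑ d ∈ Ioc w D, ∑ a ∈ ((range q1).filter (fun a => 1 < den q1 a ∧ den q1 a ≤ D)).filter
          (fun a => den q1 a = d), 2 ^ (2 * k + 1) * (den q1 a : ℝ) ^ (-2 - 1 / (k : ℝ)) * P :=
        (Finset.sum_fiberwise_of_maps_to hmaps _).symm
    _ ≤ ∑ d ∈ Ioc w D, 2 ^ (2 * k + 1) * (d : ℝ) ^ (-1 - 1 / (k : ℝ)) * P := by
        apply Finset.sum_le_sum
        intro d hd
        rw [mem_Ioc] at hd
        have hd0 : (0 : ℝ) < d := by exact_mod_cast (by omega : 0 < d)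
        have h1 : ∑ a ∈ ((range q1).filter (fun a => 1 < den q1 a ∧ den q1 a ≤ D)).filter
            (fun a => den q1 a = d), 2 ^ (2 * k + 1) * (den q1 a : ℝ) ^ (-2 - 1 / (k : ℝ)) * P =
            ((((range q1).filter (fun a => 1 < den q1 a ∧ den q1 a ≤ D)).filter
            (fun a => den q1 a = d)).card : ℝ) *
              (2 ^ (2 * k + 1) * (d : ℝ) ^ (-2 - 1 / (k : ℝ)) * P) := by
          rw [← nsmul_eq_mul, ← Finset.sum_const]
          apply Finset.sum_congr rfl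
          intro a ha
          rw [mem_filter] at ha
          rw [ha.2]
        rw [h1]
        have h2 : ((((range q1).filter (fun a => 1 < den q1 a ∧ den q1 a ≤ D)).filter
            (fun a => den q1 a = d)).card : ℝ) ≤ d := by
          have h3 : (((range q1).filter (fun a => 1 < den q1 a ∧ den q1 a ≤ D)).filter
            (fun a => den q1 a = d)).card ≤ ((range q1).filter (fun a => den q1 a = d)).card := by
            apply Finset.card_le_card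
            intro a ha
            rw [mem_filter, mem_filter] at ha
            rw [mem_filter]
            exact ⟨ha.1.1, ha.2⟩
          exact_mod_cast h3.trans (card_den q1 d hq1)
        calc _ ≤ (d : ℝ) * (2 ^ (2 * k + 1) * (d : ℝ) ^ (-2 - 1 / (k : ℝ)) * P) :=
              mul_le_mul_of_nonneg_right h2 (mul_nonneg (mul_nonneg (pow_nonneg (by norm_num) _)
                (Real.rpow_nonneg hd0.le _)) hP0)
          _ = 2 ^ (2 * k + 1) * (d : ℝ) ^ (-1 - 1 / (k : ℝ)) * P := by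
              have h3 : (d : ℝ) ^ (-1 - 1 / (k : ℝ)) = d * (d : ℝ) ^ (-2 - 1 / (k : ℝ)) := by
                rw [show (-1 - 1 / (k : ℝ)) = 1 + (-2 - 1 / (k : ℝ)) by ring,
                  Real.rpow_add hd0, Real.rpow_one]
              rw [h3]
              ring
    _ = 2 ^ (2 * k + 1) * P * ∑ d ∈ Ioc w D, (d : ℝ) ^ (-1 - 1 / (k : ℝ)) := by
        rw [Finset.mul_sum]
        apply Finset.sum_congr rfl
        intro d _
        ring
    _ ≤ 2 ^ (2 * k + 1) * P * (k * (w : ℝ) ^ (-(1 / (k : ℝ)))) :=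
        mul_le_mul_of_nonneg_left (tel_sum k w D (by omega) hw1)
          (mul_nonneg (pow_nonneg (by norm_num) _) hP0)
    _ ≤ (1 / 4) * P := by
        have hw0' : (0 : ℝ) < w := by exact_mod_cast hw1
        have h1 := big_w k w (by omega) hww
        have h5 := num_w k w hw0' h1
        calc 2 ^ (2 * k + 1) * P * (k * (w : ℝ) ^ (-(1 / (k : ℝ)))) =
              P * (2 ^ (2 * k + 1) * (k * (w : ℝ) ^ (-(1 / (k : ℝ))))) := by ring
          _ ≤ P * (1 / 4) := mul_le_mul_of_nonneg_left h5 hP0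
          _ = (1 / 4) * P := by ring

end Pool.Agent.H12.TL
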