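import Pool.Agent.H12.TL.Ort
import Pool.Agent.H12.TL.Sml

/-!
# Module REP: the number of representations

PROOF. `count_eq`, and split `range q1` in `a = 0` (`den = 1` by `den_eq_one`; the term is `prod N_i`, as `e 0 = 1`),
`1 < den <= D` (`small`, modulus of `e` is 1) and `den > D` (`den >= 1` always, `D >= 1`).
-/

set_option autoImplicit false

namespace Pool.Agent.H12.TL

open Finset
open Pool.Agent.H26.LDP (e)


private theorem rep_norm_e (t : ℝ) : ‖e t‖ = 1 := Pool.Agent.H26.LDP.norm_e t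

theorem rep (k : ℕ) (hk : 3 ≤ k) : ∃ w : ℕ, k ≤ w ∧ ∀ (q0 q1 D n : ℕ) (r L : Fin (k + k + 1) → ℕ), 1 ≤ q0 → 1 ≤ q1 →
    1 ≤ D → Nat.Coprime q0 q1 → Rough w q1 → (∀ i, 4 * q0 * D ^ 2 ≤ L i) →
    ‖(q1 : ℂ) * (((BoxR q0 r L).filter (fun x => pw k x ≡ n [MOD q1])).card : ℂ)
        - ∏ i, ((S q0 (r i) (L i)).card : ℂ)
        - ∑ a ∈ (range q1).filter (fun a => D < den q1 a),
            e (-((a : ℝ) / q1 * n)) * ∏ i, f k q0 (r i) (L i) ((a : ℝ) / q1)‖
      ≤ (1 / 4) * ∏ i, ((S q0 (r i) (L i)).card : ℝ) := by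
  obtain ⟨w, hw, H⟩ := small k hk
  refine ⟨w, hw, ?_⟩
  intro q0 q1 D n r L hq0 hq1 hD hc hr hL
  have h1 := count_eq k q0 q1 n hq1 r L
  set F : ℕ → ℂ := fun a => e (-((a : ℝ) / q1 * n)) * ∏ i, f k q0 (r i) (L i) ((a : ℝ) / q1) with hF
  have hsplit : ∑ a ∈ range q1, F a = ∑ a ∈ (range q1).filter (fun a => D < den q1 a), F a
      + ∑ a ∈ (range q1).filter (fun a => 1 < den q1 a ∧ den q1 a ≤ D), F a
      + ∑ a ∈ (range q1).filter (fun a => den q1 a ≤ 1), F a := by
    rw [← sum_filter_add_sum_filter_not (range q1) (fun a => D < den q1 a) F, add_assoc]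
    congr 1
    rw [← sum_filter_add_sum_filter_not ((range q1).filter (fun a => ¬ D < den q1 a)) (fun a => 1 < den q1 a) F]
    congr 1
    · rw [filter_filter]
      apply sum_congr _ (fun _ _ => rfl)
      ext a
      simp only [mem_filter, mem_range]
      constructor
      · rintro ⟨h1, h2, h3⟩; exact ⟨h1, h3, by omega⟩
      · rintro ⟨h1, h2, h3⟩; exact ⟨h1, by omega, h2⟩
    · rw [filter_filter]
      apply sum_congr _ (fun _ _ => rfl)
      ext a
      simp only [mem_filter, mem_range]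
      constructor
      · rintro ⟨h1, h2, h3⟩; exact ⟨h1, by omega⟩
      · rintro ⟨h1, h2⟩; exact ⟨h1, by omega, by omega⟩
  have hthird : ∑ a ∈ (range q1).filter (fun a => den q1 a ≤ 1), F a = ∏ i, ((S q0 (r i) (L i)).card : ℂ) := by
    have : (range q1).filter (fun a => den q1 a ≤ 1) = {0} := by
      ext a
      simp only [mem_filter, mem_range, mem_singleton]
      constructor
      · rintro ⟨h1, h2⟩
        obtain ⟨b, _, _, _, h3⟩ := den_spec q1 a hq1
        exact (den_eq_one q1 a h1).mp (by omega)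
      · rintro rfl
        exact ⟨by omega, le_of_eq ((den_eq_one q1 0 (by omega)).mpr rfl)⟩
    rw [this, sum_singleton, hF]
    simp only [Nat.cast_zero, zero_div, zero_mul, neg_zero, Pool.Agent.H26.LDP.e_zero, one_mul]
    refine prod_congr rfl fun i _ => ?_
    unfold f
    simp [Pool.Agent.H26.LDP.e_zero]
  rw [h1, hsplit, hthird]
  have h2 : ∑ a ∈ (range q1).filter (fun a => D < den q1 a), F a
      + ∑ a ∈ (range q1).filter (fun a => 1 < den q1 a ∧ den q1 a ≤ D), F a
      + ∏ i, ((S q0 (r i) (L i)).card : ℂ) - ∏ i, ((S q0 (r i) (L i)).card : ℂ)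
      - ∑ a ∈ (range q1).filter (fun a => D < den q1 a), F a =
      ∑ a ∈ (range q1).filter (fun a => 1 < den q1 a ∧ den q1 a ≤ D), F a := by ring
  rw [h2]
  refine (norm_sum_le _ _).trans ?_
  refine le_trans (le_of_eq ?_) (H q0 q1 D r L hq0 hq1 hc hr hL)
  refine sum_congr rfl fun a _ => ?_
  simp only [hF]
  rw [norm_mul, rep_norm_e, one_mul]

end Pool.Agent.H12.TL
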