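import Pool.Agent.H12.TL.Defs

/-!
# Module RNG: ranges with pairwise distinct sums

PROOF. Define `L 0 = P`, `L (i+1) = floor ((L i)^(1-1/k) / 4)` (on `ℕ`, restrict to `Fin U`). (1) `L (i+1) <= L i <= P`.
(2) By induction `8^k * L i >= P^((1-1/k)^i)` for `P` large: if `8^k L i >= P^φ` with `φ = (1-1/k)^i` and `(L i)^(1-1/k) >= 8`
then `L (i+1) >= (L i)^(1-1/k)/4 - 1 >= (L i)^(1-1/k)/8 >= (1/8) (8^(-k) P^φ)^(1-1/k) = 8^(-k) P^(φ(1-1/k))` as
`8^(-1) 8^(-(k-1)) = 8^(-k)`. As `φ >= (1-1/k)^U > 0` for all `i <= U`, `P^φ 8^(-k)` is as large as we like for `P >= P0`, in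
particular `(L i)^(1-1/k) >= 8` and `L i >= 1`. (3) Distinctness: `(4 L (i+1))^k <= (L i)^(k-1)` (real powers), so
`(2 L (i+1))^k <= 2^(-k) (L i)^(k-1)` and `(2 L (i+j+1))^k <= 2^(-k) (L (i+j))^(k-1)`, and `(L (i+j))^(k-1) <= (L (i+j))^k
<= 4^(-k) (L (i+j-1))^(k-1) <= 4^(-k j) (L i)^(k-1)`; hence `sum_(j>i) (2 L j)^k <= 2^(-k) (1 + 4^(-k) + ...) (L i)^(k-1) <
(L i)^(k-1)`. Let `x <> x'` and let `i` be the first index with `x i <> x' i`, say `x i > x' i`. Then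
`x i ^ k - x' i ^ k >= k (x' i)^(k-1) >= (L i)^(k-1)` (or simply `(x' i + 1)^k >= (x' i)^k + k (x' i)^(k-1)`), and the rest
of the difference of the sums is at most `sum_(j>i) (2 L j)^k < (L i)^(k-1)` in absolute value, so the sums differ.
It is convenient to prove the distinctness by induction on `U` with `Fin.cons` (first variable split off), the hypothesis
being `sum_(j) (2 L j)^k < (L 0)^(k-1)` over the remaining indices.
-/

set_option autoImplicit false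

namespace Pool.Agent.H12.TL

open Finset
open Pool.Agent.H26.LDP (e)

/-- the lengths -/
private noncomputable def rL (k P : ℕ) : ℕ → ℕ
  | 0 => P
  | i + 1 => ⌊((rL k P i : ℕ) : ℝ) ^ (1 - 1 / (k : ℝ)) / 4⌋₊

private theorem rL_four (k P i : ℕ) :
    4 * (rL k P (i + 1) : ℝ) ≤ ((rL k P i : ℕ) : ℝ) ^ (1 - 1 / (k : ℝ)) := by
  have h : (rL k P (i + 1) : ℝ) ≤ ((rL k P i : ℕ) : ℝ) ^ (1 - 1 / (k : ℝ)) / 4 := by
    rw [rL]
    exact Nat.floor_le (by positivity)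
  linarith

private theorem rL_pow (k P i : ℕ) (hk : 2 ≤ k) :
    (4 * rL k P (i + 1)) ^ k ≤ (rL k P i) ^ (k - 1) := by
  have h := rL_four k P i
  have hk0 : (k : ℝ) ≠ 0 := by positivity
  have h1 : (4 * (rL k P (i + 1) : ℝ)) ^ k ≤
      ((((rL k P i : ℕ) : ℝ)) ^ (1 - 1 / (k : ℝ))) ^ k := pow_le_pow_left₀ (by positivity) h k
  have h2 : ((((rL k P i : ℕ) : ℝ)) ^ (1 - 1 / (k : ℝ))) ^ k = ((rL k P i : ℕ) : ℝ) ^ (k - 1) := by
    rw [← Real.rpow_natCast, ← Real.rpow_mul (by positivity), ← Real.rpow_natCast]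
    congr 1
    rw [Nat.cast_sub (by omega)]
    field_simp
    simp
  rw [h2] at h1
  exact_mod_cast h1

private theorem rL_le (k P i : ℕ) (hk : 2 ≤ k) : rL k P (i + 1) ≤ rL k P i := by
  have h := rL_pow k P i hk
  by_contra hc
  rw [not_le] at hc
  have h1 : (rL k P i) ^ (k - 1) ≤ (rL k P (i + 1)) ^ (k - 1) := Nat.pow_le_pow_left hc.le _
  have h3 : (rL k P (i + 1)) ^ (k - 1) < (4 * rL k P (i + 1)) ^ k := by
    have h4 : 0 < rL k P (i + 1) := by omega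
    calc (rL k P (i + 1)) ^ (k - 1) ≤ (rL k P (i + 1)) ^ k := Nat.pow_le_pow_right h4 (by omega)
      _ < (4 * rL k P (i + 1)) ^ k := Nat.pow_lt_pow_left (by omega) (by omega)
  omega

private theorem rL_le_P (k P i : ℕ) (hk : 2 ≤ k) : rL k P i ≤ P := by
  induction i with
  | zero => exact le_rfl
  | succ i ih => exact (rL_le k P i hk).trans ih

private theorem rL_tail (k P : ℕ) (hk : 2 ≤ k) (n : ℕ) : ∀ i : ℕ,
    2 * ∑ t ∈ range n, (2 * rL k P (i + 1 + t)) ^ k ≤ (rL k P i) ^ (k - 1) := by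
  induction n with
  | zero => intro i; simp
  | succ n ih =>
    intro i
    rw [Finset.sum_range_succ']
    have h1 := ih (i + 1)
    have h2 : ∑ t ∈ range n, (2 * rL k P (i + 1 + (t + 1))) ^ k =
        ∑ t ∈ range n, (2 * rL k P (i + 1 + 1 + t)) ^ k := by
      apply Finset.sum_congr rfl
      intro t _
      rw [show i + 1 + (t + 1) = i + 1 + 1 + t by ring]
    rw [h2, add_zero]
    have h3 := rL_pow k P i hk
    set R := rL k P (i + 1) with hR
    have h4 : R ^ (k - 1) ≤ R ^ k := by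
      rcases Nat.eq_zero_or_pos R with h | h
      · rw [h, Nat.zero_pow (by omega)]
        exact Nat.zero_le _
      · exact Nat.pow_le_pow_right h (by omega)
    have h5 : R ^ k ≤ (2 * R) ^ k := Nat.pow_le_pow_left (by omega) k
    have h6 : 4 * (2 * R) ^ k ≤ (4 * R) ^ k := by
      have e1 : (4 * R) ^ k = 2 ^ k * (2 * R) ^ k := by
        rw [← mul_pow]
        congr 1
        ring
      rw [e1]
      have : 4 ≤ 2 ^ k := by
        calc 4 = 2 ^ 2 := by norm_num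
          _ ≤ 2 ^ k := Nat.pow_le_pow_right (by norm_num) hk
      exact Nat.mul_le_mul_right _ this
    omega

private theorem rL_low (k U P : ℕ) (hk : 2 ≤ k) (hP1 : 1 ≤ P)
    (hP : (8 : ℝ) ^ (k + 1) ≤ (P : ℝ) ^ ((1 - 1 / (k : ℝ)) ^ (U + 1))) : ∀ i : ℕ, i ≤ U →
    (P : ℝ) ^ ((1 - 1 / (k : ℝ)) ^ i) ≤ 8 ^ k * (rL k P i : ℝ) := by
  have hk2 : (2 : ℝ) ≤ k := by exact_mod_cast hk
  have hk0 : (0 : ℝ) < k := by linarith
  have hP1' : (1 : ℝ) ≤ P := by exact_mod_cast hP1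
  have ha0 : 0 < 1 - 1 / (k : ℝ) := by
    rw [sub_pos, div_lt_one hk0]
    linarith
  have ha1 : 1 - 1 / (k : ℝ) ≤ 1 := by
    have : 0 < 1 / (k : ℝ) := by positivity
    linarith
  intro i
  induction i with
  | zero =>
    intro _
    have h1 : (1 : ℝ) ≤ 8 ^ k := one_le_pow₀ (by norm_num)
    have h2 : (rL k P 0 : ℝ) = P := rfl
    rw [pow_zero, Real.rpow_one, h2]
    nlinarith
  | succ i ih =>
    intro hi
    have h1 := ih (by omega)
    set a := 1 - 1 / (k : ℝ) with ha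
    have h2 : ((P : ℝ) ^ (a ^ i) / 8 ^ k) ^ a ≤ ((rL k P i : ℕ) : ℝ) ^ a := by
      apply Real.rpow_le_rpow (by positivity) _ ha0.le
      rw [div_le_iff₀ (by positivity)]
      linarith
    have h3 : ((P : ℝ) ^ (a ^ i) / 8 ^ k) ^ a = (P : ℝ) ^ (a ^ (i + 1)) / 8 ^ (k - 1) := by
      rw [Real.div_rpow (by positivity) (by positivity), ← Real.rpow_mul (by positivity),
        ← pow_succ]
      congr 1
      rw [← Real.rpow_natCast, ← Real.rpow_mul (by norm_num), ← Real.rpow_natCast]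
      congr 1
      rw [Nat.cast_sub (by omega), ha]
      field_simp
      simp
    have h4 : (8 : ℝ) ^ (k + 1) ≤ (P : ℝ) ^ (a ^ (i + 1)) := by
      refine hP.trans ?_
      apply Real.rpow_le_rpow_of_exponent_le hP1'
      exact pow_le_pow_of_le_one ha0.le ha1 (by omega)
    rw [h3] at h2
    have h8 : (8 : ℝ) ^ k = 8 * 8 ^ (k - 1) := by
      conv_lhs => rw [show k = (k - 1) + 1 by omega]
      rw [pow_succ]
      ring
    have h5 : 8 ≤ ((rL k P i : ℕ) : ℝ) ^ a := by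
      refine le_trans ?_ h2
      rw [le_div_iff₀ (by positivity)]
      have h9 : (8 : ℝ) ^ (k + 1) = 8 * 8 ^ k := by rw [pow_succ]; ring
      have h10 : (0 : ℝ) < 8 ^ (k - 1) := by positivity
      nlinarith
    have h6 : ((rL k P i : ℕ) : ℝ) ^ a / 4 < (rL k P (i + 1) : ℝ) + 1 := by
      rw [rL]
      exact Nat.lt_floor_add_one _
    have h7 : (P : ℝ) ^ (a ^ (i + 1)) ≤ ((rL k P i : ℕ) : ℝ) ^ a * 8 ^ (k - 1) := by
      rwa [div_le_iff₀ (by positivity)] at h2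
    have h11 : ((rL k P i : ℕ) : ℝ) ^ a ≤ 8 * (rL k P (i + 1) : ℝ) := by linarith
    calc (P : ℝ) ^ (a ^ (i + 1)) ≤ ((rL k P i : ℕ) : ℝ) ^ a * 8 ^ (k - 1) := h7
      _ ≤ (8 * (rL k P (i + 1) : ℝ)) * 8 ^ (k - 1) :=
          mul_le_mul_of_nonneg_right h11 (by positivity)
      _ = 8 ^ k * (rL k P (i + 1) : ℝ) := by rw [h8]; ring

private theorem split3 {U : ℕ} (i : Fin U) (g : Fin U → ℕ) :
    ∑ j, g j = ∑ j ∈ Iio i, g j + g i + ∑ j ∈ Ioi i, g j := by
  have h1 : (Finset.univ : Finset (Fin U)) = (Iio i ∪ {i}) ∪ Ioi i := by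
    ext j
    simp only [mem_univ, mem_union, mem_Iio, mem_singleton, mem_Ioi, true_iff]
    rcases lt_trichotomy j i with h | h | h
    · exact Or.inl (Or.inl h)
    · exact Or.inl (Or.inr h)
    · exact Or.inr h
  rw [h1, Finset.sum_union, Finset.sum_union, Finset.sum_singleton]
  · rw [Finset.disjoint_singleton_right, mem_Iio]
    exact lt_irrefl i
  · rw [Finset.disjoint_left]
    intro j hj hj'
    rw [mem_union, mem_Iio, mem_singleton] at hj
    rw [mem_Ioi] at hj'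
    rcases hj with h | h
    · exact absurd (h.trans hj') (lt_irrefl _)
    · rw [h] at hj'
      exact absurd hj' (lt_irrefl _)

private theorem inj_aux (k : ℕ) (hk : 2 ≤ k) {U : ℕ} (L : Fin U → ℕ)
    (hL : ∀ i, ∑ j ∈ Ioi i, (2 * L j) ^ k < (L i) ^ (k - 1)) (x x' : Fin U → ℕ)
    (hx : x ∈ Box L) (hx' : x' ∈ Box L) (i : Fin U) (hlt : ∀ j < i, x j = x' j) (hi : x' i < x i) :
    pw k x ≠ pw k x' := by
  intro h
  unfold pw at h
  rw [split3 i, split3 i (fun j => x' j ^ k)] at h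
  have h1 : ∑ j ∈ Iio i, x j ^ k = ∑ j ∈ Iio i, x' j ^ k := by
    apply Finset.sum_congr rfl
    intro j hj
    rw [hlt j (mem_Iio.mp hj)]
  rw [h1] at h
  rw [Box, Fintype.mem_piFinset] at hx hx'
  have h2 : ∑ j ∈ Ioi i, x' j ^ k ≤ ∑ j ∈ Ioi i, (2 * L j) ^ k := by
    apply Finset.sum_le_sum
    intro j _
    exact Nat.pow_le_pow_left (mem_Ioc.mp (hx' j)).2 k
  have h3 := hL i
  have h4 : x' i ^ k + (L i) ^ (k - 1) ≤ x i ^ k := by
    have h5 : (x' i + 1) ^ k ≤ x i ^ k := Nat.pow_le_pow_left hi k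
    have h6 : x' i ^ k + (x' i) ^ (k - 1) ≤ (x' i + 1) ^ k := by
      obtain ⟨m, rfl⟩ : ∃ m, k = m + 1 := ⟨k - 1, by omega⟩
      rw [Nat.add_sub_cancel, pow_succ (x' i + 1)]
      have h7 : x' i ^ m ≤ (x' i + 1) ^ m := Nat.pow_le_pow_left (by omega) m
      calc x' i ^ (m + 1) + x' i ^ m = x' i ^ m * (x' i + 1) := by ring
        _ ≤ (x' i + 1) ^ m * (x' i + 1) := Nat.mul_le_mul_right _ h7
    have h8 : (L i) ^ (k - 1) ≤ (x' i) ^ (k - 1) :=
      Nat.pow_le_pow_left (mem_Ioc.mp (hx' i)).1.le _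
    omega
  omega

theorem ranges (k : ℕ) (hk : 2 ≤ k) (U : ℕ) : ∃ P0 : ℕ, ∀ P : ℕ, P0 ≤ P → ∃ L : Fin U → ℕ,
    (∀ i, 1 ≤ L i) ∧ (∀ i, L i ≤ P) ∧
    (∀ i : Fin U, (P : ℝ) ^ ((1 - 1 / (k : ℝ)) ^ (i : ℕ)) ≤ 8 ^ k * (L i : ℝ)) ∧
    Set.InjOn (pw k) (Box L : Set (Fin U → ℕ)) := by
  have hk2 : (2 : ℝ) ≤ k := by exact_mod_cast hk
  have hk0 : (0 : ℝ) < k := by linarith
  have ha0 : 0 < 1 - 1 / (k : ℝ) := by
    rw [sub_pos, div_lt_one hk0]
    linarith
  have ha1 : 1 - 1 / (k : ℝ) ≤ 1 := by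
    have : 0 < 1 / (k : ℝ) := by positivity
    linarith
  set b : ℝ := (1 - 1 / (k : ℝ)) ^ (U + 1) with hb
  have hb0 : 0 < b := by positivity
  refine ⟨⌈((8 : ℝ) ^ (k + 1)) ^ (1 / b)⌉₊ + 1, fun P hP => ?_⟩
  have hP1 : 1 ≤ P := by omega
  have hP1' : (1 : ℝ) ≤ P := by exact_mod_cast hP1
  have hP2 : (8 : ℝ) ^ (k + 1) ≤ (P : ℝ) ^ b := by
    have h1 : ((8 : ℝ) ^ (k + 1)) ^ (1 / b) ≤ P := by
      have h2 : ⌈((8 : ℝ) ^ (k + 1)) ^ (1 / b)⌉₊ ≤ P := by omega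
      exact (Nat.le_ceil _).trans (by exact_mod_cast h2)
    calc (8 : ℝ) ^ (k + 1) = (((8 : ℝ) ^ (k + 1)) ^ (1 / b)) ^ b := by
          rw [← Real.rpow_mul (by positivity), one_div, inv_mul_cancel₀ hb0.ne', Real.rpow_one]
      _ ≤ (P : ℝ) ^ b := Real.rpow_le_rpow (by positivity) h1 hb0.le
  have hlow := rL_low k U P hk hP1 hP2
  have hone : ∀ i : ℕ, i ≤ U → 1 ≤ rL k P i := by
    intro i hi
    have h1 := hlow i hi
    by_contra hc
    have h2 : rL k P i = 0 := by omega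
    rw [h2, Nat.cast_zero, mul_zero] at h1
    have h3 : 0 < (P : ℝ) ^ ((1 - 1 / (k : ℝ)) ^ i) := by positivity
    linarith
  have htail : ∀ i : Fin U, ∑ j ∈ Ioi i, (2 * rL k P (j : ℕ)) ^ k < (rL k P (i : ℕ)) ^ (k - 1) := by
    intro i
    have h1 := rL_tail k P hk U i
    have h2 : ∑ j ∈ Ioi i, (2 * rL k P (j : ℕ)) ^ k ≤
        ∑ t ∈ range U, (2 * rL k P ((i : ℕ) + 1 + t)) ^ k := by
      have h3 : ∑ j ∈ Ioi i, (2 * rL k P (j : ℕ)) ^ k =
          ∑ t ∈ (Ioi i).image (fun j : Fin U => (j : ℕ) - (i : ℕ) - 1),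
            (2 * rL k P ((i : ℕ) + 1 + t)) ^ k := by
        rw [Finset.sum_image]
        · apply Finset.sum_congr rfl
          intro j hj
          have := Fin.lt_def.mp (mem_Ioi.mp hj)
          rw [show (i : ℕ) + 1 + ((j : ℕ) - (i : ℕ) - 1) = (j : ℕ) by omega]
        · intro j hj j' hj' h
          have h4 := Fin.lt_def.mp (mem_Ioi.mp hj)
          have h5 := Fin.lt_def.mp (mem_Ioi.mp hj')
          simp only at h
          apply Fin.ext
          omega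
      rw [h3]
      apply Finset.sum_le_sum_of_subset
      intro t ht
      rw [mem_image] at ht
      obtain ⟨j, _, rfl⟩ := ht
      rw [mem_range]
      have := j.isLt
      omega
    have h6 : 1 ≤ (rL k P (i : ℕ)) ^ (k - 1) :=
      Nat.one_le_pow _ _ (hone i i.isLt.le)
    omega
  refine ⟨fun i => rL k P (i : ℕ), fun i => hone i i.isLt.le, fun i => rL_le_P k P i hk,
    fun i => hlow i i.isLt.le, ?_⟩
  intro x hx x' hx' h
  by_contra hne
  have hx1 : x ∈ Box (fun i : Fin U => rL k P (i : ℕ)) := hx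
  have hx2 : x' ∈ Box (fun i : Fin U => rL k P (i : ℕ)) := hx'
  have hex : ∃ i, x i ≠ x' i := by
    by_contra hc
    push_neg at hc
    exact hne (funext hc)
  have hne' : (Finset.univ.filter (fun i => x i ≠ x' i)).Nonempty := by
    obtain ⟨i, hi⟩ := hex
    exact ⟨i, by rw [mem_filter]; exact ⟨mem_univ _, hi⟩⟩
  set i := (Finset.univ.filter (fun i => x i ≠ x' i)).min' hne' with hi
  have hmem := Finset.min'_mem _ hne'
  rw [← hi, mem_filter] at hmem
  have hlt : ∀ j < i, x j = x' j := by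
    intro j hj
    by_contra hc
    have := Finset.min'_le (Finset.univ.filter (fun i => x i ≠ x' i)) j
      (by rw [mem_filter]; exact ⟨mem_univ _, hc⟩)
    exact absurd (lt_of_lt_of_le hj (hi ▸ this)) (lt_irrefl _)
  rcases Nat.lt_or_gt_of_ne hmem.2 with h1 | h1
  · exact inj_aux k hk _ htail x' x hx2 hx1 i (fun j hj => (hlt j hj).symm) h1 h.symm
  · exact inj_aux k hk _ htail x x' hx1 hx2 i hlt h1 h

end Pool.Agent.H12.TL
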