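import Pool.Agent.H12.TL.Defs

/-!
# Module SAP: S is an arithmetic progression; its size

PROOF. (1) Let `x0` be the smallest number `> L` which is congruent to `r` modulo `q0`. Then the elements of `S q0 r L` are
`x0 + q0 m`, `m = 0, 1, ..., N - 1`, where `N` is the number of `m` with `x0 + q0 m <= 2L`; so `S` is the image of `range N`
under an injective map and `N = card S` (if `S` is empty anything will do). (2) (3) Among `q0` consecutive numbers exactly one is
congruent to `r`: `floor (L/q0) <= card S <= ceil (L/q0)` (Mathlib: `Nat.Ioc_filter_modEq_card` or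
`Nat.count_modEq_card`); with `2 q0 <= L` this gives `L/(2 q0) <= L/q0 - 1 <= card S <= L/q0 + 1 <= 2L/q0`.
-/

set_option autoImplicit false

namespace Pool.Agent.H12.TL

open Finset
open Pool.Agent.H26.LDP (e)

private theorem sap_core (q0 r L : ℕ) (hq : 1 ≤ q0) : ∃ x0 : ℕ, L < x0 ∧ x0 ≤ L + q0 ∧
    S q0 r L = (range (if x0 ≤ 2 * L then (2 * L - x0) / q0 + 1 else 0)).image (fun m => x0 + q0 * m) := by
  have hle : L + 1 ≤ q0 * (L + 1) := Nat.le_mul_of_pos_left _ hq
  set t : ℕ := (r + q0 * (L + 1) - (L + 1)) % q0 with ht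
  have ht1 : t < q0 := Nat.mod_lt _ hq
  have hx0 : L + 1 + t ≡ r [MOD q0] := by
    have h1 : t ≡ r + q0 * (L + 1) - (L + 1) [MOD q0] := Nat.mod_modEq _ _
    have h2 : L + 1 + t ≡ L + 1 + (r + q0 * (L + 1) - (L + 1)) [MOD q0] := h1.add_left _
    have h3 : L + 1 + (r + q0 * (L + 1) - (L + 1)) = r + q0 * (L + 1) := by omega
    rw [h3] at h2
    refine h2.trans ?_
    have h4 : q0 * (L + 1) ≡ 0 [MOD q0] := (Nat.modEq_zero_iff_dvd).mpr (dvd_mul_right _ _)
    simpa using h4.add_left r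
  refine ⟨L + 1 + t, by omega, by omega, ?_⟩
  ext x
  simp only [S, mem_filter, mem_Ioc, mem_image, mem_range]
  constructor
  · rintro ⟨⟨h1, h2⟩, h3⟩
    have h4 : x ≡ L + 1 + t [MOD q0] := h3.trans hx0.symm
    have h5 : L + 1 + t ≤ x := by
      by_contra hcon
      have h6 : x ≤ L + 1 + t := by omega
      have h7 : q0 ∣ (L + 1 + t) - x := (Nat.modEq_iff_dvd' h6).mp h4
      have h8 := Nat.le_of_dvd (by omega) h7
      omega
    obtain ⟨m, hm⟩ := (Nat.modEq_iff_dvd' h5).mp h4.symm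
    refine ⟨m, ?_, by omega⟩
    rw [if_pos (by omega)]
    have h9 : m ≤ (2 * L - (L + 1 + t)) / q0 := by
      rw [Nat.le_div_iff_mul_le hq, mul_comm]
      omega
    omega
  · rintro ⟨m, hm, rfl⟩
    by_cases h1 : L + 1 + t ≤ 2 * L
    · rw [if_pos h1] at hm
      have h2 : m ≤ (2 * L - (L + 1 + t)) / q0 := by omega
      rw [Nat.le_div_iff_mul_le hq, mul_comm] at h2
      refine ⟨⟨by omega, by omega⟩, ?_⟩
      have h4 : q0 * m ≡ 0 [MOD q0] := (Nat.modEq_zero_iff_dvd).mpr (dvd_mul_right _ _)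
      have h5 := h4.add_left (L + 1 + t)
      rw [add_zero] at h5
      exact h5.trans hx0
    · rw [if_neg h1] at hm
      omega

private theorem sap_inj (x0 q0 : ℕ) (hq : 1 ≤ q0) : Function.Injective (fun m => x0 + q0 * m) := by
  intro a b h
  have h1 : q0 * a = q0 * b := Nat.add_left_cancel h
  exact Nat.eq_of_mul_eq_mul_left hq h1

theorem S_ap (q0 r L : ℕ) (hq : 1 ≤ q0) : ∃ x0 : ℕ, ∀ g : ℕ → ℂ,
    ∑ x ∈ S q0 r L, g x = ∑ m ∈ range (S q0 r L).card, g (x0 + q0 * m) := by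
  obtain ⟨x0, _, _, hS⟩ := sap_core q0 r L hq
  have hcard : (S q0 r L).card = (if x0 ≤ 2 * L then (2 * L - x0) / q0 + 1 else 0) := by
    rw [hS, card_image_of_injective _ (sap_inj x0 q0 hq), card_range]
  refine ⟨x0, fun g => ?_⟩
  rw [hcard, hS, sum_image (fun a _ b _ h => sap_inj x0 q0 hq h)]

theorem card_S_lower (q0 r L : ℕ) (hq : 1 ≤ q0) (h : 2 * q0 ≤ L) :
    (L : ℝ) / (2 * q0) ≤ ((S q0 r L).card : ℝ) := by
  obtain ⟨x0, h1, h2, hS⟩ := sap_core q0 r L hq
  have hcard : (S q0 r L).card = (2 * L - x0) / q0 + 1 := by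
    rw [hS, card_image_of_injective _ (sap_inj x0 q0 hq), card_range, if_pos (by omega)]
  have h3 : 2 * L - x0 < q0 * ((2 * L - x0) / q0 + 1) := by
    have := Nat.lt_mul_div_succ (2 * L - x0) hq
    simpa using this
  have h4 : L ≤ q0 * (S q0 r L).card + q0 := by
    rw [hcard]
    omega
  have h5 : (L : ℝ) ≤ q0 * ((S q0 r L).card : ℝ) + q0 := by exact_mod_cast h4
  have h6 : (2 : ℝ) * q0 ≤ L := by exact_mod_cast h
  have h7 : (0 : ℝ) < q0 := by exact_mod_cast hq
  rw [div_le_iff₀ (by positivity)]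
  nlinarith

theorem card_S_le (q0 r L : ℕ) : (S q0 r L).card ≤ L := by
  unfold S
  refine (card_filter_le _ _).trans ?_
  rw [Nat.card_Ioc]
  omega

end Pool.Agent.H12.TL
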