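import Pool.Agent.H12.TL.All
import Pool.Agent.H12.TL.Alm
import Pool.Agent.H12.TL.Prm
import Pool.Agent.H12.TL.Dya

/-!
# Module THS: the two theorems on classes

PROOF. (1) `w, A` from `all_classes`, `params` with `U = k`: if `q` satisfies the long condition of `params` then
`κ q1 (2 q0)^(2k+1) T <= κ q1 (2 q0)^(4k+4) T <= |Box|^2/2` (`2 q0 >= 1`, `q^(-c) <= 1`), `all_classes` applies and gives `x` with
`pw k x <= (2k+1)(2P)^k <= q^lam`: `GoodAll k lam q`. So the bad `q` of `GoodAll` are among those counted in `params`; then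
`dyadic` with `B q = ¬ GoodAll k lam q` (the sets are finite: subsets of `Iic Q`; `Set.ncard_le_ncard`).
(2) the same with `U = k + k` and `almost_classes`: `#bad |Box|^2 <= 2 q0 q1^2 κ^2 (2 q0)^(4k+2) T <= q q1 κ (2 q0)^(4k+4) T
<= q |Box|^2 q^(-c)` (`2 κ <= 1`, `q0 q1 = q`), so `#bad <= q^(1-c)`. Here `(1-1/k)^(k+k)` is `(1-1/k)^(2k)`.
(3) `e_bound`: `(1-1/k)^k <= exp (-1)` (`Real.one_sub_le_exp_neg` or `Real.add_one_le_exp`, `k >= 1`), `exp 1 > 2.7182818283`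
(`Real.exp_one_gt_d9`), so `(1-1/k)^k < 1/2.7182818283 < 0.367880` and `1.582 * (1 - 0.367880) = 1.00001... > 1`.
-/

set_option autoImplicit false

namespace Pool.Agent.H12.TL

open Finset
open Pool.Agent.H26.LDP (e)

private theorem ths_pw_le {k s P : ℕ} (x : Fin s → ℕ) (hx : ∀ i, 1 ≤ x i ∧ x i ≤ 2 * P) :
    (pw k x : ℝ) ≤ (s : ℝ) * (2 * (P : ℝ)) ^ k := by
  unfold pw
  push_cast
  calc ∑ i, ((x i : ℕ) : ℝ) ^ k ≤ ∑ _i : Fin s, (2 * (P : ℝ)) ^ k := by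
        refine sum_le_sum fun i _ => ?_
        refine pow_le_pow_left₀ (Nat.cast_nonneg _) ?_ _
        exact_mod_cast (hx i).2
    _ = (s : ℝ) * (2 * (P : ℝ)) ^ k := by
        rw [sum_const, card_univ, Fintype.card_fin, nsmul_eq_mul]

theorem all_mod (k : ℕ) (hk : 3 ≤ k) (h2 : ¬ ∃ a : ℕ, 2 ≤ a ∧ k = 2 ^ a) (lam : ℝ)
    (hlam : 1 < lam * (1 - (1 - 1 / (k : ℝ)) ^ k)) : ∃ C c : ℝ, 0 < C ∧ 0 < c ∧ ∀ Q : ℕ, 1 ≤ Q →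
    (({q : ℕ | 1 ≤ q ∧ q ≤ Q ∧ ¬ GoodAll k lam q}).ncard : ℝ) ≤ C * (Q : ℝ) ^ (1 - c) := by
  obtain ⟨w, A, hA, hall⟩ := all_classes k hk h2
  obtain ⟨C, c, hC, hc, hc2, hpar⟩ := params k k w A hk hA lam hlam
  obtain ⟨C', hC', h⟩ := dyadic (fun q => ¬ GoodAll k lam q) C c hC hc2 (by
    intro Q hQ
    refine le_trans ?_ (hpar Q hQ)
    have hfin : ({q : ℕ | Q < 2 * q ∧ q ≤ Q ∧ ¬ ∃ (q0 q1 D P : ℕ) (L : Fin k → ℕ) (κ : ℝ), q0 * q1 = q ∧ 1 ≤ q0 ∧ 1 ≤ q1 ∧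
      1 ≤ D ∧ Nat.Coprime q0 q1 ∧ Rough w q1 ∧ (∀ i, L i ≤ P) ∧ (∀ i, 4 * q0 * D ^ 2 ≤ L i) ∧ 0 < κ ∧ κ ≤ 1 / 2 ∧
      (k.factorial : ℝ) * (1 / κ) ^ A ≤ D ∧ (1 / κ) ^ A ≤ P ∧ (q1 : ℝ) * (1 / κ) ^ A < (P : ℝ) ^ k ∧
      1 ≤ (Box L).card ∧ (2 * (k : ℝ) + 1) * (2 * (P : ℝ)) ^ k ≤ (q : ℝ) ^ lam ∧
      κ * q1 * (2 * (q0 : ℝ)) ^ (4 * k + 4) * (T k L (q0 * q1) : ℝ) ≤
        ((Box L).card : ℝ) ^ 2 / 2 * (q : ℝ) ^ (-c)}).Finite :=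
      (Set.finite_Iic Q).subset (fun q hq => hq.2.1)
    have hsub := Set.ncard_le_ncard (s := {q : ℕ | Q < 2 * q ∧ q ≤ Q ∧ ¬ GoodAll k lam q}) ?_ hfin
    · exact_mod_cast hsub
    rintro q ⟨h3, h4, h5⟩
    refine ⟨h3, h4, ?_⟩
    rintro ⟨q0, q1, D, P, L, κ, e1, e2, e3, e4, e5, e6, e7, e8, e9, e10, e11, e12, e13, e14, e15, e16⟩
    apply h5
    intro n
    have hq1 : 1 ≤ q := by omega
    have hqr : (1 : ℝ) ≤ q := by exact_mod_cast hq1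
    have hq0r : (1 : ℝ) ≤ q0 := by exact_mod_cast e2
    have hT : (0 : ℝ) ≤ (T k L (q0 * q1) : ℝ) := Nat.cast_nonneg _
    have hkey : κ * q1 * (2 * (q0 : ℝ)) ^ (2 * k + 1) * (T k L (q0 * q1) : ℝ) ≤ ((Box L).card : ℝ) ^ 2 / 2 := by
      calc κ * q1 * (2 * (q0 : ℝ)) ^ (2 * k + 1) * (T k L (q0 * q1) : ℝ)
          ≤ κ * q1 * (2 * (q0 : ℝ)) ^ (4 * k + 4) * (T k L (q0 * q1) : ℝ) := by
            apply mul_le_mul_of_nonneg_right _ hT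
            apply mul_le_mul_of_nonneg_left _ (by positivity)
            exact pow_le_pow_right₀ (by linarith) (by omega)
        _ ≤ ((Box L).card : ℝ) ^ 2 / 2 * (q : ℝ) ^ (-c) := e16
        _ ≤ ((Box L).card : ℝ) ^ 2 / 2 * 1 := by
            apply mul_le_mul_of_nonneg_left _ (by positivity)
            exact Real.rpow_le_one_of_one_le_of_nonpos hqr (by linarith)
        _ = _ := mul_one _
    obtain ⟨x, hx, hx2⟩ := hall q0 q1 D P L κ e2 e3 e4 e5 e6 e7 e8 e9 e10 e11 e12 e13 hkey n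
    refine ⟨x, fun i => (hx i).1, ?_, ?_⟩
    · rw [← e1]; exact hx2
    · refine (ths_pw_le x hx).trans (le_trans (le_of_eq ?_) e15)
      push_cast
      ring)
  exact ⟨C', c, hC', hc, h⟩

theorem alm_mod (k : ℕ) (hk : 3 ≤ k) (h2 : ¬ ∃ a : ℕ, 2 ≤ a ∧ k = 2 ^ a) (lam : ℝ)
    (hlam : 1 < lam * (1 - (1 - 1 / (k : ℝ)) ^ (2 * k))) : ∃ C c : ℝ, 0 < C ∧ 0 < c ∧ ∀ Q : ℕ, 1 ≤ Q →
    (({q : ℕ | 1 ≤ q ∧ q ≤ Q ∧ ¬ GoodAlm k lam c q}).ncard : ℝ) ≤ C * (Q : ℝ) ^ (1 - c) := by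
  obtain ⟨w, A, hA, halm⟩ := almost_classes k hk h2
  have hlam' : 1 < lam * (1 - (1 - 1 / (k : ℝ)) ^ (k + k)) := by rw [← two_mul]; exact hlam
  obtain ⟨C, c, hC, hc, hc2, hpar⟩ := params k (k + k) w A hk hA lam hlam'
  obtain ⟨C', hC', h⟩ := dyadic (fun q => ¬ GoodAlm k lam c q) C c hC hc2 (by
    intro Q hQ
    refine le_trans ?_ (hpar Q hQ)
    have hfin : ({q : ℕ | Q < 2 * q ∧ q ≤ Q ∧ ¬ ∃ (q0 q1 D P : ℕ) (L : Fin (k + k) → ℕ) (κ : ℝ), q0 * q1 = q ∧ 1 ≤ q0 ∧ 1 ≤ q1 ∧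
      1 ≤ D ∧ Nat.Coprime q0 q1 ∧ Rough w q1 ∧ (∀ i, L i ≤ P) ∧ (∀ i, 4 * q0 * D ^ 2 ≤ L i) ∧ 0 < κ ∧ κ ≤ 1 / 2 ∧
      (k.factorial : ℝ) * (1 / κ) ^ A ≤ D ∧ (1 / κ) ^ A ≤ P ∧ (q1 : ℝ) * (1 / κ) ^ A < (P : ℝ) ^ k ∧
      1 ≤ (Box L).card ∧ (2 * (k : ℝ) + 1) * (2 * (P : ℝ)) ^ k ≤ (q : ℝ) ^ lam ∧
      κ * q1 * (2 * (q0 : ℝ)) ^ (4 * k + 4) * (T k L (q0 * q1) : ℝ) ≤
        ((Box L).card : ℝ) ^ 2 / 2 * (q : ℝ) ^ (-c)}).Finite :=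
      (Set.finite_Iic Q).subset (fun q hq => hq.2.1)
    have hsub := Set.ncard_le_ncard (s := {q : ℕ | Q < 2 * q ∧ q ≤ Q ∧ ¬ GoodAlm k lam c q}) ?_ hfin
    · exact_mod_cast hsub
    rintro q ⟨h3, h4, h5⟩
    refine ⟨h3, h4, ?_⟩
    rintro ⟨q0, q1, D, P, L, κ, e1, e2, e3, e4, e5, e6, e7, e8, e9, e10, e11, e12, e13, e14, e15, e16⟩
    apply h5
    have hq1 : 1 ≤ q := by omega
    have hqr : (1 : ℝ) ≤ q := by exact_mod_cast hq1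
    have hq0r : (1 : ℝ) ≤ q0 := by exact_mod_cast e2
    have hq1r : (1 : ℝ) ≤ q1 := by exact_mod_cast e3
    have hT : (0 : ℝ) ≤ (T k L (q0 * q1) : ℝ) := Nat.cast_nonneg _
    have hB : (0 : ℝ) < (((Box L).card : ℕ) : ℝ) := by exact_mod_cast e14
    have hqq : (q0 : ℝ) * q1 = q := by exact_mod_cast e1
    have h6 := halm q0 q1 D P L κ e2 e3 e4 e5 e6 e7 e8 e9 e10 e11 e12 e13
    unfold GoodAlm
    set Bd : ℕ := ({n : ℕ | n < q0 * q1 ∧ ¬ ∃ x : Fin (k + k + 1) → ℕ, (∀ i, 1 ≤ x i ∧ x i ≤ 2 * P) ∧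
      pw k x ≡ n [MOD q0 * q1]}).ncard with hBd
    have hle : (({n : ℕ | n < q ∧ ¬ ∃ x : Fin (k + k + 1) → ℕ, (∀ i, 1 ≤ x i) ∧ pw k x ≡ n [MOD q] ∧
        (pw k x : ℝ) ≤ (q : ℝ) ^ lam}).ncard : ℝ) ≤ (Bd : ℝ) := by
      have hfin2 : ({n : ℕ | n < q0 * q1 ∧ ¬ ∃ x : Fin (k + k + 1) → ℕ, (∀ i, 1 ≤ x i ∧ x i ≤ 2 * P) ∧
          pw k x ≡ n [MOD q0 * q1]}).Finite :=
        (Set.finite_Iio (q0 * q1)).subset (fun n hn => hn.1)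
      have hsub2 := Set.ncard_le_ncard (s := {n : ℕ | n < q ∧ ¬ ∃ x : Fin (k + k + 1) → ℕ, (∀ i, 1 ≤ x i) ∧
        pw k x ≡ n [MOD q] ∧ (pw k x : ℝ) ≤ (q : ℝ) ^ lam}) ?_ hfin2
      · exact_mod_cast hsub2
      rintro n ⟨h7, h8⟩
      refine ⟨by rw [e1]; exact h7, ?_⟩
      rintro ⟨x, hx, hx2⟩
      apply h8
      refine ⟨x, fun i => (hx i).1, ?_, ?_⟩
      · rw [← e1]; exact hx2
      · refine (ths_pw_le x hx).trans (le_trans (le_of_eq ?_) e15)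
        push_cast
        ring
    refine hle.trans ?_
    have h9 : 2 * (q0 : ℝ) * (q1 : ℝ) ^ 2 * κ ^ 2 * (2 * (q0 : ℝ)) ^ (4 * k + 2) * (T k L (q0 * q1) : ℝ) ≤
        (q : ℝ) * (κ * q1 * (2 * (q0 : ℝ)) ^ (4 * k + 4) * (T k L (q0 * q1) : ℝ)) := by
      have h10 : (2 * (q0 : ℝ)) ^ (4 * k + 2) ≤ (2 * (q0 : ℝ)) ^ (4 * k + 4) :=
        pow_le_pow_right₀ (by linarith) (by omega)
      calc 2 * (q0 : ℝ) * (q1 : ℝ) ^ 2 * κ ^ 2 * (2 * (q0 : ℝ)) ^ (4 * k + 2) * (T k L (q0 * q1) : ℝ)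
          = (q : ℝ) * ((2 * κ) * (κ * q1 * (2 * (q0 : ℝ)) ^ (4 * k + 2) * (T k L (q0 * q1) : ℝ))) := by
            rw [← hqq]; ring
        _ ≤ (q : ℝ) * (1 * (κ * q1 * (2 * (q0 : ℝ)) ^ (4 * k + 4) * (T k L (q0 * q1) : ℝ))) := by
            apply mul_le_mul_of_nonneg_left _ (by positivity)
            apply mul_le_mul (by linarith) _ (by positivity) (by norm_num)
            apply mul_le_mul_of_nonneg_right _ hT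
            exact mul_le_mul_of_nonneg_left h10 (by positivity)
        _ = _ := by rw [one_mul]
    have h11 : (Bd : ℝ) * ((Box L).card : ℝ) ^ 2 ≤ (q : ℝ) * (((Box L).card : ℝ) ^ 2 / 2 * (q : ℝ) ^ (-c)) :=
      (h6.trans h9).trans (mul_le_mul_of_nonneg_left e16 (by positivity))
    have h12 : (q : ℝ) ^ (1 - c) = (q : ℝ) * (q : ℝ) ^ (-c) := by
      rw [sub_eq_add_neg, Real.rpow_add (by linarith), Real.rpow_one]
    rw [h12]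
    have h13 : (0 : ℝ) < ((Box L).card : ℝ) ^ 2 := by positivity
    have h14 : 0 ≤ (q : ℝ) * (q : ℝ) ^ (-c) := by positivity
    have h15 : (Bd : ℝ) * ((Box L).card : ℝ) ^ 2 ≤ ((q : ℝ) * (q : ℝ) ^ (-c)) * ((Box L).card : ℝ) ^ 2 := by
      nlinarith
    exact le_of_mul_le_mul_right h15 h13)
  exact ⟨C', c, hC', hc, h⟩

theorem e_bound (k : ℕ) (hk : 3 ≤ k) : 1 < (1.582 : ℝ) * (1 - (1 - 1 / (k : ℝ)) ^ k) := by
  have hk0 : (0 : ℝ) < k := by positivity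
  have hk1 : (3 : ℝ) ≤ k := by exact_mod_cast hk
  have h1 : 1 - 1 / (k : ℝ) ≤ Real.exp (-(1 / (k : ℝ))) := by
    have := Real.add_one_le_exp (-(1 / (k : ℝ)))
    linarith
  have h0 : (0 : ℝ) ≤ 1 - 1 / (k : ℝ) := by
    have : 1 / (k : ℝ) ≤ 1 := by
      rw [div_le_one hk0]
      linarith
    linarith
  have h2 : (1 - 1 / (k : ℝ)) ^ k ≤ Real.exp (-1) := by
    calc (1 - 1 / (k : ℝ)) ^ k ≤ (Real.exp (-(1 / (k : ℝ)))) ^ k := pow_le_pow_left₀ h0 h1 k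
      _ = Real.exp (-1) := by
        rw [← Real.exp_nat_mul]
        congr 1
        field_simp
  have h3 : Real.exp (-1) ≤ 0.36788 := by
    rw [Real.exp_neg]
    have h4 := Real.exp_one_gt_d9
    rw [inv_le_comm₀ (Real.exp_pos 1) (by norm_num)]
    refine le_trans ?_ h4.le
    norm_num
  nlinarith

end Pool.Agent.H12.TL
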